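import Mathlib

/-! Star bodies from radial functions. -/

namespace Pool.Agent.helper63.Equi

open Set Filter Topology Metric

variable {E : Type*} [NormedAddCommGroup E] [NormedSpace ℝ E]

/-- The star-shaped set with radial function `ρ`. -/
def starSet (ρ : E → ℝ) : Set E := {x | x = 0 ∨ ‖x‖ ≤ ρ (‖x‖⁻¹ • x)}

lemma norm_dir {x : E} (hx : x ≠ 0) : ‖‖x‖⁻¹ • x‖ = 1 := by
  have : ‖x‖ ≠ 0 := norm_ne_zero_iff.2 hx
  rw [norm_smul, norm_inv, norm_norm, inv_mul_cancel₀ this]

lemma dir_smul {x : E} {t : ℝ} (ht : 0 < t) : ‖t • x‖⁻¹ • (t • x) = ‖x‖⁻¹ • x := by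
  rw [norm_smul, Real.norm_eq_abs, abs_of_pos ht, mul_inv, smul_smul]
  congr 1
  field_simp

lemma dir_unit {u : E} (hu : ‖u‖ = 1) : ‖u‖⁻¹ • u = u := by
  rw [hu, inv_one, one_smul]

variable {ρ : E → ℝ}

lemma contAt_dir (hc : ContinuousOn ρ (sphere 0 1)) {x : E} (hx : x ≠ 0) :
    ContinuousAt (fun y : E => ρ (‖y‖⁻¹ • y)) x := by
  have h1 : ContinuousWithinAt ρ (sphere 0 1) (‖x‖⁻¹ • x) :=
    hc _ (by simpa using norm_dir hx)
  have h2 : ContinuousAt (fun y : E => ‖y‖⁻¹ • y) x := by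
    apply ContinuousAt.smul _ continuousAt_id
    exact continuous_norm.continuousAt.inv₀ (norm_ne_zero_iff.2 hx)
  have h3 : ∀ᶠ y in 𝓝 x, ‖y‖⁻¹ • y ∈ sphere (0 : E) 1 := by
    filter_upwards [isOpen_ne.mem_nhds hx] with y hy
    simpa using norm_dir hy
  have h4 : Tendsto (fun y : E => ‖y‖⁻¹ • y) (𝓝 x) (𝓝[sphere 0 1] (‖x‖⁻¹ • x)) :=
    tendsto_nhdsWithin_iff.2 ⟨h2, h3⟩
  exact h1.tendsto.comp h4

omit [NormedSpace ℝ E] in
lemma exists_lower [ProperSpace E] (hc : ContinuousOn ρ (sphere 0 1))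
    (hpos : ∀ u : E, ‖u‖ = 1 → 0 < ρ u) : ∃ m, 0 < m ∧ ∀ u : E, ‖u‖ = 1 → m ≤ ρ u := by
  rcases (sphere (0 : E) 1).eq_empty_or_nonempty with h | h
  · refine ⟨1, one_pos, fun u hu => ?_⟩
    have : u ∈ sphere (0 : E) 1 := by simpa using hu
    rw [h] at this
    exact this.elim
  · obtain ⟨u, hu, hmin⟩ := (isCompact_sphere (0 : E) 1).exists_isMinOn h hc
    exact ⟨ρ u, hpos u (by simpa using hu), fun v hv => hmin (by simpa using hv)⟩

omit [NormedSpace ℝ E] in
lemma exists_upper [ProperSpace E] (hc : ContinuousOn ρ (sphere 0 1)) :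
    ∃ m, 0 < m ∧ ∀ u : E, ‖u‖ = 1 → ρ u ≤ m := by
  rcases (sphere (0 : E) 1).eq_empty_or_nonempty with h | h
  · refine ⟨1, one_pos, fun u hu => ?_⟩
    have : u ∈ sphere (0 : E) 1 := by simpa using hu
    rw [h] at this
    exact this.elim
  · obtain ⟨u, hu, hmax⟩ := (isCompact_sphere (0 : E) 1).exists_isMaxOn h hc
    exact ⟨max (ρ u) 1, by positivity, fun v hv =>
      (show ρ v ≤ ρ u from hmax (by simpa using hv)).trans (le_max_left _ _)⟩

lemma isClosed_starSet (hc : ContinuousOn ρ (sphere 0 1)) : IsClosed (starSet ρ) := by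
  apply isClosed_of_closure_subset
  intro x hx
  by_contra hcon
  have hx0 : x ≠ 0 := fun h => hcon (Or.inl h)
  have hlt : ρ (‖x‖⁻¹ • x) < ‖x‖ := by
    by_contra h
    exact hcon (Or.inr (not_lt.1 h))
  have h1 : ∀ᶠ y in 𝓝 x, ρ (‖y‖⁻¹ • y) < ‖y‖ :=
    (contAt_dir hc hx0).eventually_lt continuous_norm.continuousAt hlt
  have h2 : ∀ᶠ y in 𝓝 x, y ∉ starSet ρ := by
    filter_upwards [h1, isOpen_ne.mem_nhds hx0] with y hy1 hy2 hy3
    rcases hy3 with h | h
    · exact hy2 h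
    · exact absurd h (not_le.2 hy1)
  exact (mem_closure_iff_frequently.1 hx) h2

lemma isCompact_starSet [ProperSpace E] (hc : ContinuousOn ρ (sphere 0 1)) :
    IsCompact (starSet ρ) := by
  obtain ⟨m, hm0, hm⟩ := exists_upper hc
  apply (isCompact_closedBall (0 : E) m).of_isClosed_subset (isClosed_starSet hc)
  intro x hx
  rw [mem_closedBall_zero_iff]
  rcases hx with h | h
  · rw [h, norm_zero]; exact hm0.le
  · rcases eq_or_ne x 0 with h0 | h0
    · rw [h0, norm_zero]; exact hm0.le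
    · exact h.trans (hm _ (norm_dir h0))

lemma zero_mem_interior [ProperSpace E] (hc : ContinuousOn ρ (sphere 0 1))
    (hpos : ∀ u : E, ‖u‖ = 1 → 0 < ρ u) : (0 : E) ∈ interior (starSet ρ) := by
  obtain ⟨m, hm0, hm⟩ := exists_lower hc hpos
  rw [mem_interior_iff_mem_nhds]
  apply mem_of_superset (ball_mem_nhds (0 : E) hm0)
  intro x hx
  rw [mem_ball_zero_iff] at hx
  rcases eq_or_ne x 0 with h0 | h0
  · exact Or.inl h0
  · exact Or.inr (hx.le.trans (hm _ (norm_dir h0)))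

lemma mem_interior_of_lt (hc : ContinuousOn ρ (sphere 0 1)) {x : E} (hx0 : x ≠ 0)
    (hx : ‖x‖ < ρ (‖x‖⁻¹ • x)) : x ∈ interior (starSet ρ) := by
  rw [mem_interior_iff_mem_nhds]
  have h1 : ∀ᶠ y in 𝓝 x, ‖y‖ < ρ (‖y‖⁻¹ • y) :=
    continuous_norm.continuousAt.eventually_lt (contAt_dir hc hx0) hx
  filter_upwards [h1] with y hy
  exact Or.inr hy.le

lemma closure_interior_starSet [ProperSpace E] (hc : ContinuousOn ρ (sphere 0 1))
    (hpos : ∀ u : E, ‖u‖ = 1 → 0 < ρ u) : closure (interior (starSet ρ)) = starSet ρ := by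
  apply subset_antisymm
  · exact (isClosed_starSet hc).closure_subset_iff.2 interior_subset
  · intro x hx
    rcases eq_or_ne x 0 with h0 | h0
    · rw [h0]
      exact subset_closure (zero_mem_interior hc hpos)
    · have hx' : ‖x‖ ≤ ρ (‖x‖⁻¹ • x) := by
        rcases hx with h | h
        · exact absurd h h0
        · exact h
      have hlim : Tendsto (fun t : ℝ => t • x) (𝓝[<] (1 : ℝ)) (𝓝 x) := by
        have : Tendsto (fun t : ℝ => t • x) (𝓝 (1 : ℝ)) (𝓝 ((1 : ℝ) • x)) :=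
          (continuous_id.smul continuous_const).tendsto _
        rw [one_smul] at this
        exact this.mono_left nhdsWithin_le_nhds
      apply mem_closure_of_tendsto hlim
      have h1 : ∀ᶠ t in 𝓝[<] (1 : ℝ), 0 < t :=
        (Ioi_mem_nhds (zero_lt_one' ℝ) |> mem_nhdsWithin_of_mem_nhds)
      filter_upwards [h1, self_mem_nhdsWithin] with t ht0 ht1
      have ht1' : t < 1 := ht1
      apply mem_interior_of_lt hc
      · exact smul_ne_zero ht0.ne' h0
      · rw [dir_smul ht0, norm_smul, Real.norm_eq_abs, abs_of_pos ht0]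
        have : 0 < ‖x‖ := norm_pos_iff.2 h0
        nlinarith

lemma starConvex_starSet : StarConvex ℝ 0 (starSet ρ) := by
  intro y hy a b ha hb hab
  rw [smul_zero, zero_add]
  rcases hb.lt_or_eq with h | h
  · rcases hy with h0 | h0
    · left
      rw [h0, smul_zero]
    · right
      rw [dir_smul h, norm_smul, Real.norm_eq_abs, abs_of_pos h]
      have : b ≤ 1 := by linarith
      have := norm_nonneg y
      nlinarith
  · left
    rw [← h, zero_smul]

lemma radial_starSet (hpos : ∀ u : E, ‖u‖ = 1 → 0 < ρ u) {u : E} (hu : ‖u‖ = 1) :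
    sSup {t : ℝ | 0 ≤ t ∧ t • u ∈ starSet ρ} = ρ u := by
  have hset : {t : ℝ | 0 ≤ t ∧ t • u ∈ starSet ρ} = Icc 0 (ρ u) := by
    ext t
    simp only [mem_ofPred_eq, mem_Icc]
    have hu0 : u ≠ 0 := by
      intro h
      rw [h, norm_zero] at hu
      exact zero_ne_one hu
    constructor
    · rintro ⟨h0, h1⟩
      refine ⟨h0, ?_⟩
      rcases h0.lt_or_eq with ht | ht
      · rcases h1 with h | h
        · exact absurd h (smul_ne_zero ht.ne' hu0)
        · rw [dir_smul ht, dir_unit hu, norm_smul, Real.norm_eq_abs, abs_of_pos ht, hu,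
            mul_one] at h
          exact h
      · rw [← ht]
        exact (hpos u hu).le
    · rintro ⟨h0, h1⟩
      refine ⟨h0, ?_⟩
      rcases h0.lt_or_eq with ht | ht
      · right
        rw [dir_smul ht, dir_unit hu, norm_smul, Real.norm_eq_abs, abs_of_pos ht, hu, mul_one]
        exact h1
      · left
        rw [← ht, zero_smul]
  rw [hset, csSup_Icc (hpos u hu).le]

end Pool.Agent.helper63.Equi
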