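import Mathlib

/-! Key inequalities for the recursion behind bodies with two `i`-equichordal points. -/

namespace Pool.Agent.helper63.Equi

/-- weight `W(t) = 2 (1+t^2)^(-i/2)`. -/
noncomputable def W (i t : ℝ) : ℝ := 2 * (1 + t ^ 2) ^ (-(i / 2))

/-- `g(t) = 2 t (1+t^2)^(-1-i/2)`, so that `W' = -i g`. -/
noncomputable def g (i t : ℝ) : ℝ := 2 * t * (1 + t ^ 2) ^ (-1 - i / 2)

lemma one_add_sq_pos (t : ℝ) : 0 < 1 + t ^ 2 := by positivity

lemma W_pos (i t : ℝ) : 0 < W i t := by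
  unfold W
  have := one_add_sq_pos t
  positivity

lemma g_nonneg {i t : ℝ} (ht : 0 ≤ t) : 0 ≤ g i t := by
  unfold g
  have := one_add_sq_pos t
  positivity

lemma hasDerivAt_W (i t : ℝ) : HasDerivAt (W i) (-i * g i t) t := by
  unfold W
  have h1 : HasDerivAt (fun t : ℝ => 1 + t ^ 2) (2 * t) t := by
    have := (hasDerivAt_pow 2 t).const_add 1
    simpa using this
  have h2 := h1.rpow_const (p := -(i / 2)) (Or.inl (one_add_sq_pos t).ne')
  have h3 := h2.const_mul 2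
  refine h3.congr_deriv ?_
  unfold g
  have : (-(i / 2) - 1 : ℝ) = -1 - i / 2 := by ring
  rw [this]
  ring

/-- the polynomial part, negative exponent. -/
lemma core_neg {T x : ℝ} (hT0 : 0 ≤ T) (hT1 : T ≤ 1) (hx : 0 ≤ x) :
    T * (1 + 2 * x * T + x ^ 2) ≤ (T + x) * (1 + x * T) := by
  nlinarith [mul_nonneg hx (mul_nonneg (sub_nonneg.2 hT1) (by linarith : (0 : ℝ) ≤ 1 + T))]

/-- the polynomial part, positive exponent. -/
lemma core_pos {i T x : ℝ} (hi : 0 ≤ i) (hT0 : 0 ≤ T) (hT1 : T ≤ 1) (hx : 0 ≤ x)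
    (h : i / 2 * (2 + x) * (1 + x) ≤ 1) :
    T * ((1 + 2 * x * T + x ^ 2) * (1 + i / 2 * (2 * x * T + x ^ 2))) ≤
      (T + x) * (1 + 2 * x * T) := by
  have e1 : (T + x) * (1 + 2 * x * T) = T * (1 + 2 * x * T + x ^ 2) + x * (1 + x * T) := by ring
  have e2 : T * ((1 + 2 * x * T + x ^ 2) * (1 + i / 2 * (2 * x * T + x ^ 2))) =
      T * (1 + 2 * x * T + x ^ 2) +
        x * (T * (i / 2 * (2 * T + x) * (1 + 2 * x * T + x ^ 2))) := by ring
  rw [e1, e2]
  have h1 : T * (i / 2 * (2 * T + x) * (1 + 2 * x * T + x ^ 2)) ≤ 1 + x * T := by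
    have h2 : i / 2 * (2 * T + x) ≤ i / 2 * (2 + x) :=
      mul_le_mul_of_nonneg_left (by linarith) (by linarith)
    have h3 : 1 + 2 * x * T + x ^ 2 ≤ (1 + x) * (1 + x) := by nlinarith
    have h4 : i / 2 * (2 * T + x) * (1 + 2 * x * T + x ^ 2) ≤
        i / 2 * (2 + x) * ((1 + x) * (1 + x)) :=
      mul_le_mul h2 h3 (by positivity) (by positivity)
    have h5 : i / 2 * (2 + x) * ((1 + x) * (1 + x)) ≤ 1 + x := by
      have : i / 2 * (2 + x) * ((1 + x) * (1 + x)) = (i / 2 * (2 + x) * (1 + x)) * (1 + x) := by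
        ring
      rw [this]
      exact mul_le_of_le_one_left (by linarith) h
    calc T * (i / 2 * (2 * T + x) * (1 + 2 * x * T + x ^ 2)) ≤ T * (1 + x) :=
          mul_le_mul_of_nonneg_left (h4.trans h5) hT0
      _ ≤ 1 + x * T := by nlinarith
  have := mul_le_mul_of_nonneg_left h1 hx
  linarith

/-- combined core inequality in terms of `T, x, k`. -/
lemma core_ineq {i T x k : ℝ} (hT0 : 0 ≤ T) (hT1 : T ≤ 1) (hx : 0 ≤ x) (hi1 : i < 1)
    (hpos : 0 < i → 1 ≤ k ∧ i / 2 * (2 + x) * (1 + x) ≤ 1)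
    (hneg : i < 0 → 1 / 2 ≤ k) (hi0 : i ≠ 0) :
    T * (1 + 2 * x * T + x ^ 2) ^ (1 + i / 2) ≤ (T + x) * (1 + 2 * x * T * k) := by
  have hxT : 0 ≤ x * T := mul_nonneg hx hT0
  have hq1 : 1 ≤ 1 + 2 * x * T + x ^ 2 := by nlinarith [sq_nonneg x]
  have hq0 : 0 < 1 + 2 * x * T + x ^ 2 := by linarith
  rcases lt_or_gt_of_ne hi0 with h | h
  · have h1 : (1 + 2 * x * T + x ^ 2) ^ (1 + i / 2) ≤ 1 + 2 * x * T + x ^ 2 := by
      calc (1 + 2 * x * T + x ^ 2) ^ (1 + i / 2) ≤ (1 + 2 * x * T + x ^ 2) ^ (1 : ℝ) :=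
            Real.rpow_le_rpow_of_exponent_le hq1 (by linarith)
        _ = _ := Real.rpow_one _
    have h2 := core_neg hT0 hT1 hx
    have h3 := mul_le_mul_of_nonneg_left h1 hT0
    have h4 : (T + x) * (1 + x * T) ≤ (T + x) * (1 + 2 * x * T * k) := by
      apply mul_le_mul_of_nonneg_left _ (by linarith)
      have := mul_le_mul_of_nonneg_left (hneg h) hxT
      nlinarith
    linarith
  · obtain ⟨hk, hc⟩ := hpos h
    have h1 : (1 + 2 * x * T + x ^ 2) ^ (1 + i / 2) ≤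
        (1 + 2 * x * T + x ^ 2) * (1 + i / 2 * (2 * x * T + x ^ 2)) := by
      rw [Real.rpow_add hq0, Real.rpow_one]
      apply mul_le_mul_of_nonneg_left _ hq0.le
      have := rpow_one_add_le_one_add_mul_self (s := 2 * x * T + x ^ 2) (p := i / 2)
        (by nlinarith [sq_nonneg x]) (by linarith) (by linarith)
      rwa [← add_assoc] at this
    have h2 := core_pos h.le hT0 hT1 hx hc
    have h3 := mul_le_mul_of_nonneg_left h1 hT0
    have h4 : (T + x) * (1 + 2 * x * T) ≤ (T + x) * (1 + 2 * x * T * k) := by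
      apply mul_le_mul_of_nonneg_left _ (by linarith)
      have := mul_le_mul_of_nonneg_left hk hxT
      nlinarith
    linarith

/-- The key inequality (I). -/
lemma keyI {i δ u y : ℝ} (hi0 : i ≠ 0) (hi1 : i ≤ 1 - 2 * δ) (hδ : 0 < δ) (hδ2 : δ ≤ 1 / 2)
    (hu : 0 ≤ u) (hy : 0 < y)
    (hpos : 0 < i → y * √(1 + u ^ 2) ≤ 1 ∧ 1 - δ ≤ y * √(1 + u ^ 2))
    (hneg : i < 0 → (y * √(1 + u ^ 2)) ^ i ≤ 2) :
    g i u ≤ g i (u + δ / y) * (1 + δ * y ^ (-1 - i) * g i u) := by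
  have hN : 0 < 1 + u ^ 2 := one_add_sq_pos u
  set S := √(1 + u ^ 2) with hS
  have hS0 : 0 < S := Real.sqrt_pos.2 hN
  have hSS : S ^ 2 = 1 + u ^ 2 := Real.sq_sqrt hN.le
  have hS1 : S = (1 + u ^ 2) ^ ((1 : ℝ) / 2) := Real.sqrt_eq_rpow _
  set ρ := y * S with hρ
  have hρ0 : 0 < ρ := mul_pos hy hS0
  set x := δ / ρ with hx
  have hx0 : 0 < x := div_pos hδ hρ0
  set T := u / S with hT
  have hT0 : 0 ≤ T := div_nonneg hu hS0.le
  have hT1 : T ≤ 1 := by
    rw [hT, div_le_one hS0]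
    nlinarith [sq_nonneg (S - u), hSS, hS0]
  have hu1 : u = S * T := by rw [hT]; field_simp
  have hu2 : u + δ / y = S * (T + x) := by
    rw [mul_add, ← hu1, hx, hρ]
    field_simp
  have hN' : 1 + (u + δ / y) ^ 2 = (1 + u ^ 2) * (1 + 2 * x * T + x ^ 2) := by
    rw [hu2]
    have : 1 + u ^ 2 = S ^ 2 := hSS.symm
    rw [this]
    have h1 : (1 : ℝ) = S ^ 2 - u ^ 2 := by linarith
    calc 1 + (S * (T + x)) ^ 2 = (S ^ 2 - u ^ 2) + (S * (T + x)) ^ 2 := by rw [← h1]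
      _ = (S ^ 2 - (S * T) ^ 2) + (S * (T + x)) ^ 2 := by rw [← hu1]
      _ = S ^ 2 * (1 + 2 * x * T + x ^ 2) := by ring
  have hq0 : 0 < 1 + 2 * x * T + x ^ 2 := by positivity
  have hk : ρ ^ (-i) = (ρ ^ i)⁻¹ := Real.rpow_neg hρ0.le i
  have hcore : T * (1 + 2 * x * T + x ^ 2) ^ (1 + i / 2) ≤
      (T + x) * (1 + 2 * x * T * ρ ^ (-i)) := by
    apply core_ineq hT0 hT1 hx0.le (by linarith) _ _ hi0
    · intro h
      obtain ⟨h1, h2⟩ := hpos h
      constructor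
      · exact Real.one_le_rpow_of_pos_of_le_one_of_nonpos hρ0 h1 (by linarith)
      · have hx1 : x ≤ δ / (1 - δ) := by
          apply div_le_div_of_nonneg_left hδ.le (by linarith) h2
        have h3 : 1 + x ≤ 1 / (1 - δ) := by
          have : (1 : ℝ) + δ / (1 - δ) = 1 / (1 - δ) := by
            have : (1 - δ) ≠ 0 := by linarith
            field_simp
            ring
          linarith
        have h4 : 2 + x ≤ (2 - δ) / (1 - δ) := by
          have : (2 : ℝ) + δ / (1 - δ) = (2 - δ) / (1 - δ) := by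
            have : (1 - δ) ≠ 0 := by linarith
            field_simp
            ring
          linarith
        have h5 : (2 + x) * (1 + x) ≤ (2 - δ) / (1 - δ) * (1 / (1 - δ)) :=
          mul_le_mul h4 h3 (by linarith) (by apply div_nonneg <;> linarith)
        have h6 : i / 2 * ((2 + x) * (1 + x)) ≤ i / 2 * ((2 - δ) / (1 - δ) * (1 / (1 - δ))) :=
          mul_le_mul_of_nonneg_left h5 (by linarith)
        have h7 : i / 2 * ((2 - δ) / (1 - δ) * (1 / (1 - δ))) ≤ 1 := by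
          have h8 : i / 2 * ((2 - δ) / (1 - δ) * (1 / (1 - δ))) =
              (i / 2 * (2 - δ)) / ((1 - δ) * (1 - δ)) := by
            field_simp
          rw [h8, div_le_one (by nlinarith)]
          nlinarith
        calc i / 2 * (2 + x) * (1 + x) = i / 2 * ((2 + x) * (1 + x)) := by ring
          _ ≤ 1 := h6.trans h7
    · intro h
      rw [hk]
      have h1 := hneg h
      have h2 : 0 < ρ ^ i := Real.rpow_pos_of_pos hρ0 i
      rw [one_div]
      exact inv_anti₀ h2 h1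
  -- now rewrite g
  have hA : 0 < (1 + u ^ 2) ^ (-1 - i / 2) := Real.rpow_pos_of_pos hN _
  have hB : 0 < (1 + 2 * x * T + x ^ 2) ^ (-1 - i / 2) := Real.rpow_pos_of_pos hq0 _
  have g1 : g i u = 2 * (S * T) * (1 + u ^ 2) ^ (-1 - i / 2) := by
    unfold g; rw [← hu1]
  have g2 : g i (u + δ / y) = 2 * (S * (T + x)) *
      ((1 + u ^ 2) ^ (-1 - i / 2) * (1 + 2 * x * T + x ^ 2) ^ (-1 - i / 2)) := by
    unfold g
    rw [hN', Real.mul_rpow hN.le hq0.le, ← hu2]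
  have g3 : δ * y ^ (-1 - i) * g i u = 2 * x * T * ρ ^ (-i) := by
    rw [g1]
    have hy1 : y = ρ * (1 + u ^ 2) ^ (-((1 : ℝ) / 2)) := by
      rw [Real.rpow_neg hN.le, ← hS1, hρ]
      field_simp
    have hy2 : y ^ (-1 - i) = ρ ^ (-1 - i) * (1 + u ^ 2) ^ ((1 + i) / 2) := by
      conv_lhs => rw [hy1]
      rw [Real.mul_rpow hρ0.le (Real.rpow_nonneg hN.le _), ← Real.rpow_mul hN.le]
      congr 2
      ring
    have hS2 : S * ((1 + u ^ 2) ^ ((1 + i) / 2) * (1 + u ^ 2) ^ (-1 - i / 2)) = 1 := by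
      rw [← Real.rpow_add hN]
      conv_lhs => rw [hS1]
      rw [← Real.rpow_add hN]
      have : (1 : ℝ) / 2 + ((1 + i) / 2 + (-1 - i / 2)) = 0 := by ring
      rw [this, Real.rpow_zero]
    have hρ1 : ρ ^ (-1 - i) = ρ ^ (-i) / ρ := by
      have : (-1 - i : ℝ) = -i - 1 := by ring
      rw [this, Real.rpow_sub_one hρ0.ne']
    rw [hy2, hρ1, hx]
    calc δ * (ρ ^ (-i) / ρ * (1 + u ^ 2) ^ ((1 + i) / 2)) *
          (2 * (S * T) * (1 + u ^ 2) ^ (-1 - i / 2))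
        = 2 * (δ / ρ) * T * ρ ^ (-i) *
          (S * ((1 + u ^ 2) ^ ((1 + i) / 2) * (1 + u ^ 2) ^ (-1 - i / 2))) := by
          field_simp
      _ = 2 * (δ / ρ) * T * ρ ^ (-i) := by rw [hS2, mul_one]
  rw [g3, g2, g1]
  have hfin : T ≤ (T + x) * (1 + 2 * x * T + x ^ 2) ^ (-1 - i / 2) *
      (1 + 2 * x * T * ρ ^ (-i)) := by
    have hinv : (1 + 2 * x * T + x ^ 2) ^ (1 + i / 2) *
        (1 + 2 * x * T + x ^ 2) ^ (-1 - i / 2) = 1 := by
      rw [← Real.rpow_add hq0]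
      have : (1 + i / 2 + (-1 - i / 2) : ℝ) = 0 := by ring
      rw [this, Real.rpow_zero]
    have := mul_le_mul_of_nonneg_right hcore hB.le
    calc T = T * (1 + 2 * x * T + x ^ 2) ^ (1 + i / 2) *
          (1 + 2 * x * T + x ^ 2) ^ (-1 - i / 2) := by rw [mul_assoc, hinv, mul_one]
      _ ≤ _ := this
      _ = _ := by ring
  have hc : 0 ≤ 2 * S * (1 + u ^ 2) ^ (-1 - i / 2) := by positivity
  calc 2 * (S * T) * (1 + u ^ 2) ^ (-1 - i / 2)
      = (2 * S * (1 + u ^ 2) ^ (-1 - i / 2)) * T := by ring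
    _ ≤ (2 * S * (1 + u ^ 2) ^ (-1 - i / 2)) *
        ((T + x) * (1 + 2 * x * T + x ^ 2) ^ (-1 - i / 2) * (1 + 2 * x * T * ρ ^ (-i))) :=
        mul_le_mul_of_nonneg_left hfin hc
    _ = _ := by ring

end Pool.Agent.helper63.Equi
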