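import Mathlib
import Pool.Agent.helper63.EquiKey

/-! The orbit recursion. -/

namespace Pool.Agent.helper63.Equi

open Set

/-- the pair `(a_n(s), y_{n-1}(s))`. -/
noncomputable def orb (i δ : ℝ) : ℕ → ℝ → ℝ × ℝ
  | 0, s => (δ * s, 1)
  | n + 1, s =>
      ((orb i δ n s).1 + δ / (W i (orb i δ n s).1 - (orb i δ n s).2 ^ i) ^ (1 / i),
        (W i (orb i δ n s).1 - (orb i δ n s).2 ^ i) ^ (1 / i))

noncomputable def A (i δ : ℝ) (n : ℕ) (s : ℝ) : ℝ := (orb i δ n s).1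
noncomputable def Y (i δ : ℝ) (n : ℕ) (s : ℝ) : ℝ := (orb i δ n s).2

lemma A_zero (i δ s : ℝ) : A i δ 0 s = δ * s := rfl
lemma Y_zero (i δ s : ℝ) : Y i δ 0 s = 1 := rfl
lemma Y_succ (i δ : ℝ) (n : ℕ) (s : ℝ) :
    Y i δ (n + 1) s = (W i (A i δ n s) - (Y i δ n s) ^ i) ^ (1 / i) := rfl
lemma A_succ (i δ : ℝ) (n : ℕ) (s : ℝ) :
    A i δ (n + 1) s = A i δ n s + δ / Y i δ (n + 1) s := rfl

lemma W_eq (i t : ℝ) : W i t = 2 * (√(1 + t ^ 2)) ^ (-i) := by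
  unfold W
  rw [Real.sqrt_eq_rpow, ← Real.rpow_mul (one_add_sq_pos t).le]
  congr 2
  ring

/-- elementary facts for one step of the recursion: `ρ^i + P^i = 2`. -/
lemma step_pos {i a yp : ℝ} (hi0 : i ≠ 0) (hyp : 0 < yp)
    (hP : (yp * √(1 + a ^ 2)) ^ i < 2) :
    0 < W i a - yp ^ i ∧ 0 < (W i a - yp ^ i) ^ (1 / i) ∧
    ((W i a - yp ^ i) ^ (1 / i)) ^ i = W i a - yp ^ i ∧
    ((W i a - yp ^ i) ^ (1 / i) * √(1 + a ^ 2)) ^ i + (yp * √(1 + a ^ 2)) ^ i = 2 := by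
  have hS0 : 0 < √(1 + a ^ 2) := Real.sqrt_pos.2 (one_add_sq_pos a)
  have hSi : 0 < (√(1 + a ^ 2)) ^ i := Real.rpow_pos_of_pos hS0 i
  have hmul : (yp * √(1 + a ^ 2)) ^ i = yp ^ i * (√(1 + a ^ 2)) ^ i :=
    Real.mul_rpow hyp.le hS0.le
  have hW : W i a = 2 / (√(1 + a ^ 2)) ^ i := by
    rw [W_eq, Real.rpow_neg hS0.le, div_eq_mul_inv]
  have h1 : 0 < W i a - yp ^ i := by
    rw [hW, sub_pos, lt_div_iff₀ hSi, ← hmul]
    exact hP
  have h2 : 0 < (W i a - yp ^ i) ^ (1 / i) := Real.rpow_pos_of_pos h1 _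
  have h3 : ((W i a - yp ^ i) ^ (1 / i)) ^ i = W i a - yp ^ i := by
    rw [← Real.rpow_mul h1.le, one_div, inv_mul_cancel₀ hi0, Real.rpow_one]
  refine ⟨h1, h2, h3, ?_⟩
  rw [Real.mul_rpow h2.le hS0.le, h3, hmul, hW]
  field_simp
  ring

lemma sqrt_law {a y δ : ℝ} (ha : 0 ≤ a) (hy : 0 < y) (hδ : 0 < δ) :
    y * √(1 + a ^ 2) ≤ y * √(1 + (a + δ / y) ^ 2) ∧
    y * √(1 + (a + δ / y) ^ 2) ≤ y * √(1 + a ^ 2) + δ := by
  have hq : 0 < δ / y := div_pos hδ hy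
  constructor
  · apply mul_le_mul_of_nonneg_left _ hy.le
    apply Real.sqrt_le_sqrt
    nlinarith
  · have hS0 : 0 < √(1 + a ^ 2) := Real.sqrt_pos.2 (one_add_sq_pos a)
    have hSS : √(1 + a ^ 2) ^ 2 = 1 + a ^ 2 := Real.sq_sqrt (one_add_sq_pos a).le
    have haS : a ≤ √(1 + a ^ 2) := Real.le_sqrt_of_sq_le (by linarith)
    have h1 : √(1 + (a + δ / y) ^ 2) ≤ √(1 + a ^ 2) + δ / y := by
      apply Real.sqrt_le_iff.2
      constructor
      · positivity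
      · nlinarith [mul_le_mul_of_nonneg_right haS hq.le]
    calc y * √(1 + (a + δ / y) ^ 2) ≤ y * (√(1 + a ^ 2) + δ / y) :=
          mul_le_mul_of_nonneg_left h1 hy.le
      _ = y * √(1 + a ^ 2) + δ := by field_simp

/-- if `ρ^i + P^i = 2` and `1 ≤ P` then `ρ ≤ 1`. -/
lemma rho_le_one {i ρ P : ℝ} (hi0 : i ≠ 0) (hP : 1 ≤ P)
    (h : ρ ^ i + P ^ i = 2) : ρ ≤ 1 := by
  by_contra hcon
  push Not at hcon
  rcases lt_or_gt_of_ne hi0 with hi | hi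
  · have h1 : ρ ^ i < 1 := Real.rpow_lt_one_of_one_lt_of_neg hcon hi
    have h2 : P ^ i ≤ 1 := Real.rpow_le_one_of_one_le_of_nonpos hP hi.le
    linarith
  · have h1 : 1 < ρ ^ i := Real.one_lt_rpow hcon hi
    have h2 : 1 ≤ P ^ i := Real.one_le_rpow hP hi.le
    linarith

/-- if `ρ^i + P^i = 2` and `ρ ≤ P` then `1 ≤ P`. -/
lemma one_le_P {i ρ P : ℝ} (hi0 : i ≠ 0) (hρ : 0 < ρ) (hρP : ρ ≤ P)
    (h : ρ ^ i + P ^ i = 2) : 1 ≤ P := by
  by_contra hcon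
  push Not at hcon
  have hP0 : 0 < P := lt_of_lt_of_le hρ hρP
  rcases lt_or_gt_of_ne hi0 with hi | hi
  · have h1 : 1 < ρ ^ i := Real.one_lt_rpow_of_pos_of_lt_one_of_neg hρ (lt_of_le_of_lt hρP hcon) hi
    have h2 : 1 < P ^ i := Real.one_lt_rpow_of_pos_of_lt_one_of_neg hP0 hcon hi
    linarith
  · have h1 : ρ ^ i < 1 := Real.rpow_lt_one hρ.le (lt_of_le_of_lt hρP hcon) hi
    have h2 : P ^ i < 1 := Real.rpow_lt_one hP0.le hcon hi
    linarith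

lemma pow_lt_two {i δ P : ℝ} (hi1 : i < 1) (hδ2 : δ ≤ 1 / 2) (hi0 : 0 < i)
    (hP0 : 0 ≤ P) (hP : P ≤ 1 + δ) : P ^ i < 2 := by
  rcases le_or_gt P 1 with h | h
  · have := Real.rpow_le_one hP0 h hi0.le
    linarith
  · have h1 : P ^ i ≤ P ^ (1 : ℝ) := Real.rpow_le_rpow_of_exponent_le h.le hi1.le
    rw [Real.rpow_one] at h1
    linarith

/-- for `0 < i`: `ρ ≥ 1 - δ`. -/
lemma rho_ge {i δ ρ P : ℝ} (hi0 : 0 < i) (hi1 : i < 1) (hδ : 0 < δ) (hδ2 : δ ≤ 1 / 2)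
    (hρ : 0 < ρ) (hP0 : 0 < P) (hP : P ≤ 1 + δ) (h : ρ ^ i + P ^ i = 2) : 1 - δ ≤ ρ := by
  have h1 : P ^ i ≤ (1 + δ) ^ i := Real.rpow_le_rpow hP0.le hP hi0.le
  have h2 : (1 + δ) ^ i ≤ 1 + i * δ :=
    rpow_one_add_le_one_add_mul_self (by linarith) hi0.le hi1.le
  have h3 : (1 + (-δ)) ^ i ≤ 1 + i * (-δ) :=
    rpow_one_add_le_one_add_mul_self (by linarith) hi0.le hi1.le
  have h4 : (1 - δ) ^ i ≤ ρ ^ i := by
    have : (1 + (-δ)) = 1 - δ := by ring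
    rw [this] at h3
    linarith
  exact (Real.rpow_le_rpow_iff (by linarith) hρ.le hi0).1 h4

/-- linear-in-`ζ` lemma. -/
lemma lin_step {G G' a κ ζ : ℝ} (ha : 0 ≤ a) (hG' : 0 ≤ G')
    (hI : G ≤ G' * (1 + κ * G)) (hζ0 : 0 ≤ ζ) (hζ : ζ ≤ G * a) :
    ζ ≤ G' * (a + κ * ζ) := by
  rcases le_or_gt (1 - G' * κ) 0 with h | h
  · have h1 : ζ * (1 - G' * κ) ≤ 0 := mul_nonpos_of_nonneg_of_nonpos hζ0 h
    have h2 : 0 ≤ G' * a := mul_nonneg hG' ha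
    nlinarith
  · have h1 : ζ * (1 - G' * κ) ≤ G * a * (1 - G' * κ) := mul_le_mul_of_nonneg_right hζ h.le
    have h2 : a * G ≤ a * (G' * (1 + κ * G)) := mul_le_mul_of_nonneg_left hI ha
    nlinarith

structure Good (i δ : ℝ) (n : ℕ) : Prop where
  inv : ∀ s ∈ Icc (0 : ℝ) 1, 0 ≤ A i δ n s ∧ 0 < Y i δ n s ∧
    (Y i δ n s * √(1 + (A i δ n s) ^ 2)) ^ i < 2 ∧
    1 ≤ Y i δ n s * √(1 + (A i δ n s) ^ 2) ∧
    Y i δ n s * √(1 + (A i δ n s) ^ 2) ≤ 1 + δ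
  contA : ContinuousOn (A i δ n) (Icc 0 1)
  contY : ContinuousOn (Y i δ n) (Icc 0 1)
  der : ∀ s ∈ Ioo (0 : ℝ) 1, ∃ a ζ : ℝ, HasDerivAt (A i δ n) a s ∧
    HasDerivAt (Y i δ n) (-ζ * (Y i δ n s) ^ (1 - i)) s ∧ 0 < a ∧ 0 ≤ ζ ∧
    ζ ≤ g i (A i δ n s) * a
  link0 : A i δ (n + 1) 0 = A i δ n 1
  link1 : Y i δ (n + 1) 0 = Y i δ n 1

/-- consequence of the pointwise invariants at level `n` (without `1 ≤ P`). -/
lemma next_deriv {i δ : ℝ} (hi0 : i ≠ 0) (n : ℕ) {s a ζ : ℝ}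
    (hY : 0 < Y i δ n s) (hP : (Y i δ n s * √(1 + (A i δ n s) ^ 2)) ^ i < 2)
    (hA' : HasDerivAt (A i δ n) a s)
    (hY' : HasDerivAt (Y i δ n) (-ζ * (Y i δ n s) ^ (1 - i)) s) :
    HasDerivAt (Y i δ (n + 1))
      (-(g i (A i δ n s) * a - ζ) * (Y i δ (n + 1) s) ^ (1 - i)) s := by
  obtain ⟨h1, h2, h3, h4⟩ := step_pos hi0 hY hP
  have e1 : HasDerivAt (fun s => W i (A i δ n s)) (-i * g i (A i δ n s) * a) s :=
    (hasDerivAt_W i (A i δ n s)).comp s hA'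
  have e2 := hY'.rpow_const (p := i) (Or.inl hY.ne')
  have e3 := (e1.sub e2).rpow_const (p := 1 / i) (Or.inl h1.ne')
  have e4 : HasDerivAt (Y i δ (n + 1)) _ s := e3
  refine e4.congr_deriv ?_
  have k1 : (Y i δ n s) ^ (1 - i) * (Y i δ n s) ^ (i - 1) = 1 := by
    rw [← Real.rpow_add hY]
    simp
  have k2 : (W i (A i δ n s) - Y i δ n s ^ i) ^ (1 / i - 1) = (Y i δ (n + 1) s) ^ (1 - i) := by
    rw [Y_succ, ← Real.rpow_mul h1.le]
    congr 1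
    field_simp
  have k3 : (fun s => W i (A i δ n s) - Y i δ n s ^ i) s =
      W i (A i δ n s) - Y i δ n s ^ i := rfl
  simp only [Pi.sub_apply]
  rw [k2]
  calc (-i * g i (A i δ n s) * a - -ζ * Y i δ n s ^ (1 - i) * i * Y i δ n s ^ (i - 1)) * (1 / i) *
        Y i δ (n + 1) s ^ (1 - i)
      = (-g i (A i δ n s) * a + ζ * (Y i δ n s ^ (1 - i) * Y i δ n s ^ (i - 1))) * (i * (1 / i)) *
        Y i δ (n + 1) s ^ (1 - i) := by ring
    _ = _ := by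
      rw [k1, mul_one_div_cancel hi0]
      ring

lemma cont_next {i δ : ℝ} (hi0 : i ≠ 0) (n : ℕ)
    (hinv : ∀ s ∈ Icc (0 : ℝ) 1, 0 < Y i δ n s ∧
      (Y i δ n s * √(1 + (A i δ n s) ^ 2)) ^ i < 2)
    (hA : ContinuousOn (A i δ n) (Icc 0 1)) (hY : ContinuousOn (Y i δ n) (Icc 0 1)) :
    ContinuousOn (Y i δ (n + 1)) (Icc 0 1) ∧ ContinuousOn (A i δ (n + 1)) (Icc 0 1) := by
  have hW : ContinuousOn (fun s => W i (A i δ n s)) (Icc 0 1) := by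
    have : Continuous (W i) := continuous_iff_continuousAt.2 fun t =>
      (hasDerivAt_W i t).continuousAt
    exact this.comp_continuousOn hA
  have h1 : ContinuousOn (Y i δ (n + 1)) (Icc 0 1) := by
    have : ContinuousOn (fun s => (W i (A i δ n s) - (Y i δ n s) ^ i) ^ (1 / i)) (Icc 0 1) := by
      apply ContinuousOn.rpow_const
      · apply hW.sub
        apply hY.rpow_const
        intro s hs
        exact Or.inl (hinv s hs).1.ne'
      · intro s hs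
        exact Or.inl (step_pos hi0 (hinv s hs).1 (hinv s hs).2).1.ne'
    exact this
  refine ⟨h1, ?_⟩
  have : ContinuousOn (fun s => A i δ n s + δ / Y i δ (n + 1) s) (Icc 0 1) := by
    apply hA.add
    apply continuousOn_const.div h1
    intro s hs
    exact (step_pos hi0 (hinv s hs).1 (hinv s hs).2).2.1.ne'
  exact this

lemma antitone_of_der {i : ℝ} {f : ℝ → ℝ} {ζ : ℝ → ℝ}
    (hc : ContinuousOn f (Icc 0 1))
    (hpos : ∀ s ∈ Icc (0 : ℝ) 1, 0 < f s)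
    (hd : ∀ s ∈ Ioo (0 : ℝ) 1, HasDerivAt f (-(ζ s) * (f s) ^ (1 - i)) s)
    (hz : ∀ s ∈ Ioo (0 : ℝ) 1, 0 ≤ ζ s) : AntitoneOn f (Icc 0 1) := by
  apply antitoneOn_of_deriv_nonpos (convex_Icc 0 1) hc
  · intro s hs
    rw [interior_Icc] at hs
    exact (hd s hs).differentiableAt.differentiableWithinAt
  · intro s hs
    rw [interior_Icc] at hs
    rw [(hd s hs).deriv]
    have := hpos s (Ioo_subset_Icc_self hs)
    have h2 : 0 < f s ^ (1 - i) := Real.rpow_pos_of_pos this _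
    have := mul_nonneg (hz s hs) h2.le
    linarith

lemma link (i δ : ℝ) (n : ℕ) :
    A i δ (n + 1) 0 = A i δ n 1 ∧ Y i δ (n + 1) 0 = Y i δ n 1 := by
  induction n with
  | zero =>
    have h1 : Y i δ (0 + 1) 0 = 1 := by
      rw [Y_succ, A_zero, Y_zero]
      unfold W
      simp
      norm_num
    constructor
    · rw [A_succ, h1, A_zero, A_zero]
      simp
    · rw [h1, Y_zero]
  | succ n ih =>
    obtain ⟨ih1, ih2⟩ := ih
    have h1 : Y i δ (n + 1 + 1) 0 = Y i δ (n + 1) 1 := by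
      rw [Y_succ i δ (n + 1) 0, ih1, ih2, ← Y_succ i δ n 1]
    refine ⟨?_, h1⟩
    rw [A_succ i δ (n + 1) 0, h1, ih1, ← A_succ i δ n 1]

/-- Data needed on `δ`. -/
structure Param (i δ : ℝ) : Prop where
  hi0 : i ≠ 0
  hδ : 0 < δ
  hδ2 : δ ≤ 1 / 2
  hi1 : i ≤ 1 - 2 * δ

lemma Param.lt_one {i δ : ℝ} (h : Param i δ) : i < 1 := by
  have := h.hδ
  have := h.hi1
  linarith

lemma good_zero {i δ : ℝ} (h : Param i δ) : Good i δ 0 := by
  have hi1 := h.lt_one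
  have hδ := h.hδ
  refine ⟨?_, ?_, ?_, ?_, ?_, ?_⟩
  · intro s hs
    obtain ⟨hs0, hs1⟩ := hs
    have hP1 : (1 : ℝ) ≤ √(1 + (δ * s) ^ 2) := by
      rw [Real.one_le_sqrt]
      nlinarith [sq_nonneg (δ * s)]
    have hP2 : √(1 + (δ * s) ^ 2) ≤ 1 + δ := by
      apply Real.sqrt_le_iff.2
      constructor
      · linarith
      · have h1 : δ * s ≤ δ := mul_le_of_le_one_right hδ.le hs1
        have h2 : 0 ≤ δ * s := mul_nonneg hδ.le hs0
        nlinarith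
    rw [A_zero, Y_zero, one_mul]
    refine ⟨mul_nonneg hδ.le hs0, one_pos, ?_, hP1, hP2⟩
    rcases lt_or_gt_of_ne h.hi0 with hi | hi
    · have := Real.rpow_le_one_of_one_le_of_nonpos hP1 hi.le
      linarith
    · exact pow_lt_two hi1 h.hδ2 hi (by linarith) hP2
  · have : Continuous (fun s : ℝ => δ * s) := continuous_const.mul continuous_id
    exact this.continuousOn
  · exact (continuous_const (y := (1 : ℝ))).continuousOn
  · intro s hs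
    refine ⟨δ, 0, ?_, ?_, hδ, le_rfl, ?_⟩
    · have : HasDerivAt (fun s : ℝ => δ * s) (δ * 1) s := (hasDerivAt_id s).const_mul δ
      rw [mul_one] at this
      exact this
    · have : HasDerivAt (fun _ : ℝ => (1 : ℝ)) 0 s := hasDerivAt_const s 1
      refine HasDerivAt.congr_deriv (f := Y i δ 0) this ?_
      simp
    · apply mul_nonneg (g_nonneg _) hδ.le
      rw [A_zero]
      exact mul_nonneg hδ.le hs.1.le
  · exact (link i δ 0).1
  · exact (link i δ 0).2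

lemma Good.succ {i δ : ℝ} (h : Param i δ) {n : ℕ} (hg : Good i δ n) : Good i δ (n + 1) := by
  have hi1 := h.lt_one
  have hδ := h.hδ
  have hi0 := h.hi0
  -- pointwise facts
  have fact : ∀ s ∈ Icc (0 : ℝ) 1, 0 < Y i δ (n + 1) s ∧
      Y i δ (n + 1) s * √(1 + (A i δ n s) ^ 2) ≤ 1 ∧
      (0 < i → 1 - δ ≤ Y i δ (n + 1) s * √(1 + (A i δ n s) ^ 2)) ∧
      (Y i δ (n + 1) s * √(1 + (A i δ n s) ^ 2)) ^ i < 2 ∧
      0 ≤ A i δ (n + 1) s ∧
      (Y i δ (n + 1) s * √(1 + (A i δ (n + 1) s) ^ 2)) ^ i < 2 ∧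
      Y i δ (n + 1) s * √(1 + (A i δ (n + 1) s) ^ 2) ≤ 1 + δ := by
    intro s hs
    obtain ⟨hA, hY, hP, hP1, hP2⟩ := hg.inv s hs
    obtain ⟨h1, h2, h3, h4⟩ := step_pos hi0 hY hP
    rw [← Y_succ i δ n s] at h2 h4
    have hS0 : 0 < √(1 + (A i δ n s) ^ 2) := Real.sqrt_pos.2 (one_add_sq_pos _)
    have hρ0 : 0 < Y i δ (n + 1) s * √(1 + (A i δ n s) ^ 2) := mul_pos h2 hS0
    have hPpos : 0 < Y i δ n s * √(1 + (A i δ n s) ^ 2) := by linarith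
    have hρ1 := rho_le_one hi0 hP1 h4
    have hρi : (Y i δ (n + 1) s * √(1 + (A i δ n s) ^ 2)) ^ i < 2 := by
      have := Real.rpow_pos_of_pos hPpos i
      linarith
    have hA1 : 0 ≤ A i δ (n + 1) s := by
      rw [A_succ]
      have := div_pos hδ h2
      linarith
    obtain ⟨l1, l2⟩ := sqrt_law hA h2 hδ
    rw [← A_succ i δ n s] at l1 l2
    have l3 : Y i δ (n + 1) s * √(1 + (A i δ (n + 1) s) ^ 2) ≤ 1 + δ := by linarith
    refine ⟨h2, hρ1, fun hi => rho_ge hi hi1 hδ h.hδ2 hρ0 hPpos hP2 h4, hρi, hA1, ?_, l3⟩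
    rcases lt_or_gt_of_ne hi0 with hi | hi
    · exact lt_of_le_of_lt (Real.rpow_le_rpow_of_nonpos hρ0 l1 hi.le) hρi
    · exact pow_lt_two hi1 h.hδ2 hi (by linarith) l3
  have hcont := cont_next hi0 n (fun s hs => ⟨(hg.inv s hs).2.1, (hg.inv s hs).2.2.1⟩)
    hg.contA hg.contY
  -- derivatives at level n + 1
  have der1 : ∀ s ∈ Ioo (0 : ℝ) 1, ∃ a ζ : ℝ, HasDerivAt (A i δ (n + 1)) a s ∧
      HasDerivAt (Y i δ (n + 1)) (-ζ * (Y i δ (n + 1) s) ^ (1 - i)) s ∧ 0 < a ∧ 0 ≤ ζ ∧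
      ζ ≤ g i (A i δ (n + 1) s) * a := by
    intro s hs
    have hs' := Ioo_subset_Icc_self hs
    obtain ⟨a, ζ, hA', hY', ha, hζ0, hζ⟩ := hg.der s hs
    obtain ⟨hA, hY, hP, hP1, hP2⟩ := hg.inv s hs'
    obtain ⟨f1, f2, f3, f4, f5, f6, f7⟩ := fact s hs'
    have hY1 := next_deriv hi0 n hY hP hA' hY'
    set ζ' := g i (A i δ n s) * a - ζ with hζ'
    have hζ'0 : 0 ≤ ζ' := by rw [hζ']; linarith
    have hA1 : HasDerivAt (A i δ (n + 1))
        (a + δ * (Y i δ (n + 1) s) ^ (-1 - i) * ζ') s := by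
      have e1 : HasDerivAt (fun s => A i δ n s + δ / Y i δ (n + 1) s)
          (a + (0 * Y i δ (n + 1) s - δ * (-ζ' * (Y i δ (n + 1) s) ^ (1 - i))) /
            (Y i δ (n + 1) s) ^ 2) s :=
        hA'.add ((hasDerivAt_const s δ).div hY1 f1.ne')
      refine HasDerivAt.congr_deriv (f := A i δ (n + 1)) e1 ?_
      have k1 : (Y i δ (n + 1) s) ^ (1 - i) / (Y i δ (n + 1) s) ^ 2 =
          (Y i δ (n + 1) s) ^ (-1 - i) := by
        have : (-1 - i : ℝ) = (1 - i) - ((2 : ℕ) : ℝ) := by push_cast; ring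
        rw [this, Real.rpow_sub_natCast f1.ne']
      rw [← k1]
      ring
    refine ⟨_, ζ', hA1, hY1, ?_, hζ'0, ?_⟩
    · have : 0 ≤ δ * (Y i δ (n + 1) s) ^ (-1 - i) * ζ' := by
        have := Real.rpow_pos_of_pos f1 (-1 - i)
        positivity
      linarith
    · apply lin_step ha.le (g_nonneg f5) _ hζ'0
        (show ζ' ≤ g i (A i δ n s) * a by rw [hζ']; linarith)
      have := keyI (i := i) (δ := δ) (u := A i δ n s) (y := Y i δ (n + 1) s) hi0 h.hi1 hδ h.hδ2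
        hA f1 (fun hi => ⟨f2, f3 hi⟩) (fun _ => f4.le)
      rwa [← A_succ] at this
  -- Y (n+1) antitone
  have anti1 : AntitoneOn (Y i δ (n + 1)) (Icc 0 1) := by
    classical
    choose! a ζ hh using der1
    exact antitone_of_der (i := i) (ζ := ζ) hcont.1 (fun s hs => (fact s hs).1)
      (fun s hs => (hh s hs).2.1) (fun s hs => (hh s hs).2.2.2.1)
  have hinv1 : ∀ s ∈ Icc (0 : ℝ) 1, 0 < Y i δ (n + 1) s ∧
      (Y i δ (n + 1) s * √(1 + (A i δ (n + 1) s) ^ 2)) ^ i < 2 := fun s hs =>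
    ⟨(fact s hs).1, (fact s hs).2.2.2.2.2.1⟩
  have hcont2 := cont_next hi0 (n + 1) hinv1 hcont.2 hcont.1
  have anti2 : AntitoneOn (Y i δ (n + 2)) (Icc 0 1) := by
    classical
    choose! a ζ hh using der1
    exact antitone_of_der (i := i)
      (ζ := fun s => g i (A i δ (n + 1) s) * a s - ζ s) hcont2.1
      (fun s hs => (step_pos hi0 (hinv1 s hs).1 (hinv1 s hs).2).2.1)
      (fun s hs => next_deriv hi0 (n + 1) (hinv1 s (Ioo_subset_Icc_self hs)).1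
        (hinv1 s (Ioo_subset_Icc_self hs)).2 (hh s hs).1 (hh s hs).2.1)
      (fun s hs => by
        have := (hh s hs).2.2.2.2
        linarith)
  have lk := link i δ (n + 1)
  refine ⟨?_, hcont.2, hcont.1, der1, lk.1, lk.2⟩
  intro s hs
  obtain ⟨f1, f2, f3, f4, f5, f6, f7⟩ := fact s hs
  refine ⟨f5, f1, f6, ?_, f7⟩
  obtain ⟨h1, h2, h3, h4⟩ := step_pos hi0 f1 f6
  rw [← Y_succ i δ (n + 1) s] at h2 h4
  have hS0 : 0 < √(1 + (A i δ (n + 1) s) ^ 2) := Real.sqrt_pos.2 (one_add_sq_pos _)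
  have hle : Y i δ (n + 1 + 1) s ≤ Y i δ (n + 1) s := by
    calc Y i δ (n + 1 + 1) s ≤ Y i δ (n + 1 + 1) 0 :=
          anti2 (left_mem_Icc.2 zero_le_one) hs hs.1
      _ = Y i δ (n + 1) 1 := lk.2
      _ ≤ Y i δ (n + 1) s := anti1 hs (right_mem_Icc.2 zero_le_one) hs.2
  exact one_le_P hi0 (mul_pos h2 hS0) (mul_le_mul_of_nonneg_right hle hS0.le) h4

lemma good {i δ : ℝ} (h : Param i δ) (n : ℕ) : Good i δ n := by
  induction n with
  | zero => exact good_zero h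
  | succ n ih => exact ih.succ h

end Pool.Agent.helper63.Equi
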