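import Mathlib
import Pool.Agent.helper63.EquiOrb

/-! The odd homeomorphism `τ` of the line and its asymptotics. -/

namespace Pool.Agent.helper63.Equi

open Set Filter Topology

variable {i δ : ℝ}

lemma A_strictMonoOn (h : Param i δ) (n : ℕ) : StrictMonoOn (A i δ n) (Icc 0 1) := by
  have hg := good h n
  apply strictMonoOn_of_deriv_pos (convex_Icc 0 1) hg.contA
  intro s hs
  rw [interior_Icc] at hs
  obtain ⟨a, ζ, h1, h2, h3, h4, h5⟩ := hg.der s hs
  rw [h1.deriv]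
  exact h3

/-- `1 ≤ P_n`, hence `y_n ≤ y_{n-1}` and `y_n ≤ 1`. -/
lemma Y_le (h : Param i δ) (n : ℕ) {s : ℝ} (hs : s ∈ Icc (0 : ℝ) 1) :
    0 < Y i δ (n + 1) s ∧ Y i δ (n + 1) s * √(1 + (A i δ n s) ^ 2) ≤ 1 ∧
    (Y i δ (n + 1) s * √(1 + (A i δ n s) ^ 2)) ^ i +
      (Y i δ n s * √(1 + (A i δ n s) ^ 2)) ^ i = 2 ∧ Y i δ (n + 1) s ≤ 1 := by
  obtain ⟨hA, hY, hP, hP1, hP2⟩ := (good h n).inv s hs
  obtain ⟨h1, h2, h3, h4⟩ := step_pos h.hi0 hY hP
  rw [← Y_succ i δ n s] at h2 h4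
  have hρ1 := rho_le_one h.hi0 hP1 h4
  refine ⟨h2, hρ1, h4, ?_⟩
  have hS : (1 : ℝ) ≤ √(1 + (A i δ n s) ^ 2) := by
    rw [Real.one_le_sqrt]
    nlinarith [sq_nonneg (A i δ n s)]
  nlinarith

lemma A_step (h : Param i δ) (n : ℕ) {s : ℝ} (hs : s ∈ Icc (0 : ℝ) 1) :
    A i δ n s + δ ≤ A i δ (n + 1) s := by
  obtain ⟨h1, _, _, h4⟩ := Y_le h n hs
  rw [A_succ]
  have : δ ≤ δ / Y i δ (n + 1) s := by
    rw [le_div_iff₀ h1]
    exact mul_le_of_le_one_right h.hδ.le h4
  linarith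

lemma A_lower (h : Param i δ) (n : ℕ) {s : ℝ} (hs : s ∈ Icc (0 : ℝ) 1) :
    δ * n ≤ A i δ n s := by
  induction n with
  | zero =>
    rw [A_zero]
    simp only [Nat.cast_zero, mul_zero]
    exact mul_nonneg h.hδ.le hs.1
  | succ n ih =>
    have := A_step h n hs
    push_cast
    linarith

/-- `τ` on the nonnegative half line. -/
noncomputable def tp (i δ x : ℝ) : ℝ := A i δ ⌊x⌋₊ (x - ⌊x⌋₊)

lemma frac_mem {x : ℝ} (hx : 0 ≤ x) : x - ⌊x⌋₊ ∈ Ico (0 : ℝ) 1 := by
  constructor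
  · have := Nat.floor_le hx
    linarith
  · have := Nat.lt_floor_add_one x
    linarith

lemma frac_mem' {x : ℝ} (hx : 0 ≤ x) : x - ⌊x⌋₊ ∈ Icc (0 : ℝ) 1 :=
  Ico_subset_Icc_self (frac_mem hx)

lemma A_one_le (h : Param i δ) {n m : ℕ} (hnm : n < m) : A i δ n 1 ≤ A i δ m 0 := by
  obtain ⟨k, rfl⟩ : ∃ k, m = n + 1 + k := ⟨m - (n + 1), by omega⟩
  clear hnm
  induction k with
  | zero => exact (link i δ n).1.symm.le
  | succ k ih =>
    have h1 := A_step h (n + 1 + k) (left_mem_Icc.2 (zero_le_one' ℝ))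
    have := h.hδ
    have e : n + 1 + (k + 1) = n + 1 + k + 1 := by ring
    rw [e]
    linarith

lemma tp_strictMonoOn (h : Param i δ) : StrictMonoOn (tp i δ) (Ici 0) := by
  intro x hx y hy hxy
  have hx' : (0 : ℝ) ≤ x := hx
  have hy' : (0 : ℝ) ≤ y := hy
  unfold tp
  rcases (Nat.floor_le_floor hxy.le).lt_or_eq with hlt | heq
  · calc A i δ ⌊x⌋₊ (x - ⌊x⌋₊) < A i δ ⌊x⌋₊ 1 :=
          A_strictMonoOn h _ (frac_mem' hx') (right_mem_Icc.2 zero_le_one) (frac_mem hx').2
      _ ≤ A i δ ⌊y⌋₊ 0 := A_one_le h hlt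
      _ ≤ A i δ ⌊y⌋₊ (y - ⌊y⌋₊) :=
          (A_strictMonoOn h _).monotoneOn (left_mem_Icc.2 zero_le_one) (frac_mem' hy')
            (frac_mem hy').1
  · rw [heq]
    apply A_strictMonoOn h _ _ (frac_mem' hy') (by linarith)
    rw [← heq]
    exact frac_mem' hx'

lemma tp_zero : tp i δ 0 = 0 := by
  unfold tp
  simp [A_zero]

lemma tp_nonneg (h : Param i δ) {x : ℝ} (hx : 0 ≤ x) : 0 ≤ tp i δ x := by
  rw [← tp_zero (i := i) (δ := δ)]
  exact (tp_strictMonoOn h).monotoneOn (mem_Ici.2 le_rfl) hx hx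

lemma tp_surj (h : Param i δ) {t : ℝ} (ht : 0 ≤ t) : ∃ x, 0 ≤ x ∧ tp i δ x = t := by
  have hδ := h.hδ
  -- find n with A n 0 ≤ t < A (n+1) 0
  have hex : ∃ n : ℕ, t < A i δ (n + 1) 0 := by
    obtain ⟨n, hn⟩ := exists_nat_gt (t / δ)
    refine ⟨n, ?_⟩
    have h1 := A_lower h (n + 1) (left_mem_Icc.2 (zero_le_one' ℝ))
    rw [div_lt_iff₀ hδ] at hn
    push_cast at h1
    nlinarith
  classical
  let n := Nat.find hex
  have hn : t < A i δ (n + 1) 0 := Nat.find_spec hex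
  have hn' : A i δ n 0 ≤ t := by
    rcases Nat.eq_zero_or_pos n with h0 | h0
    · rw [h0, A_zero]
      simpa using ht
    · have := Nat.find_min hex (m := n - 1) (by omega)
      push Not at this
      have e : n - 1 + 1 = n := by omega
      rwa [e] at this
  have hlink : A i δ (n + 1) 0 = A i δ n 1 := (link i δ n).1
  have hivt := intermediate_value_Icc (zero_le_one' ℝ) (good h n).contA
  obtain ⟨s, hs, hst⟩ := hivt (show t ∈ Icc (A i δ n 0) (A i δ n 1) from ⟨hn', by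
    rw [← hlink]; exact hn.le⟩)
  have hs1 : s < 1 := by
    rcases hs.2.lt_or_eq with h1 | h1
    · exact h1
    · rw [h1] at hst
      linarith
  refine ⟨n + s, by have := hs.1; positivity, ?_⟩
  have hfl : ⌊(n : ℝ) + s⌋₊ = n := by
    rw [Nat.floor_eq_iff (by have := hs.1; positivity)]
    constructor
    · linarith [hs.1]
    · linarith
  unfold tp
  rw [hfl]
  simpa using hst

/-- the odd homeomorphism. -/
noncomputable def tau (i δ x : ℝ) : ℝ := if 0 ≤ x then tp i δ x else -tp i δ (-x)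

lemma tau_of_nonneg {x : ℝ} (hx : 0 ≤ x) : tau i δ x = tp i δ x := if_pos hx

lemma tau_zero : tau i δ 0 = 0 := by rw [tau_of_nonneg le_rfl, tp_zero]

lemma tau_neg (x : ℝ) : tau i δ (-x) = -tau i δ x := by
  unfold tau
  rcases lt_trichotomy x 0 with hx | hx | hx
  · rw [if_pos (by linarith), if_neg (by linarith)]
    ring
  · subst hx
    simp [tp_zero]
  · rw [if_neg (by linarith), if_pos hx.le, neg_neg]

lemma tau_strictMono (h : Param i δ) : StrictMono (tau i δ) := by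
  intro x y hxy
  rcases le_or_gt 0 x with hx | hx
  · rw [tau_of_nonneg hx, tau_of_nonneg (hx.trans hxy.le)]
    exact tp_strictMonoOn h hx (hx.trans hxy.le) hxy
  · rcases le_or_gt 0 y with hy | hy
    · have h1 : tau i δ x < 0 := by
        have : tau i δ x = -tp i δ (-x) := if_neg (by linarith)
        rw [this]
        have h2 : tp i δ 0 < tp i δ (-x) :=
          tp_strictMonoOn h (mem_Ici.2 le_rfl) (show (0 : ℝ) ≤ -x by linarith) (by linarith)
        rw [tp_zero] at h2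
        linarith
      have h2 : 0 ≤ tau i δ y := by
        rw [tau_of_nonneg hy]
        exact tp_nonneg h hy
      linarith
    · have e1 : tau i δ x = -tp i δ (-x) := if_neg (by linarith)
      have e2 : tau i δ y = -tp i δ (-y) := if_neg (by linarith)
      rw [e1, e2]
      have : tp i δ (-y) < tp i δ (-x) :=
        tp_strictMonoOn h (show (0 : ℝ) ≤ -y by linarith) (show (0 : ℝ) ≤ -x by linarith)
          (by linarith)
      linarith

lemma tau_surj (h : Param i δ) : Function.Surjective (tau i δ) := by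
  intro t
  rcases le_or_gt 0 t with ht | ht
  · obtain ⟨x, hx, hxt⟩ := tp_surj h ht
    exact ⟨x, by rw [tau_of_nonneg hx, hxt]⟩
  · obtain ⟨x, hx, hxt⟩ := tp_surj h (show 0 ≤ -t by linarith)
    refine ⟨-x, ?_⟩
    rw [tau_neg, tau_of_nonneg hx, hxt]
    ring

/-- height of the curve at parameter `x`. -/
noncomputable def yy (i δ x : ℝ) : ℝ := δ / (tau i δ (x + 1) - tau i δ x)

lemma yy_of_nonneg (h : Param i δ) {x : ℝ} (hx : 0 ≤ x) :
    tau i δ x = A i δ ⌊x⌋₊ (x - ⌊x⌋₊) ∧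
    tau i δ (x + 1) = A i δ (⌊x⌋₊ + 1) (x - ⌊x⌋₊) ∧
    yy i δ x = Y i δ (⌊x⌋₊ + 1) (x - ⌊x⌋₊) := by
  have h1 : tau i δ x = A i δ ⌊x⌋₊ (x - ⌊x⌋₊) := tau_of_nonneg hx
  have h2 : tau i δ (x + 1) = A i δ (⌊x⌋₊ + 1) (x - ⌊x⌋₊) := by
    rw [tau_of_nonneg (by linarith)]
    unfold tp
    rw [Nat.floor_add_one hx]
    push_cast
    congr 1
    ring
  refine ⟨h1, h2, ?_⟩
  unfold yy
  rw [h1, h2, A_succ, add_sub_cancel_left, div_div_cancel₀ h.hδ.ne']

lemma tp_of_le_one {x : ℝ} (hx : x ∈ Icc (0 : ℝ) 1) : tp i δ x = δ * x := by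
  rcases hx.2.lt_or_eq with h1 | h1
  · unfold tp
    have : ⌊x⌋₊ = 0 := Nat.floor_eq_zero.2 h1
    rw [this, A_zero]
    simp
  · subst h1
    unfold tp
    simp only [Nat.floor_one, Nat.cast_one, sub_self, mul_one]
    rw [(link i δ 0).1, A_zero]
    simp

/-- `y = 1` on `[-1, 0]`. -/
lemma yy_of_neg (h : Param i δ) {x : ℝ} (hx : x ∈ Icc (-1 : ℝ) 0) : yy i δ x = 1 := by
  have h1 : tau i δ (x + 1) = δ * (x + 1) := by
    rw [tau_of_nonneg (by linarith [hx.1]), tp_of_le_one ⟨by linarith [hx.1], by linarith [hx.2]⟩]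
  have h2 : tau i δ x = δ * x := by
    have : tau i δ (-(-x)) = -tau i δ (-x) := tau_neg _
    rw [neg_neg] at this
    rw [this, tau_of_nonneg (by linarith [hx.2]),
      tp_of_le_one ⟨by linarith [hx.2], by linarith [hx.1]⟩]
    ring
  unfold yy
  rw [h1, h2]
  have hδ := h.hδ
  have : δ * (x + 1) - δ * x = δ := by ring
  rw [this, div_self hδ.ne']

lemma yy_symm (x : ℝ) : yy i δ (-x - 1) = yy i δ x := by
  unfold yy
  have h1 : -x - 1 + 1 = -x := by ring
  have h2 : -x - 1 = -(x + 1) := by ring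
  rw [h1, h2, tau_neg, tau_neg]
  congr 1
  ring

lemma yy_pred (h : Param i δ) {x : ℝ} (hx : 0 ≤ x) :
    yy i δ (x - 1) = Y i δ ⌊x⌋₊ (x - ⌊x⌋₊) := by
  rcases lt_or_ge x 1 with h1 | h1
  · have h2 : ⌊x⌋₊ = 0 := Nat.floor_eq_zero.2 h1
    rw [h2, Y_zero, yy_of_neg h ⟨by linarith, by linarith⟩]
  · have h2 := (yy_of_nonneg h (x := x - 1) (by linarith)).2.2
    have h3 : ⌊x - 1⌋₊ = ⌊x⌋₊ - 1 := Nat.floor_sub_one x
    have h4 : 1 ≤ ⌊x⌋₊ := by
      rw [Nat.one_le_floor_iff]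
      exact h1
    have h5 : ⌊x⌋₊ - 1 + 1 = ⌊x⌋₊ := by omega
    rw [h2, h3, h5]
    congr 1
    rw [Nat.cast_sub h4]
    push_cast
    ring

/-- the functional equation for `x ≥ 0`, in normalised form. -/
lemma funeq_nonneg (h : Param i δ) {x : ℝ} (hx : 0 ≤ x) :
    (yy i δ x * √(1 + (tau i δ x) ^ 2)) ^ i +
      (yy i δ (x - 1) * √(1 + (tau i δ x) ^ 2)) ^ i = 2 := by
  rw [(yy_of_nonneg h hx).2.2, (yy_of_nonneg h hx).1, yy_pred h hx]
  exact (Y_le h _ (frac_mem' hx)).2.2.1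

/-- the functional equation for all `x`. -/
lemma funeq (h : Param i δ) (x : ℝ) :
    (yy i δ x * √(1 + (tau i δ x) ^ 2)) ^ i +
      (yy i δ (x - 1) * √(1 + (tau i δ x) ^ 2)) ^ i = 2 := by
  rcases le_or_gt 0 x with hx | hx
  · exact funeq_nonneg h hx
  · have h1 := funeq_nonneg h (x := -x) (by linarith)
    have h2 : yy i δ (-x) = yy i δ (x - 1) := by
      rw [← yy_symm (x - 1)]
      congr 1
      ring
    rw [yy_symm, h2, tau_neg, neg_sq] at h1
    linarith

lemma yy_pos (h : Param i δ) (x : ℝ) : 0 < yy i δ x := by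
  unfold yy
  apply div_pos h.hδ
  have := tau_strictMono h (show x < x + 1 by linarith)
  linarith

/-- bounds for `x ≥ 0`. -/
lemma bounds (h : Param i δ) {x : ℝ} (hx : 0 ≤ x) :
    0 < yy i δ x ∧ yy i δ x ≤ 1 ∧ yy i δ x * √(1 + (tau i δ x) ^ 2) ≤ 1 ∧
    1 ≤ yy i δ x * √(1 + (tau i δ (x + 1)) ^ 2) ∧
    0 ≤ tau i δ x ∧ tau i δ (x + 1) = tau i δ x + δ / yy i δ x := by
  obtain ⟨e1, e2, e3⟩ := yy_of_nonneg h hx
  obtain ⟨h1, h2, h3, h4⟩ := Y_le h ⌊x⌋₊ (frac_mem' hx)
  refine ⟨yy_pos h x, by rw [e3]; exact h4, by rw [e3, e1]; exact h2, ?_, ?_, ?_⟩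
  · rw [e3, e2]
    exact ((good h (⌊x⌋₊ + 1)).inv _ (frac_mem' hx)).2.2.2.1
  · rw [e1]
    exact ((good h ⌊x⌋₊).inv _ (frac_mem' hx)).1
  · rw [e1, e2, e3, A_succ]

/-- existence of the radius on the axis. -/
lemma exists_r (h : Param i δ) : ∃ r : ℝ, 0 < r ∧ r ≤ 1 ∧ r ^ i + (r + δ) ^ i = 2 := by
  have hδ := h.hδ
  have hδ2 := h.hδ2
  have hcont : ContinuousOn (fun r : ℝ => r ^ i + (r + δ) ^ i) (Icc (1 - δ) 1) := by
    apply ContinuousOn.add
    · apply continuousOn_id.rpow_const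
      intro x hx
      left
      have : 0 < x := by linarith [hx.1]
      exact this.ne'
    · apply (continuousOn_id.add continuousOn_const).rpow_const
      intro x hx
      left
      have : 0 < x + δ := by linarith [hx.1]
      exact this.ne'
  have e1 : (1 - δ) + δ = 1 := by ring
  rcases lt_or_gt_of_ne h.hi0 with hi | hi
  · have h1 : 1 ≤ (1 - δ) ^ i :=
      Real.one_le_rpow_of_pos_of_le_one_of_nonpos (by linarith) (by linarith) hi.le
    have h2 : (1 + δ) ^ i ≤ 1 := Real.rpow_le_one_of_one_le_of_nonpos (by linarith) hi.le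
    have := intermediate_value_Icc' (show 1 - δ ≤ 1 by linarith) hcont
    obtain ⟨r, hr, hr2⟩ := this (show (2 : ℝ) ∈ Icc _ _ from by
      constructor
      · simp only [Real.one_rpow]
        linarith
      · simp only [e1, Real.one_rpow]
        linarith)
    exact ⟨r, by linarith [hr.1], hr.2, hr2⟩
  · have h1 : (1 - δ) ^ i ≤ 1 := Real.rpow_le_one (by linarith) (by linarith) hi.le
    have h2 : 1 ≤ (1 + δ) ^ i := Real.one_le_rpow (by linarith) hi.le
    have := intermediate_value_Icc (show 1 - δ ≤ 1 by linarith) hcont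
    obtain ⟨r, hr, hr2⟩ := this (show (2 : ℝ) ∈ Icc _ _ from by
      constructor
      · simp only [e1, Real.one_rpow]
        linarith
      · simp only [Real.one_rpow]
        linarith)
    exact ⟨r, by linarith [hr.1], hr.2, hr2⟩

/-- contraction estimate for `r ≤ r'`. -/
lemma contr_aux (h : Param i δ) {r r' : ℝ} (hr : 0 < r) (hrr : r ≤ r') (hr' : r' ≤ 1) :
    |(r + δ) ^ i - (r' + δ) ^ i| ≤ (1 + δ) ^ (i - 1) * |r ^ i - r' ^ i| := by
  have hδ := h.hδ
  have hi1 := h.lt_one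
  -- m(r) = κ r^i - (r+δ)^i
  set κ := (1 + δ) ^ (i - 1) with hκ
  have hder : ∀ x ∈ Icc r r', HasDerivAt (fun x : ℝ => κ * x ^ i - (x + δ) ^ i)
      (i * (κ * x ^ (i - 1) - (x + δ) ^ (i - 1))) x := by
    intro x hx
    have hx0 : 0 < x := lt_of_lt_of_le hr hx.1
    have e1 := (Real.hasDerivAt_rpow_const (x := x) (p := i) (Or.inl hx0.ne')).const_mul κ
    have e2 : HasDerivAt (fun x : ℝ => (x + δ) ^ i) (1 * i * (x + δ) ^ (i - 1)) x :=
      ((hasDerivAt_id x).add_const δ).rpow_const (Or.inl (by simp only [id]; linarith))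
    refine (e1.sub e2).congr_deriv ?_
    ring
  have hpos : ∀ x ∈ Icc r r', 0 ≤ κ * x ^ (i - 1) - (x + δ) ^ (i - 1) := by
    intro x hx
    have hx0 : 0 < x := lt_of_lt_of_le hr hx.1
    have hx1 : x ≤ 1 := hx.2.trans hr'
    rw [hκ, ← Real.mul_rpow (by linarith) hx0.le, sub_nonneg]
    apply Real.rpow_le_rpow_of_nonpos (by positivity) _ (by linarith)
    nlinarith
  have hcont : ContinuousOn (fun x : ℝ => κ * x ^ i - (x + δ) ^ i) (Icc r r') := fun x hx =>
    (hder x hx).continuousAt.continuousWithinAt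
  rcases lt_or_gt_of_ne h.hi0 with hi | hi
  · have hanti : AntitoneOn (fun x : ℝ => κ * x ^ i - (x + δ) ^ i) (Icc r r') := by
      apply antitoneOn_of_deriv_nonpos (convex_Icc r r') hcont
      · intro x hx
        exact (hder x (interior_subset hx)).differentiableAt.differentiableWithinAt
      · intro x hx
        rw [(hder x (interior_subset hx)).deriv]
        exact mul_nonpos_of_nonpos_of_nonneg hi.le (hpos x (interior_subset hx))
    have h1 := hanti (left_mem_Icc.2 hrr) (right_mem_Icc.2 hrr) hrr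
    simp only at h1
    have h2 : (r' + δ) ^ i ≤ (r + δ) ^ i :=
      Real.rpow_le_rpow_of_nonpos (by linarith) (by linarith) hi.le
    have h3 : r' ^ i ≤ r ^ i := Real.rpow_le_rpow_of_nonpos hr hrr hi.le
    rw [abs_of_nonneg (by linarith), abs_of_nonneg (by linarith)]
    linarith
  · have hmono : MonotoneOn (fun x : ℝ => κ * x ^ i - (x + δ) ^ i) (Icc r r') := by
      apply monotoneOn_of_deriv_nonneg (convex_Icc r r') hcont
      · intro x hx
        exact (hder x (interior_subset hx)).differentiableAt.differentiableWithinAt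
      · intro x hx
        rw [(hder x (interior_subset hx)).deriv]
        exact mul_nonneg hi.le (hpos x (interior_subset hx))
    have h1 := hmono (left_mem_Icc.2 hrr) (right_mem_Icc.2 hrr) hrr
    simp only at h1
    have h2 : (r + δ) ^ i ≤ (r' + δ) ^ i :=
      Real.rpow_le_rpow (by linarith) (by linarith) hi.le
    have h3 : r ^ i ≤ r' ^ i := Real.rpow_le_rpow hr.le hrr hi.le
    rw [abs_of_nonpos (by linarith), abs_of_nonpos (by linarith)]
    linarith

lemma contr (h : Param i δ) {r r' : ℝ} (hr : 0 < r) (hr1 : r ≤ 1) (hr' : 0 < r')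
    (hr1' : r' ≤ 1) :
    |(r + δ) ^ i - (r' + δ) ^ i| ≤ (1 + δ) ^ (i - 1) * |r ^ i - r' ^ i| := by
  rcases le_total r r' with h1 | h1
  · exact contr_aux h hr h1 hr1'
  · have := contr_aux h hr' h1 hr1
    rwa [abs_sub_comm, abs_sub_comm (r' ^ i)] at this

/-- Lipschitz estimate on `[1, ∞)`. -/
lemma lip_aux (h : Param i δ) {a b : ℝ} (ha : 1 ≤ a) (hab : a ≤ b) :
    |b ^ i - a ^ i| ≤ |i| * (b - a) := by
  have hi1 := h.lt_one
  have hder : ∀ x ∈ Icc a b, HasDerivWithinAt (fun x : ℝ => x ^ i) (i * x ^ (i - 1))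
      (Icc a b) x := by
    intro x hx
    have hx0 : 0 < x := by linarith [hx.1]
    exact (Real.hasDerivAt_rpow_const (Or.inl hx0.ne')).hasDerivWithinAt
  have hb : ∀ x ∈ Icc a b, ‖i * x ^ (i - 1)‖ ≤ |i| := by
    intro x hx
    have hx1 : 1 ≤ x := by linarith [hx.1]
    rw [norm_mul, Real.norm_eq_abs, Real.norm_eq_abs]
    have h1 : x ^ (i - 1) ≤ 1 := Real.rpow_le_one_of_one_le_of_nonpos hx1 (by linarith)
    have h2 : 0 < x ^ (i - 1) := Real.rpow_pos_of_pos (by linarith) _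
    rw [abs_of_pos h2]
    exact mul_le_of_le_one_right (abs_nonneg i) h1
  have := (convex_Icc a b).norm_image_sub_le_of_norm_hasDerivWithin_le hder hb
    (left_mem_Icc.2 hab) (right_mem_Icc.2 hab)
  rw [Real.norm_eq_abs, Real.norm_eq_abs, abs_of_nonneg (by linarith : 0 ≤ b - a)] at this
  exact this

/-- abstract lemma: perturbed contraction tends to zero. -/
lemma tendsto_of_contraction {e η : ℝ → ℝ} {κ C : ℝ} (hκ0 : 0 ≤ κ) (hκ : κ < 1)
    (he0 : ∀ x, 0 ≤ x → 0 ≤ e x) (heC : ∀ x, 0 ≤ x → e x ≤ C)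
    (hrec : ∀ x, 0 ≤ x → e (x + 1) ≤ κ * e x + η x)
    (hη : Tendsto η atTop (𝓝 0)) : Tendsto e atTop (𝓝 0) := by
  rw [Metric.tendsto_atTop]
  intro ε hε
  have hC : 0 ≤ C := (he0 0 le_rfl).trans (heC 0 le_rfl)
  obtain ⟨N, hN⟩ : ∃ N : ℕ, κ ^ N * C < ε / 2 := by
    have : Tendsto (fun n : ℕ => κ ^ n * C) atTop (𝓝 (0 * C)) :=
      (tendsto_pow_atTop_nhds_zero_of_lt_one hκ0 hκ).mul_const C
    rw [zero_mul] at this
    exact ((tendsto_order.1 this).2 _ (half_pos hε)).exists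
  have hη' : ∀ᶠ x in atTop, η x < ε / 2 * (1 - κ) :=
    (tendsto_order.1 hη).2 _ (mul_pos (half_pos hε) (by linarith))
  obtain ⟨X, hX⟩ := eventually_atTop.1 hη'
  have key : ∀ (n : ℕ) (x : ℝ), 0 ≤ x → X ≤ x → e (x + n) ≤ κ ^ n * C + ε / 2 := by
    intro n
    induction n with
    | zero =>
      intro x hx _
      have := heC x hx
      simp
      linarith
    | succ n ih =>
      intro x hx hX1
      have h1 := hrec (x + n) (by positivity)
      have h2 := ih x hx hX1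
      have h3 := hX (x + n) (by have : (0 : ℝ) ≤ n := Nat.cast_nonneg n; linarith)
      have h4 : κ * e (x + n) ≤ κ * (κ ^ n * C + ε / 2) := mul_le_mul_of_nonneg_left h2 hκ0
      have e1 : x + ((n + 1 : ℕ) : ℝ) = x + n + 1 := by push_cast; ring
      rw [e1]
      calc e (x + n + 1) ≤ κ * e (x + n) + η (x + n) := h1
        _ ≤ κ * (κ ^ n * C + ε / 2) + ε / 2 * (1 - κ) := by linarith
        _ = κ ^ (n + 1) * C + ε / 2 := by ring
  refine ⟨max X 0 + N, fun y hy => ?_⟩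
  have hy' : max X 0 ≤ y - N := by linarith
  have h0 : 0 ≤ y - N := (le_max_right _ _).trans hy'
  have h1 : X ≤ y - N := (le_max_left _ _).trans hy'
  have h2 := key N (y - N) h0 h1
  have h3 : y - N + N = y := by ring
  rw [h3] at h2
  have h4 : 0 ≤ e y := he0 y (h0.trans (by have : (0 : ℝ) ≤ N := Nat.cast_nonneg N; linarith))
  rw [Real.dist_eq, sub_zero, abs_of_nonneg h4]
  linarith

lemma tau_tendsto (h : Param i δ) : Tendsto (tau i δ) atTop atTop :=
  (tau_strictMono h).monotone.tendsto_atTop_atTop fun b => by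
    obtain ⟨x, hx⟩ := tau_surj h b
    exact ⟨x, hx.ge⟩

lemma rho_tendsto (h : Param i δ) {r : ℝ} (hr0 : 0 < r) (hr1 : r ≤ 1)
    (hr : r ^ i + (r + δ) ^ i = 2) :
    Tendsto (fun x => yy i δ x * √(1 + (tau i δ x) ^ 2)) atTop (𝓝 r) := by
  have hδ := h.hδ
  have hi0 := h.hi0
  set R : ℝ → ℝ := fun x => yy i δ x * √(1 + (tau i δ x) ^ 2) with hR
  have hRpos : ∀ x, 0 < R x := fun x =>
    mul_pos (yy_pos h x) (Real.sqrt_pos.2 (one_add_sq_pos _))
  have hκ : (1 + δ) ^ (i - 1) < 1 := by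
    apply Real.rpow_lt_one_of_one_lt_of_neg (by linarith)
    linarith [h.lt_one]
  have hRi : Tendsto (fun x => |R x ^ i - r ^ i|) atTop (𝓝 0) := by
    apply tendsto_of_contraction (κ := (1 + δ) ^ (i - 1)) (C := 2)
      (η := fun x => |i| * (δ / (1 + tau i δ x))) (by positivity) hκ
    · intro x _
      exact abs_nonneg _
    · intro x hx
      have h1 := funeq_nonneg h hx
      have h2 : 0 < R x ^ i := Real.rpow_pos_of_pos (hRpos x) i
      have h3 : 0 < (yy i δ (x - 1) * √(1 + (tau i δ x) ^ 2)) ^ i :=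
        Real.rpow_pos_of_pos (mul_pos (yy_pos h _) (Real.sqrt_pos.2 (one_add_sq_pos _))) i
      have h4 : 0 < r ^ i := Real.rpow_pos_of_pos hr0 i
      have h5 : 0 < (r + δ) ^ i := Real.rpow_pos_of_pos (by linarith) i
      rw [abs_le]
      constructor <;> simp only [hR] at h2 ⊢ <;> linarith
    · intro x hx
      obtain ⟨b1, b2, b3, b4, b5, b6⟩ := bounds h hx
      have f1 := funeq_nonneg h (x := x + 1) (by linarith)
      rw [add_sub_cancel_right] at f1
      set P := yy i δ x * √(1 + (tau i δ (x + 1)) ^ 2) with hP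
      have hlaw := sqrt_law b5 b1 hδ
      rw [← b6] at hlaw
      have hRP : P ≤ R x + δ := hlaw.2
      -- squares
      have hS : √(1 + (tau i δ x) ^ 2) ^ 2 = 1 + (tau i δ x) ^ 2 :=
        Real.sq_sqrt (one_add_sq_pos _).le
      have hS' : √(1 + (tau i δ (x + 1)) ^ 2) ^ 2 = 1 + (tau i δ (x + 1)) ^ 2 :=
        Real.sq_sqrt (one_add_sq_pos _).le
      have hPsq : P ^ 2 = R x ^ 2 + 2 * δ * (yy i δ x * tau i δ x) + δ ^ 2 := by
        simp only [hP, hR]
        rw [mul_pow, mul_pow, hS, hS', b6]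
        have := b1.ne'
        field_simp
        ring
      have hT : R x - yy i δ x * tau i δ x ≤ 1 / (1 + tau i δ x) := by
        have hSge : tau i δ x ≤ √(1 + (tau i δ x) ^ 2) := Real.le_sqrt_of_sq_le (by linarith)
        have hS1 : 1 ≤ √(1 + (tau i δ x) ^ 2) := by
          rw [Real.one_le_sqrt]
          nlinarith [sq_nonneg (tau i δ x)]
        have hdiff : √(1 + (tau i δ x) ^ 2) - tau i δ x ≤ 1 / (1 + tau i δ x) := by
          rw [le_div_iff₀ (by linarith)]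
          have : (√(1 + (tau i δ x) ^ 2) - tau i δ x) * (√(1 + (tau i δ x) ^ 2) + tau i δ x) = 1 := by
            ring_nf
            rw [hS]
            ring
          calc (√(1 + (tau i δ x) ^ 2) - tau i δ x) * (1 + tau i δ x)
              ≤ (√(1 + (tau i δ x) ^ 2) - tau i δ x) *
                (√(1 + (tau i δ x) ^ 2) + tau i δ x) :=
                mul_le_mul_of_nonneg_left (by linarith) (by linarith)
            _ = 1 := this
        calc R x - yy i δ x * tau i δ x = yy i δ x * (√(1 + (tau i δ x) ^ 2) - tau i δ x) := by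
              simp only [hR]; ring
          _ ≤ 1 * (√(1 + (tau i δ x) ^ 2) - tau i δ x) :=
              mul_le_mul_of_nonneg_right b2 (by linarith)
          _ ≤ _ := by rw [one_mul]; exact hdiff
      have hgap : R x + δ - P ≤ δ / (1 + tau i δ x) := by
        have e1 : (R x + δ - P) * (R x + δ + P) = 2 * δ * (R x - yy i δ x * tau i δ x) := by
          nlinarith
        have e2 : 2 ≤ R x + δ + P := by linarith
        have e3 : 0 ≤ R x + δ - P := by linarith
        have e4 : (R x + δ - P) * 2 ≤ 2 * δ * (R x - yy i δ x * tau i δ x) := by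
          rw [← e1]
          exact mul_le_mul_of_nonneg_left e2 e3
        have e5 : δ * (R x - yy i δ x * tau i δ x) ≤ δ * (1 / (1 + tau i δ x)) :=
          mul_le_mul_of_nonneg_left hT hδ.le
        have e6 : δ * (1 / (1 + tau i δ x)) = δ / (1 + tau i δ x) := by ring
        linarith
      have hlip := lip_aux h b4 hRP
      have hlip2 : |i| * (R x + δ - P) ≤ |i| * (δ / (1 + tau i δ x)) :=
        mul_le_mul_of_nonneg_left hgap (abs_nonneg i)
      have hcon := contr h (hRpos x) b3 hr0 hr1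
      have e : R (x + 1) ^ i - r ^ i = ((R x + δ) ^ i - P ^ i) - ((R x + δ) ^ i - (r + δ) ^ i) := by
        have : R (x + 1) ^ i + P ^ i = 2 := f1
        linarith
      calc |R (x + 1) ^ i - r ^ i|
          = |((R x + δ) ^ i - P ^ i) - ((R x + δ) ^ i - (r + δ) ^ i)| := by rw [e]
        _ ≤ |(R x + δ) ^ i - P ^ i| + |(R x + δ) ^ i - (r + δ) ^ i| := abs_sub _ _
        _ ≤ |i| * (δ / (1 + tau i δ x)) + (1 + δ) ^ (i - 1) * |R x ^ i - r ^ i| := by
            linarith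
        _ = _ := by ring
    · have h1 : Tendsto (fun x => 1 + tau i δ x) atTop atTop :=
        tendsto_atTop_add_const_left _ _ (tau_tendsto h)
      have h2 : Tendsto (fun x => δ / (1 + tau i δ x)) atTop (𝓝 0) := h1.const_div_atTop δ
      simpa using h2.const_mul |i|
  have hRi2 : Tendsto (fun x => R x ^ i) atTop (𝓝 (r ^ i)) := by
    rw [tendsto_iff_norm_sub_tendsto_zero]
    exact hRi
  have h4 : 0 < r ^ i := Real.rpow_pos_of_pos hr0 i
  have h5 : Tendsto (fun x => (R x ^ i) ^ (1 / i)) atTop (𝓝 ((r ^ i) ^ (1 / i))) :=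
    hRi2.rpow_const (Or.inl h4.ne')
  have e1 : ∀ z : ℝ, 0 < z → (z ^ i) ^ (1 / i) = z := by
    intro z hz
    rw [← Real.rpow_mul hz.le, mul_one_div_cancel hi0, Real.rpow_one]
  rw [e1 r hr0] at h5
  refine h5.congr fun x => ?_
  exact e1 _ (hRpos x)

/-- The analytic core of the construction. -/
theorem core {i : ℝ} (hi0 : i ≠ 0) (hi1 : i < 1) :
    ∃ δ : ℝ, 0 < δ ∧ ∃ τ : ℝ → ℝ, StrictMono τ ∧ Function.Surjective τ ∧
      (∀ x, τ (-x) = -τ x) ∧
      (∀ x, (δ / (τ (x + 1) - τ x) * √(1 + τ x ^ 2)) ^ i +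
        (δ / (τ x - τ (x - 1)) * √(1 + τ x ^ 2)) ^ i = 2) ∧
      ∃ r : ℝ, 0 < r ∧ r ^ i + (r + δ) ^ i = 2 ∧
        Tendsto (fun x => δ / (τ (x + 1) - τ x) * √(1 + τ x ^ 2)) atTop (𝓝 r) := by
  obtain ⟨δ, h⟩ : ∃ δ, Param i δ := by
    refine ⟨min (1 / 2) ((1 - i) / 2), hi0, ?_, min_le_left _ _, ?_⟩
    · exact lt_min (by norm_num) (by linarith)
    · have := min_le_right (1 / 2 : ℝ) ((1 - i) / 2)
      linarith
  obtain ⟨r, hr0, hr1, hr⟩ := exists_r h
  refine ⟨δ, h.hδ, tau i δ, tau_strictMono h, tau_surj h, tau_neg, ?_, r, hr0, hr, ?_⟩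
  · intro x
    have h1 := funeq h x
    have h2 : yy i δ (x - 1) = δ / (tau i δ x - tau i δ (x - 1)) := by
      unfold yy
      rw [sub_add_cancel]
    rw [h2] at h1
    exact h1
  · exact rho_tendsto h hr0 hr1 hr

end Pool.Agent.helper63.Equi
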