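import Mathlib
import Pool.Agent.helper63.EquiTau
import Pool.Agent.helper63.EquiStar

/-! From `τ` to the profile function and the body. -/

namespace Pool.Agent.helper63.Equi

open Set Filter Topology Metric

/-- The output of the analytic part in convenient form. -/
structure Data (i δ r : ℝ) (τ σ : ℝ → ℝ) : Prop where
  hi0 : i ≠ 0
  hδ : 0 < δ
  mono : StrictMono τ
  cont : Continuous τ
  contσ : Continuous σ
  monoσ : StrictMono σ
  τσ : ∀ t, τ (σ t) = t
  στ : ∀ x, σ (τ x) = x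
  odd : ∀ x, τ (-x) = -τ x
  feq : ∀ x, (δ / (τ (x + 1) - τ x) * √(1 + τ x ^ 2)) ^ i +
        (δ / (τ x - τ (x - 1)) * √(1 + τ x ^ 2)) ^ i = 2
  hr : 0 < r
  hrδ : r ^ i + (r + δ) ^ i = 2
  lim : Tendsto (fun x => δ / (τ (x + 1) - τ x) * √(1 + τ x ^ 2)) atTop (𝓝 r)

theorem exists_data {i : ℝ} (hi0 : i ≠ 0) (hi1 : i < 1) :
    ∃ δ r : ℝ, ∃ τ σ : ℝ → ℝ, Data i δ r τ σ := by
  obtain ⟨δ, hδ, τ, hm, hs, hodd, hf, r, hr, hr2, hl⟩ := core hi0 hi1
  let o : ℝ ≃o ℝ := hm.orderIsoOfSurjective τ hs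
  have ho : ∀ x, o x = τ x := fun x => rfl
  refine ⟨δ, r, τ, o.symm, hi0, hδ, hm, ?_, o.symm.continuous, o.symm.strictMono, ?_, ?_, hodd,
    hf, hr, hr2, hl⟩
  · exact o.continuous
  · intro t
    rw [← ho]
    exact o.apply_symm_apply t
  · intro x
    rw [← ho]
    exact o.symm_apply_apply x

variable {i δ r : ℝ} {τ σ : ℝ → ℝ}

/-- radial function along the curve. -/
noncomputable def RR (δ : ℝ) (τ : ℝ → ℝ) (x : ℝ) : ℝ :=
  δ / (τ (x + 1) - τ x) * √(1 + τ x ^ 2)

/-- the profile function. -/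
noncomputable def FF (δ r : ℝ) (τ σ : ℝ → ℝ) (T : ℝ) : ℝ :=
  if 1 ≤ T then r else if T ≤ -1 then r + δ else RR δ τ (σ (T / √(1 - T ^ 2)))

lemma Data.RR_pos (h : Data i δ r τ σ) (x : ℝ) : 0 < RR δ τ x := by
  unfold RR
  apply mul_pos _ (Real.sqrt_pos.2 (one_add_sq_pos _))
  apply div_pos h.hδ
  have := h.mono (show x < x + 1 by linarith)
  linarith

lemma Data.FF_pos (h : Data i δ r τ σ) (T : ℝ) : 0 < FF δ r τ σ T := by
  unfold FF
  have := h.hr
  have := h.hδ
  split_ifs
  · assumption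
  · linarith
  · exact h.RR_pos _

lemma Data.RR_neg (h : Data i δ r τ σ) (x : ℝ) :
    RR δ τ (-x) = δ / (τ x - τ (x - 1)) * √(1 + τ x ^ 2) := by
  unfold RR
  have e : -x + 1 = -(x - 1) := by ring
  rw [e, h.odd, h.odd, neg_sq]
  congr 2
  ring

lemma Data.RR_eq (h : Data i δ r τ σ) (x : ℝ) : RR δ τ x ^ i + RR δ τ (-x) ^ i = 2 := by
  rw [h.RR_neg]
  exact h.feq x

lemma Data.σ_neg (h : Data i δ r τ σ) (t : ℝ) : σ (-t) = -σ t := by
  have h1 : τ (-σ t) = -t := by rw [h.odd, h.τσ]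
  rw [← h1, h.στ]

lemma Data.FF_eq (h : Data i δ r τ σ) (T : ℝ) :
    FF δ r τ σ T ^ i + FF δ r τ σ (-T) ^ i = 2 := by
  unfold FF
  rcases le_or_gt 1 T with h1 | h1
  · rw [if_pos h1, if_neg (by linarith), if_pos (by linarith)]
    exact h.hrδ
  · rcases le_or_gt T (-1) with h2 | h2
    · rw [if_neg (by linarith), if_pos h2, if_pos (by linarith), add_comm]
      exact h.hrδ
    · rw [if_neg (by linarith), if_neg (by linarith), if_neg (by linarith),
        if_neg (by linarith), neg_sq, neg_div, h.σ_neg]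
      exact h.RR_eq _

lemma Data.RR_cont (h : Data i δ r τ σ) : Continuous (RR δ τ) := by
  unfold RR
  apply Continuous.mul
  · apply continuous_const.div
    · exact (h.cont.comp (continuous_id.add continuous_const)).sub h.cont
    · intro x
      have := h.mono (show x < x + 1 by linarith)
      linarith
  · exact Real.continuous_sqrt.comp (continuous_const.add (h.cont.pow 2))

lemma one_sub_sq_pos {T : ℝ} (h1 : -1 < T) (h2 : T < 1) : 0 < 1 - T ^ 2 := by nlinarith

lemma tendsto_phi : Tendsto (fun T : ℝ => T / √(1 - T ^ 2)) (𝓝[<] 1) atTop := by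
  have h1 : Tendsto (fun T : ℝ => √(1 - T ^ 2)) (𝓝[<] 1) (𝓝[>] 0) := by
    rw [tendsto_nhdsWithin_iff]
    constructor
    · have : Continuous (fun T : ℝ => √(1 - T ^ 2)) :=
        Real.continuous_sqrt.comp (continuous_const.sub (continuous_id.pow 2))
      have h2 := this.tendsto 1
      simp only [one_pow, sub_self, Real.sqrt_zero] at h2
      exact h2.mono_left nhdsWithin_le_nhds
    · have h3 : ∀ᶠ T : ℝ in 𝓝[<] (1 : ℝ), 0 < T :=
        mem_nhdsWithin_of_mem_nhds (Ioi_mem_nhds (zero_lt_one' ℝ))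
      filter_upwards [h3, self_mem_nhdsWithin] with T hT0 hT1
      exact Real.sqrt_pos.2 (one_sub_sq_pos (by linarith) hT1)
  have h2 : Tendsto (fun T : ℝ => (√(1 - T ^ 2))⁻¹) (𝓝[<] 1) atTop :=
    tendsto_inv_nhdsGT_zero.comp h1
  have h3 : Tendsto (fun T : ℝ => T) (𝓝[<] 1) (𝓝 1) := nhdsWithin_le_nhds
  exact h3.pos_mul_atTop one_pos h2

lemma Data.σ_tendsto (h : Data i δ r τ σ) : Tendsto σ atTop atTop :=
  h.monoσ.monotone.tendsto_atTop_atTop fun b => ⟨τ b, (h.στ b).ge⟩

lemma Data.FF_contWithin_one (h : Data i δ r τ σ) :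
    ContinuousWithinAt (FF δ r τ σ) (Icc (-1) 1) 1 := by
  have h1 : FF δ r τ σ 1 = r := by
    unfold FF
    rw [if_pos le_rfl]
  have h2 : ContinuousWithinAt (FF δ r τ σ) (Iio 1) 1 := by
    unfold ContinuousWithinAt
    rw [h1]
    have h3 : Tendsto (fun T : ℝ => RR δ τ (σ (T / √(1 - T ^ 2)))) (𝓝[<] 1) (𝓝 r) :=
      (h.lim.comp h.σ_tendsto).comp tendsto_phi
    refine h3.congr' ?_
    have h4 : ∀ᶠ T : ℝ in 𝓝[<] (1 : ℝ), 0 < T :=
      mem_nhdsWithin_of_mem_nhds (Ioi_mem_nhds (zero_lt_one' ℝ))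
    filter_upwards [h4, self_mem_nhdsWithin] with T hT0 hT1
    have hT1' : T < 1 := hT1
    unfold FF
    rw [if_neg (by linarith), if_neg (by linarith)]
  have h3 : ContinuousWithinAt (FF δ r τ σ) (Iic 1) 1 :=
    continuousWithinAt_Iio_iff_Iic.1 h2
  exact h3.mono Icc_subset_Iic_self

lemma Data.FF_cont (h : Data i δ r τ σ) : ContinuousOn (FF δ r τ σ) (Icc (-1) 1) := by
  intro T hT
  rcases hT.2.lt_or_eq with h1 | h1
  · rcases hT.1.lt_or_eq with h2 | h2
    · apply ContinuousAt.continuousWithinAt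
      have h3 : ContinuousAt (fun T : ℝ => RR δ τ (σ (T / √(1 - T ^ 2)))) T := by
        apply (h.RR_cont.comp h.contσ).continuousAt.comp
        apply continuousAt_id.div
        · exact (Real.continuous_sqrt.comp
            (continuous_const.sub (continuous_id.pow 2))).continuousAt
        · exact (Real.sqrt_pos.2 (one_sub_sq_pos h2 h1)).ne'
      refine h3.congr ?_
      filter_upwards [Ioo_mem_nhds h2 h1] with x hx
      unfold FF
      rw [if_neg (by linarith [hx.2]), if_neg (by linarith [hx.1])]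
    · subst h2
      have h4 : ∀ T, FF δ r τ σ T = (2 - FF δ r τ σ (-T) ^ i) ^ (1 / i) := by
        intro T
        have := h.FF_eq T
        have h5 : 2 - FF δ r τ σ (-T) ^ i = FF δ r τ σ T ^ i := by linarith
        rw [h5, ← Real.rpow_mul (h.FF_pos T).le, mul_one_div_cancel h.hi0, Real.rpow_one]
      have h6 : FF δ r τ σ = fun T => (2 - FF δ r τ σ (-T) ^ i) ^ (1 / i) := funext h4
      rw [h6]
      have h7 : ContinuousWithinAt (fun T => FF δ r τ σ (-T)) (Icc (-1) 1) (-1) := by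
        have h8 : ContinuousWithinAt (FF δ r τ σ) (Icc (-1) 1) (-(-1)) := by
          rw [neg_neg]
          exact h.FF_contWithin_one
        apply h8.comp continuous_neg.continuousWithinAt
        intro x hx
        exact ⟨by linarith [hx.2], by linarith [hx.1]⟩
      apply ContinuousWithinAt.rpow_const
      · apply continuousWithinAt_const.sub
        exact h7.rpow_const (Or.inl (h.FF_pos _).ne')
      · left
        have := h.FF_eq (-1)
        have h9 := Real.rpow_pos_of_pos (h.FF_pos (-1)) i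
        have : 0 < 2 - FF δ r τ σ (-(-1)) ^ i := by linarith
        exact this.ne'
  · subst h1
    exact h.FF_contWithin_one

/-- membership, off the axis. -/
lemma Data.mem_off (h : Data i δ r τ σ) {s b : ℝ} (hs : 0 < s) (hbs : b ^ 2 < s ^ 2) :
    s ≤ FF δ r τ σ (b / s) ↔
      τ (σ (b / √(s ^ 2 - b ^ 2)) + 1) ≤ b / √(s ^ 2 - b ^ 2) + δ / √(s ^ 2 - b ^ 2) := by
  set η := √(s ^ 2 - b ^ 2) with hη
  have hη0 : 0 < η := Real.sqrt_pos.2 (by linarith)
  have hηη : η ^ 2 = s ^ 2 - b ^ 2 := Real.sq_sqrt (by linarith)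
  have hb := abs_lt_of_sq_lt_sq' hbs hs.le
  have hT1 : b / s < 1 := by rw [div_lt_one hs]; exact hb.2
  have hT2 : -1 < b / s := by rw [lt_div_iff₀ hs]; linarith [hb.1]
  have hsq : √(1 - (b / s) ^ 2) = η / s := by
    have : 1 - (b / s) ^ 2 = (η / s) ^ 2 := by
      field_simp
      linarith
    rw [this, Real.sqrt_sq (by positivity)]
  have hF : FF δ r τ σ (b / s) = RR δ τ (σ (b / η)) := by
    unfold FF
    rw [if_neg (by linarith), if_neg (by linarith), hsq]
    congr 2
    field_simp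
  rw [hF]
  unfold RR
  rw [h.τσ]
  have hS : √(1 + (b / η) ^ 2) = s / η := by
    have : 1 + (b / η) ^ 2 = (s / η) ^ 2 := by
      field_simp
      linarith
    rw [this, Real.sqrt_sq (by positivity)]
  rw [hS]
  set D := τ (σ (b / η) + 1) - b / η with hD
  have hD0 : 0 < D := by
    have := h.mono (show σ (b / η) < σ (b / η) + 1 by linarith)
    rw [h.τσ] at this
    linarith
  have e1 : (s ≤ δ / D * (s / η)) ↔ D ≤ δ / η := by
    rw [div_mul_div_comm, le_div_iff₀ (by positivity), le_div_iff₀ hη0]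
    constructor
    · intro h
      have : s * (D * η) ≤ s * δ := by linarith
      exact le_of_mul_le_mul_left this hs
    · intro h
      have := mul_le_mul_of_nonneg_left h hs.le
      linarith
  rw [e1, hD]
  constructor <;> intro h <;> linarith

/-- the two descriptions of membership agree. -/
lemma Data.mem_iff (h : Data i δ r τ σ) {s s' b : ℝ} (hs : 0 ≤ s) (hs' : 0 ≤ s')
    (hbs : b ^ 2 ≤ s ^ 2) (hss' : s' ^ 2 = s ^ 2 + 2 * δ * b + δ ^ 2) :
    (s = 0 ∨ s ≤ FF δ r τ σ (b / s)) ↔ (s' = 0 ∨ s' ≤ FF δ r τ σ (-((b + δ) / s'))) := by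
  have hδ := h.hδ
  have hr := h.hr
  rcases hbs.lt_or_eq with hlt | heq
  · have hs0 : 0 < s := by
      rcases hs.lt_or_eq with h1 | h1
      · exact h1
      · rw [← h1] at hlt
        nlinarith
    have hs'2 : (b + δ) ^ 2 < s' ^ 2 := by rw [hss']; nlinarith
    have hs'0 : 0 < s' := by
      rcases hs'.lt_or_eq with h1 | h1
      · exact h1
      · rw [← h1] at hs'2
        nlinarith
    have e1 := h.mem_off hs0 hlt
    have e2 := h.mem_off (b := -(b + δ)) hs'0 (by rw [neg_sq]; exact hs'2)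
    have hη : s' ^ 2 - (-(b + δ)) ^ 2 = s ^ 2 - b ^ 2 := by rw [hss']; ring
    rw [hη] at e2
    set η := √(s ^ 2 - b ^ 2) with hηdef
    have k1 : (s = 0 ∨ s ≤ FF δ r τ σ (b / s)) ↔ s ≤ FF δ r τ σ (b / s) :=
      or_iff_right hs0.ne'
    have k2 : (s' = 0 ∨ s' ≤ FF δ r τ σ (-((b + δ) / s'))) ↔
        s' ≤ FF δ r τ σ (-(b + δ) / s') := by
      rw [or_iff_right hs'0.ne', neg_div]
    rw [k1, k2, e1, e2]
    have h1 : b / η + δ / η = (b + δ) / η := by ring
    have h2 : -(b + δ) / η + δ / η = -(b / η) := by ring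
    have h3 : -(b + δ) / η = -((b + δ) / η) := by ring
    rw [h1, h2, h3, h.σ_neg]
    have h4 : τ (σ (b / η) + 1) ≤ (b + δ) / η ↔ σ (b / η) + 1 ≤ σ ((b + δ) / η) := by
      conv_lhs => rw [← h.τσ ((b + δ) / η)]
      exact h.mono.le_iff_le
    have h5 : τ (-σ ((b + δ) / η) + 1) ≤ -(b / η) ↔ -σ ((b + δ) / η) + 1 ≤ -σ (b / η) := by
      conv_lhs => rw [← h.τσ (b / η), ← h.odd]
      exact h.mono.le_iff_le
    rw [h4, h5]
    constructor <;> intro h <;> linarith
  · -- on the axis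
    have hF1 : ∀ T, 1 ≤ T → FF δ r τ σ T = r := fun T hT => by
      unfold FF; rw [if_pos hT]
    have hF2 : ∀ T, T ≤ -1 → FF δ r τ σ T = r + δ := fun T hT => by
      unfold FF; rw [if_neg (by linarith), if_pos hT]
    have hsb : s = |b| := by
      rw [← abs_of_nonneg hs]
      exact (sq_eq_sq_iff_abs_eq_abs _ _).1 heq.symm
    have hs'b : s' = |b + δ| := by
      rw [← abs_of_nonneg hs']
      apply (sq_eq_sq_iff_abs_eq_abs _ _).1
      rw [hss', ← heq]
      ring
    have l1 : (s = 0 ∨ s ≤ FF δ r τ σ (b / s)) ↔ (-(r + δ) ≤ b ∧ b ≤ r) := by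
      rcases lt_trichotomy b 0 with hb | hb | hb
      · rw [abs_of_neg hb] at hsb
        have : b / s = -1 := by rw [hsb, div_neg, div_self hb.ne]
        rw [this, hF2 _ le_rfl, hsb]
        constructor
        · rintro (h1 | h1)
          · linarith
          · constructor <;> linarith
        · rintro ⟨h1, _⟩
          right; linarith
      · rw [hb, abs_zero] at hsb
        rw [hsb, hb]
        constructor
        · intro _
          constructor <;> linarith
        · intro _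
          exact Or.inl rfl
      · rw [abs_of_pos hb] at hsb
        have : b / s = 1 := by rw [hsb, div_self hb.ne']
        rw [this, hF1 _ le_rfl, hsb]
        constructor
        · rintro (h1 | h1)
          · linarith
          · constructor <;> linarith
        · rintro ⟨_, h1⟩
          right; linarith
    have l2 : (s' = 0 ∨ s' ≤ FF δ r τ σ (-((b + δ) / s'))) ↔ (-(r + δ) ≤ b ∧ b ≤ r) := by
      rcases lt_trichotomy (b + δ) 0 with hb | hb | hb
      · rw [abs_of_neg hb] at hs'b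
        have : (b + δ) / s' = -1 := by rw [hs'b, div_neg, div_self hb.ne]
        rw [this, neg_neg, hF1 _ le_rfl, hs'b]
        constructor
        · rintro (h1 | h1)
          · linarith
          · constructor <;> linarith
        · rintro ⟨h1, _⟩
          right; linarith
      · rw [hb, abs_zero] at hs'b
        rw [hs'b]
        constructor
        · intro _
          constructor <;> linarith
        · intro _
          exact Or.inl rfl
      · rw [abs_of_pos hb] at hs'b
        have : (b + δ) / s' = 1 := by rw [hs'b, div_self hb.ne']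
        rw [this, hF2 _ le_rfl, hs'b]
        constructor
        · rintro (h1 | h1)
          · linarith
          · constructor <;> linarith
        · rintro ⟨_, h1⟩
          right; linarith
    rw [l1, l2]

section inner

variable {E : Type*} [NormedAddCommGroup E] [InnerProductSpace ℝ E]

open scoped InnerProductSpace

/-- The two star sets, at foci `q` and `p = q - δ e`, coincide. -/
lemma Data.star_iff (h : Data i δ r τ σ) {e : E} (he : ‖e‖ = 1) (z : E) :
    z ∈ starSet (fun u : E => FF δ r τ σ ⟪e, u⟫_ℝ) ↔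
      z + δ • e ∈ starSet (fun u : E => FF δ r τ σ (-⟪e, u⟫_ℝ)) := by
  have hee : ⟪e, e⟫_ℝ = 1 := by rw [real_inner_self_eq_norm_sq, he, one_pow]
  have hin : ⟪e, z + δ • e⟫_ℝ = ⟪e, z⟫_ℝ + δ := by
    rw [inner_add_right, inner_smul_right, hee, mul_one]
  have hnorm : ‖z + δ • e‖ ^ 2 = ‖z‖ ^ 2 + 2 * δ * ⟪e, z⟫_ℝ + δ ^ 2 := by
    rw [norm_add_sq_real, inner_smul_right, norm_smul, he, mul_one, Real.norm_eq_abs, sq_abs,
      real_inner_comm]
    ring
  have hcs : ⟪e, z⟫_ℝ ^ 2 ≤ ‖z‖ ^ 2 := by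
    have := abs_real_inner_le_norm e z
    rw [he, one_mul] at this
    exact sq_le_sq' (by linarith [neg_abs_le ⟪e, z⟫_ℝ]) ((le_abs_self _).trans this)
  have key := h.mem_iff (norm_nonneg z) (norm_nonneg (z + δ • e)) hcs hnorm
  have a1 : z ∈ starSet (fun u : E => FF δ r τ σ ⟪e, u⟫_ℝ) ↔
      (‖z‖ = 0 ∨ ‖z‖ ≤ FF δ r τ σ (⟪e, z⟫_ℝ / ‖z‖)) := by
    unfold starSet
    simp only [mem_ofPred_eq, norm_eq_zero, inner_smul_right]
    rw [div_eq_inv_mul]
  have a2 : z + δ • e ∈ starSet (fun u : E => FF δ r τ σ (-⟪e, u⟫_ℝ)) ↔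
      (‖z + δ • e‖ = 0 ∨ ‖z + δ • e‖ ≤
        FF δ r τ σ (-((⟪e, z⟫_ℝ + δ) / ‖z + δ • e‖))) := by
    unfold starSet
    simp only [mem_ofPred_eq, norm_eq_zero, inner_smul_right]
    rw [div_eq_inv_mul, hin]
  rw [a1, a2]
  exact key

lemma Data.cont_q (h : Data i δ r τ σ) {e : E} (he : ‖e‖ = 1) :
    ContinuousOn (fun u : E => FF δ r τ σ ⟪e, u⟫_ℝ) (sphere 0 1) := by
  apply h.FF_cont.comp (continuous_const.inner continuous_id).continuousOn
  intro u hu
  have hu' : ‖u‖ = 1 := by simpa using hu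
  have := abs_real_inner_le_norm e u
  rw [he, hu', one_mul] at this
  exact abs_le.1 this

lemma Data.cont_p (h : Data i δ r τ σ) {e : E} (he : ‖e‖ = 1) :
    ContinuousOn (fun u : E => FF δ r τ σ (-⟪e, u⟫_ℝ)) (sphere 0 1) := by
  apply h.FF_cont.comp (continuous_const.inner continuous_id).neg.continuousOn
  intro u hu
  have hu' : ‖u‖ = 1 := by simpa using hu
  have := abs_real_inner_le_norm e u
  rw [he, hu', one_mul] at this
  have := abs_le.1 this
  show -⟪e, u⟫_ℝ ∈ Icc (-1 : ℝ) 1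
  exact ⟨by linarith [this.2], by linarith [this.1]⟩

end inner

end Pool.Agent.helper63.Equi
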