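import Mathlib

set_option autoImplicit false

open Set Metric Filter Topology

namespace Pool.Helper63.ZFix

/-- A continuous nonnegative function on a compact space whose zero set lies in an open set `O`
is bounded away from zero off `O`. -/
theorem exists_eps {X : Type*} [TopologicalSpace X] [CompactSpace X] (φ : X → ℝ)
    (hφ : Continuous φ) (h0 : ∀ x, 0 ≤ φ x) (O : Set X) (hO : IsOpen O)
    (hz : ∀ x, φ x = 0 → x ∈ O) : ∃ ε > 0, ∀ x, φ x ≤ ε → x ∈ O := by
  have hK : IsCompact Oᶜ := hO.isClosed_compl.isCompact
  rcases Set.eq_empty_or_nonempty Oᶜ with he | hne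
  · refine ⟨1, one_pos, fun x _ => ?_⟩
    by_contra hx
    have : x ∈ Oᶜ := hx
    rw [he] at this
    exact this.elim
  · obtain ⟨x0, hx0, hmin⟩ := hK.exists_isMinOn hne hφ.continuousOn
    have hpos : 0 < φ x0 := by
      rcases (h0 x0).lt_or_eq with h | h
      · exact h
      · exact absurd (hz x0 h.symm) hx0
    refine ⟨φ x0 / 2, by positivity, fun x hx => ?_⟩
    by_contra hxO
    have := hmin (show x ∈ Oᶜ from hxO)
    simp only [mem_ofPred_eq] at this
    linarith

section kernel

variable {X : Type*} [MetricSpace X] [CompactSpace X]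

/-- Auxiliary kernel used to dominate all parameters `μ` with `x ∈ h_μ(X)`. -/
noncomputable def ker (A : Set X) (h : X × ℝ → X) (x : X) (p : X × unitInterval) : ℝ :=
  (p.2 : ℝ) * infDist x A / (infDist x A + dist x (h (p.1, (p.2 : ℝ))))

omit [CompactSpace X] in
theorem ker_nonneg (A : Set X) (h : X × ℝ → X) (x : X) (p : X × unitInterval) :
    0 ≤ ker A h x p := by
  unfold ker
  have := p.2.2.1
  have := infDist_nonneg (x := x) (s := A)
  positivity

omit [CompactSpace X] in
theorem ker_le (A : Set X) (h : X × ℝ → X) (x : X) (p : X × unitInterval) :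
    ker A h x p ≤ p.2 := by
  unfold ker
  have h1 := p.2.2.1
  have h2 := infDist_nonneg (x := x) (s := A)
  apply div_le_of_le_mul₀ (by positivity) h1
  have : 0 ≤ dist x (h (p.1, (p.2 : ℝ))) := dist_nonneg
  nlinarith [mul_nonneg h1 this]

omit [CompactSpace X] in
theorem ker_continuous (A : Set X) (hA : IsClosed A) (hne : A.Nonempty) (h : X × ℝ → X)
    (hh : Continuous h) (h1 : ∀ x t, 0 < t → h (x, t) ∉ A) :
    Continuous (fun q : X × (X × unitInterval) => ker A h q.1 q.2) := by
  rw [continuous_iff_continuousAt]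
  rintro ⟨x, y, μ⟩
  have cden : Continuous (fun q : X × (X × unitInterval) =>
      infDist q.1 A + dist q.1 (h (q.2.1, (q.2.2 : ℝ)))) := by
    refine ((continuous_infDist_pt A).comp continuous_fst).add ?_
    refine continuous_fst.dist (hh.comp ?_)
    fun_prop
  have cnum : Continuous (fun q : X × (X × unitInterval) =>
      ((q.2.2 : ℝ)) * infDist q.1 A) := by
    refine Continuous.mul (by fun_prop) ((continuous_infDist_pt A).comp continuous_fst)
  by_cases hD : infDist x A + dist x (h (y, (μ : ℝ))) = 0
  · have i1 := infDist_nonneg (x := x) (s := A)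
    have i2 : 0 ≤ dist x (h (y, (μ : ℝ))) := dist_nonneg
    have e1 : infDist x A = 0 := by linarith
    have e2 : dist x (h (y, (μ : ℝ))) = 0 := by linarith
    have hxA : x ∈ A := (hA.mem_iff_infDist_zero hne).2 e1
    have hxe : x = h (y, (μ : ℝ)) := dist_eq_zero.1 e2
    have hμ : (μ : ℝ) = 0 := by
      rcases μ.2.1.lt_or_eq with hlt | heq
      · exact absurd (hxe ▸ hxA) (h1 y μ hlt)
      · exact heq.symm
    have hval : ker A h x (y, μ) = 0 := by
      unfold ker; simp [hμ]
    have : Tendsto (fun q : X × (X × unitInterval) => ker A h q.1 q.2) (𝓝 (x, y, μ)) (𝓝 0) := by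
      have ht : Tendsto (fun q : X × (X × unitInterval) => ((q.2.2 : ℝ))) (𝓝 (x, y, μ)) (𝓝 0) := by
        have : Continuous (fun q : X × (X × unitInterval) => ((q.2.2 : ℝ))) := by fun_prop
        have := this.tendsto (x, y, μ)
        simpa [hμ] using this
      refine squeeze_zero (fun q => ker_nonneg A h q.1 q.2) (fun q => ker_le A h q.1 q.2) ht
    show Tendsto _ _ (𝓝 (ker A h x (y, μ)))
    rw [hval]; exact this
  · exact cnum.continuousAt.div cden.continuousAt hD

/-- The dominating function. -/
noncomputable def sfun (A : Set X) (h : X × ℝ → X) (x : X) : ℝ :=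
  sSup ((ker A h x) '' univ)

theorem sfun_continuous (A : Set X) (hA : IsClosed A) (hne : A.Nonempty) (h : X × ℝ → X)
    (hh : Continuous h) (h1 : ∀ x t, 0 < t → h (x, t) ∉ A) : Continuous (sfun A h) := by
  unfold sfun
  exact IsCompact.continuous_sSup isCompact_univ (ker_continuous A hA hne h hh h1)

omit [CompactSpace X] in
theorem le_sfun (A : Set X) (h : X × ℝ → X) (x : X) (p : X × unitInterval) :
    ker A h x p ≤ sfun A h x := by
  unfold sfun
  refine le_csSup ⟨1, ?_⟩ ⟨p, mem_univ _, rfl⟩
  rintro _ ⟨q, _, rfl⟩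
  exact (ker_le A h x q).trans q.2.2.2

omit [CompactSpace X] in
theorem sfun_nonneg (A : Set X) (h : X × ℝ → X) (x : X) : 0 ≤ sfun A h x :=
  (ker_nonneg A h x (x, 0)).trans (le_sfun A h x (x, 0))

omit [CompactSpace X] in
theorem sfun_zero (A : Set X) (h : X × ℝ → X) (x : X) (hx : x ∈ A) : sfun A h x = 0 := by
  apply le_antisymm _ (sfun_nonneg A h x)
  unfold sfun
  refine csSup_le ⟨_, (x, 0), mem_univ _, rfl⟩ ?_
  rintro _ ⟨q, _, rfl⟩
  unfold ker
  rw [infDist_zero_of_mem hx]
  simp

omit [CompactSpace X] in
theorem le_sfun_of_eq (A : Set X) (hA : IsClosed A) (hne : A.Nonempty) (h : X × ℝ → X)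
    (x y : X) (μ : ℝ) (hμ : μ ∈ Icc (0 : ℝ) 1) (hx : x ∉ A) (he : h (y, μ) = x) :
    μ ≤ sfun A h x := by
  have := le_sfun A h x (y, ⟨μ, hμ⟩)
  unfold ker at this
  simp only [he, dist_self, add_zero] at this
  have hpos : 0 < infDist x A := (hA.notMem_iff_infDist_pos hne).1 hx
  rwa [mul_div_assoc, div_self hpos.ne', mul_one] at this

end kernel

section path

variable {X : Type*} [MetricSpace X]

/-- Infimum of `μ + dist x (γ μ)` over `μ ∈ [0,1]`: a continuous lower bound for the first time
at which the path `γ` passes through `x`. -/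
noncomputable def lfun (γ : ℝ → X) (x : X) : ℝ :=
  sInf ((fun μ : unitInterval => (μ : ℝ) + dist x (γ μ)) '' univ)

theorem lfun_continuous (γ : ℝ → X) (hγ : Continuous γ) : Continuous (lfun γ) := by
  unfold lfun
  refine IsCompact.continuous_sInf (f := fun (x : X) (μ : unitInterval) =>
    (μ : ℝ) + dist x (γ μ)) isCompact_univ ?_
  show Continuous (fun q : X × unitInterval => (q.2 : ℝ) + dist q.1 (γ q.2))
  refine Continuous.add (by fun_prop) (continuous_fst.dist (hγ.comp (by fun_prop)))

theorem lfun_le (γ : ℝ → X) (x : X) (μ : ℝ) (hμ : μ ∈ Icc (0 : ℝ) 1) :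
    lfun γ x ≤ μ + dist x (γ μ) := by
  unfold lfun
  refine csInf_le ⟨0, ?_⟩ ⟨⟨μ, hμ⟩, mem_univ _, rfl⟩
  rintro _ ⟨q, _, rfl⟩
  have := q.2.1
  have : 0 ≤ dist x (γ q) := dist_nonneg
  positivity

theorem lfun_nonneg (γ : ℝ → X) (x : X) : 0 ≤ lfun γ x := by
  unfold lfun
  refine le_csInf ⟨_, (0 : unitInterval), mem_univ _, rfl⟩ ?_
  rintro _ ⟨q, _, rfl⟩
  have := q.2.1
  have : 0 ≤ dist x (γ q) := dist_nonneg
  positivity

theorem eq_of_lfun_eq_zero (γ : ℝ → X) (hγ : Continuous γ) (x : X) (h : lfun γ x = 0) :
    x = γ 0 := by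
  have hcont : Continuous (fun μ : unitInterval => (μ : ℝ) + dist x (γ μ)) :=
    Continuous.add (by fun_prop) (continuous_const.dist (hγ.comp (by fun_prop)))
  obtain ⟨μ, _, hμ⟩ := (isCompact_univ (X := unitInterval)).exists_sInf_image_eq univ_nonempty
    hcont.continuousOn
  unfold lfun at h
  rw [h] at hμ
  have h1 := μ.2.1
  have h2 : 0 ≤ dist x (γ μ) := dist_nonneg
  replace hμ : (0 : ℝ) = (μ : ℝ) + dist x (γ μ) := hμ
  have e1 : (μ : ℝ) = 0 := by linarith
  have e2 : dist x (γ μ) = 0 := by linarith
  rw [e1] at e2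
  exact dist_eq_zero.1 e2

end path

theorem core {X : Type*} [MetricSpace X] [CompactSpace X]
    (A : Set X) (hA : IsClosed A) (c : X) (hc : c ∈ A)
    (h : X × ℝ → X) (hh : Continuous h) (h0 : ∀ x, h (x, 0) = x)
    (h1 : ∀ x t, 0 < t → h (x, t) ∉ A)
    (C : X × ℝ → X) (hC : Continuous C) (C0 : ∀ x, C (x, 0) = x) (b : X) (U : Set X)
    (hU : IsOpen U) (hAU : A ⊆ U) (C1 : ∀ x ∈ U, C (x, 1) = b)
    (k : X × ℝ → X) (hk : Continuous k) (k0 : ∀ x, k (x, 0) = x)
    (kc : ∀ v ∈ Icc (0 : ℝ) 1, k (c, v) = c)
    (W : Set X) (hW : IsOpen W) (hcW : c ∈ W) (k1 : ∀ x ∈ W, k (x, 1) = c) :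
    ∃ f : X → X, Continuous f ∧ ∀ x, f x = x ↔ x ∈ A := by
  classical
  have hne : A.Nonempty := ⟨c, hc⟩
  set t : X → ℝ := fun x => infDist x A with ht
  have tcont : Continuous t := continuous_infDist_pt A
  have tnn : ∀ x, 0 ≤ t x := fun x => infDist_nonneg
  have tz : ∀ x, x ∈ A ↔ t x = 0 := fun x => hA.mem_iff_infDist_zero hne
  have tpos : ∀ x, x ∉ A → 0 < t x := fun x hx => (hA.notMem_iff_infDist_pos hne).1 hx
  -- the path
  set γ : ℝ → X := fun μ => h (C (c, μ), μ) with hγdef
  have γcont : Continuous γ := by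
    rw [hγdef]
    refine hh.comp (Continuous.prodMk (hC.comp (by fun_prop)) continuous_id)
  have γ0 : γ 0 = c := by simp only [hγdef, C0, h0]
  set Γ : Set X := γ '' Icc 0 1 with hΓdef
  have Γcomp : IsCompact Γ := isCompact_Icc.image γcont
  have Γclosed : IsClosed Γ := Γcomp.isClosed
  have cΓ : c ∈ Γ := ⟨0, ⟨le_rfl, zero_le_one⟩, γ0⟩
  have Γne : Γ.Nonempty := ⟨c, cΓ⟩
  have ΓA : ∀ x ∈ Γ, x ∈ A → x = c := by
    rintro _ ⟨μ, hμ, rfl⟩ hx
    rcases hμ.1.lt_or_eq with hlt | heq
    · exact absurd hx (h1 _ _ hlt)
    · rw [← heq]; exact γ0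
  -- the neighbourhood of c
  have hW' : ∀ᶠ x in 𝓝 c, x ∈ W ∧ ∀ v ∈ Icc (0 : ℝ) 1, k (x, v) ∈ U := by
    have hWn : ∀ᶠ x in 𝓝 c, x ∈ W := hW.mem_nhds hcW
    refine hWn.and ?_
    refine (isCompact_Icc).eventually_forall_of_forall_eventually ?_
    intro v hv
    have : k (c, v) ∈ U := by rw [kc v hv]; exact hAU hc
    exact hk.continuousAt.eventually (hU.mem_nhds this)
  obtain ⟨W', hW'sub, hW'open, hcW'⟩ := _root_.eventually_nhds_iff.1 hW'
  obtain ⟨e1, e1pos, he1⟩ := exists_eps t tcont tnn U hU (fun x hx => hAU ((tz x).2 hx))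
  have hO2 : IsOpen ((fun x => h (x, 1)) '' univ)ᶜ :=
    ((isCompact_univ.image (hh.comp (by fun_prop))).isClosed).isOpen_compl
  obtain ⟨e2, e2pos, he2⟩ := exists_eps t tcont tnn _ hO2 (fun x hx => by
    rintro ⟨y, _, hy⟩
    exact h1 y 1 one_pos (by simp only at hy; rw [hy]; exact (tz x).2 hx))
  obtain ⟨e3, e3pos, he3⟩ := exists_eps (fun x => max (t x) (infDist x Γ))
    (tcont.max (continuous_infDist_pt Γ)) (fun x => le_max_of_le_left (tnn x)) W' hW'open
    (fun x hx => by
      have a1 : t x = 0 := le_antisymm (hx ▸ le_max_left _ _) (tnn x)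
      have a2 : infDist x Γ = 0 := le_antisymm (hx ▸ le_max_right _ _) infDist_nonneg
      have := ΓA x ((Γclosed.mem_iff_infDist_zero Γne).2 a2) ((tz x).2 a1)
      rw [this]; exact hcW')
  set ε : ℝ := min e1 (min e2 e3) with hε
  have εpos : 0 < ε := lt_min e1pos (lt_min e2pos e3pos)
  have Hi : ∀ x, t x ≤ ε → x ∈ U := fun x hx => he1 x (hx.trans (min_le_left _ _))
  have Hii : ∀ x, t x ≤ ε → ∀ y, h (y, 1) ≠ x := fun x hx y hy =>
    he2 x (hx.trans ((min_le_right _ _).trans (min_le_left _ _))) ⟨y, mem_univ _, hy⟩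
  have Hiii : ∀ x, t x ≤ ε → infDist x Γ ≤ ε → x ∈ W' := fun x hx hx' =>
    he3 x (max_le (hx.trans ((min_le_right _ _).trans (min_le_right _ _)))
      (hx'.trans ((min_le_right _ _).trans (min_le_right _ _))))
  -- scalar functions
  set s : X → ℝ := sfun A h with hs
  have scont : Continuous s := sfun_continuous A hA hne h hh h1
  have snn : ∀ x, 0 ≤ s x := sfun_nonneg A h
  set w0 : X → ℝ := fun x => min 1 (t x / ε) with hw0
  have w0cont : Continuous w0 := continuous_const.min (tcont.div_const _)
  have w0nn : ∀ x, 0 ≤ w0 x := fun x => le_min zero_le_one (div_nonneg (tnn x) εpos.le)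
  have w0le : ∀ x, w0 x ≤ 1 := fun x => min_le_left _ _
  have w0pos : ∀ x, x ∉ A → 0 < w0 x := fun x hx => lt_min one_pos (div_pos (tpos x hx) εpos)
  have w0far : ∀ x, ε ≤ t x → w0 x = 1 := fun x hx => min_eq_left ((one_le_div εpos).2 hx)
  set μ0 : X → ℝ := fun x => min 1 (s x + w0 x) with hμ0
  have μ0cont : Continuous μ0 := continuous_const.min (scont.add w0cont)
  have μ0nn : ∀ x, 0 ≤ μ0 x := fun x => le_min zero_le_one (add_nonneg (snn x) (w0nn x))
  have μ0le : ∀ x, μ0 x ≤ 1 := fun x => min_le_left _ _
  have μ0far : ∀ x, ε ≤ t x → μ0 x = 1 := fun x hx =>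
    min_eq_left (by rw [w0far x hx]; linarith [snn x])
  set L : X → ℝ := lfun γ with hL
  set μ1 : X → ℝ := fun x => min 1 (L x / 2) with hμ1
  have μ1cont : Continuous μ1 := continuous_const.min ((lfun_continuous γ γcont).div_const _)
  have μ1nn : ∀ x, 0 ≤ μ1 x := fun x => le_min zero_le_one (div_nonneg (lfun_nonneg γ x) (by norm_num))
  have μ1le : ∀ x, μ1 x ≤ 1 := fun x => min_le_left _ _
  have μ1fix : ∀ x, x = γ (μ1 x) → x = c := by
    intro x hx
    have hL0 : L x = 0 := by
      have i1 := lfun_le γ x (μ1 x) ⟨μ1nn x, μ1le x⟩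
      rw [← hx, dist_self, add_zero] at i1
      have i2 : μ1 x ≤ L x / 2 := min_le_right _ _
      have i3 := lfun_nonneg γ x
      have : L x ≤ μ1 x := i1
      have : 0 ≤ L x := i3
      linarith
    rw [← γ0]; exact eq_of_lfun_eq_zero γ γcont x hL0
  set p : X → ℝ := fun x => max 0 (1 - infDist x Γ / t x) with hp
  set v : X → ℝ := fun x => min 1 (3 * p x) with hv
  set a2 : X → ℝ := fun x => max 0 (min 1 (3 * p x - 1)) with ha2
  set a3 : X → ℝ := fun x => max 0 (min 1 (3 * p x - 2)) with ha3
  set m : X → ℝ := fun x => (1 - a3 x) * μ0 x + a3 x * μ1 x with hm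
  set w : X → ℝ := fun x => (1 - a2 x) * w0 x + a2 x * m x with hw
  have pnn : ∀ x, 0 ≤ p x := fun x => le_max_left _ _
  have vnn : ∀ x, 0 ≤ v x := fun x => le_min zero_le_one (by have := pnn x; linarith)
  have vle : ∀ x, v x ≤ 1 := fun x => min_le_left _ _
  have a2nn : ∀ x, 0 ≤ a2 x := fun x => le_max_left _ _
  have a2le : ∀ x, a2 x ≤ 1 := fun x => max_le zero_le_one (min_le_left _ _)
  have a3nn : ∀ x, 0 ≤ a3 x := fun x => le_max_left _ _
  have a3le : ∀ x, a3 x ≤ 1 := fun x => max_le zero_le_one (min_le_left _ _)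
  have mnn : ∀ x, 0 ≤ m x := fun x => by
    have := a3nn x; have := a3le x; have := μ0nn x; have := μ1nn x
    have h1 : 0 ≤ 1 - a3 x := by linarith
    show 0 ≤ (1 - a3 x) * μ0 x + a3 x * μ1 x
    positivity
  have mle1 : ∀ x, m x ≤ 1 := fun x => by
    have := a3nn x; have := a3le x; have := μ0le x; have := μ1le x
    show (1 - a3 x) * μ0 x + a3 x * μ1 x ≤ 1
    nlinarith
  have mle : ∀ x, m x ≤ μ0 x + μ1 x := fun x => by
    have := a3nn x; have := a3le x; have := μ0nn x; have := μ1nn x
    show (1 - a3 x) * μ0 x + a3 x * μ1 x ≤ μ0 x + μ1 x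
    nlinarith [mul_nonneg (a3nn x) (μ0nn x), mul_nonneg (sub_nonneg.2 (a3le x)) (μ1nn x)]
  have wnn : ∀ x, 0 ≤ w x := fun x => by
    have := a2nn x; have := a2le x; have := w0nn x; have := mnn x
    have h1 : 0 ≤ 1 - a2 x := by linarith
    show 0 ≤ (1 - a2 x) * w0 x + a2 x * m x
    positivity
  have wle : ∀ x, w x ≤ w0 x + (μ0 x + μ1 x) := fun x => by
    have := a2nn x; have := a2le x; have := w0nn x; have := mnn x; have := mle x
    show (1 - a2 x) * w0 x + a2 x * m x ≤ w0 x + (μ0 x + μ1 x)
    nlinarith [mul_nonneg (a2nn x) (w0nn x), mul_nonneg (sub_nonneg.2 (a2le x)) (mnn x)]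
  -- facts about the phases
  have a3pos : ∀ x, a3 x ≠ 0 → 2 / 3 < p x := by
    intro x hx
    by_contra hle
    push Not at hle
    apply hx
    show max 0 (min 1 (3 * p x - 2)) = 0
    apply max_eq_left
    exact (min_le_right _ _).trans (by linarith)
  have a2one : ∀ x, 2 / 3 ≤ p x → a2 x = 1 := by
    intro x hx
    show max 0 (min 1 (3 * p x - 1)) = 1
    rw [min_eq_left (by linarith)]
    exact max_eq_right zero_le_one
  have vone : ∀ x, 1 / 3 ≤ p x → v x = 1 := by
    intro x hx
    exact min_eq_left (by linarith)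
  have a2zero : ∀ x, p x ≤ 1 / 3 → a2 x = 0 := by
    intro x hx
    apply max_eq_left
    exact (min_le_right _ _).trans (by linarith)
  have a3zero : ∀ x, p x ≤ 2 / 3 → a3 x = 0 := by
    intro x hx
    apply max_eq_left
    exact (min_le_right _ _).trans (by linarith)
  have ptube : ∀ x, x ∉ A → 0 < p x → infDist x Γ < t x := by
    intro x hx hpx
    have h2 : 0 < 1 - infDist x Γ / t x := by
      by_contra hle
      push Not at hle
      have : p x = 0 := max_eq_left hle
      linarith
    have h3 : infDist x Γ / t x < 1 := by linarith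
    exact (div_lt_one (tpos x hx)).1 h3
  have ptubeW : ∀ x, x ∉ A → 0 < p x → t x ≤ ε → x ∈ W' := fun x hx hpx htx =>
    Hiii x htx ((ptube x hx hpx).le.trans htx)
  have pone : ∀ x, x ∉ A → x ∈ Γ → p x = 1 := by
    intro x hx hxΓ
    show max 0 (1 - infDist x Γ / t x) = 1
    rw [infDist_zero_of_mem hxΓ]; simp
  -- the map
  set z : X → X := fun x => if t x ≤ ε then C (k (x, v x), w x) else C (c, w x) with hz
  set f : X → X := fun x => if x ∈ A then x else h (z x, m x) with hf
  refine ⟨f, ?_, ?_⟩
  swap
  · -- fixed points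
    intro x
    constructor
    · intro hfx
      by_contra hxA
      have hfx' : h (z x, m x) = x := by
        have : f x = h (z x, m x) := if_neg hxA
        rw [← this]; exact hfx
      -- it suffices to show f x = γ (m x) with a3 = 1
      have key : z x = C (c, m x) → False := by
        intro hzx
        rw [hzx] at hfx'
        have hxΓ : x ∈ Γ := ⟨m x, ⟨mnn x, mle1 x⟩, hfx'⟩
        have hp1 := pone x hxA hxΓ
        have ha31 : a3 x = 1 := by
          show max 0 (min 1 (3 * p x - 2)) = 1
          rw [hp1]; norm_num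
        have hm1 : m x = μ1 x := by
          show (1 - a3 x) * μ0 x + a3 x * μ1 x = μ1 x
          rw [ha31]; ring
        have : x = γ (μ1 x) := by
          rw [← hm1]; exact hfx'.symm
        have := μ1fix x this
        exact hxA (this ▸ hc)
      by_cases ha30 : a3 x = 0
      · have hmμ : m x = μ0 x := by
          show (1 - a3 x) * μ0 x + a3 x * μ1 x = μ0 x
          rw [ha30]; ring
        by_cases htx : t x ≤ ε
        · -- near case
          rw [hmμ] at hfx'
          have hμ01 : μ0 x = 1 ∨ μ0 x = s x + w0 x := by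
            rcases min_choice 1 (s x + w0 x) with h | h
            · exact Or.inl h
            · exact Or.inr h
          have hsx : μ0 x ≤ s x :=
            le_sfun_of_eq A hA hne h x (z x) (μ0 x) ⟨μ0nn x, μ0le x⟩ hxA hfx'
          rcases hμ01 with h' | h'
          · rw [h'] at hfx'
            exact Hii x htx _ hfx'
          · have := w0pos x hxA
            linarith
        · push Not at htx
          apply key
          have e1 : m x = 1 := by rw [hmμ]; exact μ0far x htx.le
          have e2 : w x = 1 := by
            show (1 - a2 x) * w0 x + a2 x * m x = 1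
            rw [w0far x htx.le, e1]; ring
          show (if t x ≤ ε then C (k (x, v x), w x) else C (c, w x)) = C (c, m x)
          rw [if_neg (not_le.2 htx), e1, e2]
      · apply key
        have hp23 := a3pos x ha30
        have ha21 := a2one x hp23.le
        have hv1 := vone x (by linarith)
        have hwm : w x = m x := by
          show (1 - a2 x) * w0 x + a2 x * m x = m x
          rw [ha21]; ring
        show (if t x ≤ ε then C (k (x, v x), w x) else C (c, w x)) = C (c, m x)
        by_cases htx : t x ≤ ε
        · rw [if_pos htx, hwm, hv1]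
          have hxW' := ptubeW x hxA (by linarith) htx
          rw [k1 x (hW'sub x hxW').1]
        · rw [if_neg htx, hwm]
    · intro hxA
      exact if_pos hxA
  · -- continuity
    rw [continuous_iff_continuousAt]
    intro a
    by_cases haA : a ∈ A
    · -- at points of A
      have hfa : f a = a := if_pos haA
      have ta : t a = 0 := (tz a).1 haA
      have w0a : w0 a = 0 := by
        show min 1 (t a / ε) = 0
        rw [ta]; simp
      have sa : s a = 0 := sfun_zero A h a haA
      have μ0a : μ0 a = 0 := by
        show min 1 (s a + w0 a) = 0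
        rw [sa, w0a]; simp
      have tnear : ∀ᶠ x in 𝓝 a, t x < ε :=
        tcont.continuousAt.eventually (gt_mem_nhds (by rw [ta]; exact εpos))
      by_cases hac : a = c
      · -- at c
        subst hac
        show Tendsto f (𝓝 a) (𝓝 (f a))
        rw [hfa]
        have T1 : Tendsto f (𝓝[A] a) (𝓝 a) := by
          refine Tendsto.congr' ?_ (tendsto_id.mono_left (nhdsWithin_le_nhds (s := A)))
          filter_upwards [self_mem_nhdsWithin] with x hx
          exact (if_pos hx).symm
        have T2 : Tendsto f (𝓝[Aᶜ] a) (𝓝 a) := by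
          have L0 : L a = 0 := by
            have i1 := lfun_le γ a 0 ⟨le_rfl, zero_le_one⟩
            rw [γ0, dist_self] at i1
            have := lfun_nonneg γ a
            have : 0 ≤ L a := this
            have : L a ≤ 0 := by linarith
            linarith
          have μ1a : μ1 a = 0 := by
            show min 1 (L a / 2) = 0
            rw [L0]; simp
          have Tw : Tendsto w (𝓝 a) (𝓝 0) := by
            refine squeeze_zero wnn wle ?_
            have : Continuous (fun x => w0 x + (μ0 x + μ1 x)) := w0cont.add (μ0cont.add μ1cont)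
            have := this.tendsto a
            simpa [w0a, μ0a, μ1a] using this
          have Tm : Tendsto m (𝓝 a) (𝓝 0) := by
            refine squeeze_zero mnn mle ?_
            have : Continuous (fun x => (μ0 x + μ1 x)) := (μ0cont.add μ1cont)
            have := this.tendsto a
            simpa [μ0a, μ1a] using this
          have Tk : Tendsto (fun x => k (x, v x)) (𝓝 a) (𝓝 a) := by
            intro N hN
            have : ∀ᶠ x in 𝓝 a, ∀ v' ∈ Icc (0 : ℝ) 1, k (x, v') ∈ N := by
              refine (isCompact_Icc).eventually_forall_of_forall_eventually ?_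
              intro v' hv'
              have hN' : N ∈ 𝓝 (k (a, v')) := by rw [kc v' hv']; exact hN
              exact hk.continuousAt.eventually hN'
            rw [Filter.mem_map]
            filter_upwards [this] with x hx
            exact hx (v x) ⟨vnn x, vle x⟩
          have TC : Tendsto (fun x => C (k (x, v x), w x)) (𝓝 a) (𝓝 a) := by
            have := (hC.tendsto (a, 0)).comp (Tk.prodMk_nhds Tw)
            rwa [C0] at this
          have Th : Tendsto (fun x => h (C (k (x, v x), w x), m x)) (𝓝 a) (𝓝 a) := by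
            have := (hh.tendsto (a, 0)).comp (TC.prodMk_nhds Tm)
            rwa [h0] at this
          refine Tendsto.congr' ?_ (Th.mono_left (nhdsWithin_le_nhds (s := Aᶜ)))
          filter_upwards [self_mem_nhdsWithin, nhdsWithin_le_nhds tnear] with x hx hx'
          show h (C (k (x, v x), w x), m x) = (if x ∈ A then x else h (z x, m x))
          rw [if_neg hx]
          have hzx : z x = C (k (x, v x), w x) := if_pos hx'.le
          rw [hzx]
        have hsup : 𝓝 a = 𝓝[A] a ⊔ 𝓝[Aᶜ] a := by
          rw [← nhdsWithin_union, union_compl_self, nhdsWithin_univ]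
        rw [tendsto_def]
        intro N hN
        rw [hsup]
        exact ⟨T1 hN, T2 hN⟩
      · -- other points of A
        have hdΓ : 0 < infDist a Γ := by
          refine (Γclosed.notMem_iff_infDist_pos Γne).1 ?_
          intro haΓ
          exact hac (ΓA a haΓ haA)
        have hev : ∀ᶠ x in 𝓝 a, t x < infDist x Γ := by
          have : Continuous (fun x => infDist x Γ - t x) := (continuous_infDist_pt Γ).sub tcont
          have := this.continuousAt.eventually (lt_mem_nhds (a := 0) (b := infDist a Γ - t a)
            (by rw [ta]; linarith))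
          filter_upwards [this] with x hx
          linarith
        have heq : f =ᶠ[𝓝 a] fun x => h (C (x, w0 x), μ0 x) := by
          filter_upwards [hev, tnear] with x hx hx'
          by_cases hxA : x ∈ A
          · have tx : t x = 0 := (tz x).1 hxA
            have w0x : w0 x = 0 := by
              show min 1 (t x / ε) = 0
              rw [tx]; simp
            have sx : s x = 0 := sfun_zero A h x hxA
            have μ0x : μ0 x = 0 := by
              show min 1 (s x + w0 x) = 0
              rw [sx, w0x]; simp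
            rw [w0x, μ0x, C0, h0]
            exact if_pos hxA
          · have hpx : p x = 0 := by
              by_contra hne'
              have : 0 < p x := lt_of_le_of_ne (pnn x) (Ne.symm hne')
              have := ptube x hxA this
              linarith
            have hvx : v x = 0 := by
              show min 1 (3 * p x) = 0
              rw [hpx]; simp
            have ha2x : a2 x = 0 := a2zero x (by rw [hpx]; norm_num)
            have ha3x : a3 x = 0 := a3zero x (by rw [hpx]; norm_num)
            have hmx : m x = μ0 x := by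
              show (1 - a3 x) * μ0 x + a3 x * μ1 x = μ0 x
              rw [ha3x]; ring
            have hwx : w x = w0 x := by
              show (1 - a2 x) * w0 x + a2 x * m x = w0 x
              rw [ha2x]; ring
            show (if x ∈ A then x else h (z x, m x)) = _
            rw [if_neg hxA]
            show h ((if t x ≤ ε then C (k (x, v x), w x) else C (c, w x)), m x) = _
            rw [if_pos hx'.le, hmx, hwx, hvx, k0]
        refine ContinuousAt.congr ?_ heq.symm
        exact (hh.comp ((hC.comp (continuous_id.prodMk w0cont)).prodMk μ0cont)).continuousAt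
    · -- off A
      have hopen : IsOpen Aᶜ := hA.isOpen_compl
      let ι : (Aᶜ : Set X) → X := Subtype.val
      have ιcont : Continuous ι := continuous_subtype_val
      have pc : Continuous (p ∘ ι) := by
        refine continuous_const.max (continuous_const.sub ?_)
        refine Continuous.div ((continuous_infDist_pt Γ).comp ιcont) (tcont.comp ιcont) ?_
        intro x
        exact (tpos x.1 x.2).ne'
      have vc : Continuous (v ∘ ι) := continuous_const.min (continuous_const.mul pc)
      have a2c : Continuous (a2 ∘ ι) :=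
        continuous_const.max (continuous_const.min ((continuous_const.mul pc).sub continuous_const))
      have a3c : Continuous (a3 ∘ ι) :=
        continuous_const.max (continuous_const.min ((continuous_const.mul pc).sub continuous_const))
      have mc : Continuous (m ∘ ι) :=
        ((continuous_const.sub a3c).mul (μ0cont.comp ιcont)).add (a3c.mul (μ1cont.comp ιcont))
      have wc : Continuous (w ∘ ι) :=
        ((continuous_const.sub a2c).mul (w0cont.comp ιcont)).add (a2c.mul mc)
      have zc : Continuous (z ∘ ι) := by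
        have c1 : Continuous (fun x : (Aᶜ : Set X) => C (k (ι x, v (ι x)), w (ι x))) :=
          hC.comp ((hk.comp (ιcont.prodMk vc)).prodMk wc)
        have c2 : Continuous (fun x : (Aᶜ : Set X) => C (c, w (ι x))) :=
          hC.comp (continuous_const.prodMk wc)
        refine Continuous.if_le c1 c2 (tcont.comp ιcont) continuous_const ?_
        intro x hx
        have hxA : (ι x) ∉ A := x.2
        have htx : t (ι x) = ε := hx
        by_cases hp3 : p (ι x) ≤ 1 / 3
        · have ha2x := a2zero _ hp3
          have hwx : w (ι x) = 1 := by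
            show (1 - a2 (ι x)) * w0 (ι x) + a2 (ι x) * m (ι x) = 1
            rw [ha2x, w0far _ htx.ge]; ring
          rw [hwx, C1 c (hAU hc)]
          rcases (pnn (ι x)).lt_or_eq with hlt | heq
          · have hxW' := ptubeW _ hxA hlt htx.le
            exact C1 _ ((hW'sub _ hxW').2 _ ⟨vnn _, vle _⟩)
          · have hvx : v (ι x) = 0 := by
              show min 1 (3 * p (ι x)) = 0
              rw [← heq]; simp
            rw [hvx, k0]
            exact C1 _ (Hi _ htx.le)
        · push Not at hp3
          have hvx := vone _ hp3.le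
          have hxW' := ptubeW _ hxA (by linarith) htx.le
          rw [hvx, k1 _ (hW'sub _ hxW').1]
      have fc : Continuous (f ∘ ι) := by
        have : f ∘ ι = fun x => h (z (ι x), m (ι x)) := by
          funext x
          exact if_neg x.2
        rw [this]
        exact hh.comp (zc.prodMk mc)
      have := fc.continuousAt (x := (⟨a, haA⟩ : (Aᶜ : Set X)))
      exact (hopen.isOpenEmbedding_subtypeVal.continuousAt_iff).1 this

end Pool.Helper63.ZFix
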