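import Mathlib
import Pool.Agent.helper63.ZFixCore

set_option autoImplicit false

open Set Metric Filter Topology

namespace Pool.Helper63.ZFix

/-! ### clamps and cut-offs -/

/-- clamp to `[0,1]` -/
noncomputable def cl (t : ℝ) : ℝ := max 0 (min 1 t)

theorem cl_nonneg (t : ℝ) : 0 ≤ cl t := le_max_left _ _
theorem cl_le (t : ℝ) : cl t ≤ 1 := max_le zero_le_one (min_le_left _ _)
theorem cl_mem (t : ℝ) : cl t ∈ Icc (0 : ℝ) 1 := ⟨cl_nonneg t, cl_le t⟩
theorem cl_of_le {t : ℝ} (h : t ≤ 0) : cl t = 0 := max_eq_left ((min_le_right _ _).trans h)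
theorem cl_of_ge {t : ℝ} (h : 1 ≤ t) : cl t = 1 := by
  unfold cl; rw [min_eq_left h]; exact max_eq_right zero_le_one
theorem cl_cont : Continuous cl := by unfold cl; fun_prop
theorem cl_of_mem {t : ℝ} (h : t ∈ Icc (0 : ℝ) 1) : cl t = t := by
  unfold cl; rw [min_eq_right h.2]; exact max_eq_right h.1

theorem exists_cutoff {Y : Type*} [MetricSpace Y] [CompactSpace Y] (A : Set Y) (hA : IsClosed A)
    (hne : A.Nonempty) (N : Set Y) (hN : IsOpen N) (hAN : A ⊆ N) :
    ∃ χ : Y → ℝ, Continuous χ ∧ (∀ x, χ x ∈ Icc (0 : ℝ) 1) ∧ (∀ x, χ x ≠ 0 → x ∈ N) ∧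
      ∃ O : Set Y, IsOpen O ∧ A ⊆ O ∧ ∀ x ∈ O, χ x = 1 := by
  obtain ⟨ε, εpos, hε⟩ := exists_eps (fun x => infDist x A) (continuous_infDist_pt A)
    (fun x => infDist_nonneg) N hN (fun x hx => hAN ((hA.mem_iff_infDist_zero hne).2 hx))
  refine ⟨fun x => cl (2 - 2 * infDist x A / ε), cl_cont.comp (continuous_const.sub
    ((continuous_const.mul (continuous_infDist_pt A)).div_const _)), fun x => cl_mem _, ?_,
    {x | infDist x A < ε / 2}, ?_, ?_, ?_⟩
  · intro x hx
    apply hε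
    by_contra hlt
    push Not at hlt
    apply hx
    apply cl_of_le
    have : 2 ≤ 2 * infDist x A / ε := by
      rw [le_div_iff₀ εpos]; linarith
    linarith
  · exact isOpen_lt (continuous_infDist_pt A) continuous_const
  · intro x hx
    show infDist x A < ε / 2
    rw [infDist_zero_of_mem hx]; positivity
  · intro x hx
    have hx' : infDist x A < ε / 2 := hx
    apply cl_of_ge
    have : 2 * infDist x A / ε ≤ 1 := by
      rw [div_le_one εpos]; linarith
    linarith

/-! ### from small maps to a homotopy: Baire category -/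

theorem exists_zhom {Y : Type*} [MetricSpace Y] [CompactSpace Y] (A : Set Y) (hA : IsClosed A)
    (LC : ∀ ε > 0, ∃ δ > 0, ∀ g : Y → Y, Continuous g → (∀ y, dist (g y) y < δ) →
      ∃ J : Y × ℝ → Y, Continuous J ∧ (∀ y, J (y, 0) = y) ∧ (∀ y, J (y, 1) = g y) ∧
        ∀ y, ∀ s ∈ Icc (0 : ℝ) 1, dist (J (y, s)) y < ε)
    (HZ : ∀ δ > 0, ∃ g : Y → Y, Continuous g ∧ (∀ y, dist (g y) y < δ) ∧ ∀ y, g y ∉ A) :
    ∃ h : Y × ℝ → Y, Continuous h ∧ (∀ y, h (y, 0) = y) ∧ ∀ y t, 0 < t → h (y, t) ∉ A := by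
  classical
  let S : Set C(Y × unitInterval, Y) := {H | ∀ x, H (x, 0) = x}
  have hSclosed : IsClosed S := by
    have : S = ⋂ x : Y, {H : C(Y × unitInterval, Y) | H (x, 0) = x} := by
      ext H; simp [S]
    rw [this]
    refine isClosed_iInter (fun x => ?_)
    exact isClosed_eq (continuous_eval_const _) continuous_const
  have : CompleteSpace S := hSclosed.completeSpace_coe
  let K : ℕ → Set (Y × unitInterval) := fun n => {p | (1 : ℝ) / (n + 1) ≤ (p.2 : ℝ)}
  have hK : ∀ n, IsCompact (K n) := fun n => by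
    apply IsClosed.isCompact
    exact isClosed_le continuous_const (by fun_prop)
  let O : ℕ → Set S := fun n => {H | MapsTo H.1 (K n) Aᶜ}
  have hO : ∀ n, IsOpen (O n) := fun n => by
    have := ContinuousMap.isOpen_setOfPred_mapsTo (K := K n) (hK n) hA.isOpen_compl
    exact this.preimage continuous_subtype_val
  have hD : ∀ n, Dense (O n) := by
    intro n
    rw [Metric.dense_iff]
    intro H ε hε
    obtain ⟨δ, δpos, hδ⟩ := LC (ε / 2) (by positivity)
    obtain ⟨g, gc, gd, gA⟩ := HZ δ δpos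
    obtain ⟨J, Jc, J0, J1, Jd⟩ := hδ g gc gd
    let H' : C(Y × unitInterval, Y) :=
      ⟨fun p => J (H.1 p, cl ((n + 1) * (p.2 : ℝ))), by
        refine Jc.comp (H.1.continuous.prodMk (cl_cont.comp ?_))
        fun_prop⟩
    have H'S : H' ∈ S := by
      intro x
      show J (H.1 (x, 0), cl ((n + 1) * ((0 : unitInterval) : ℝ))) = x
      have : cl ((n + 1) * ((0 : unitInterval) : ℝ)) = 0 := cl_of_le (by simp)
      rw [this, J0]
      exact H.2 x
    refine ⟨⟨H', H'S⟩, ?_, ?_⟩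
    · show dist H' H.1 < ε
      rw [ContinuousMap.dist_lt_iff hε]
      intro p
      have := Jd (H.1 p) (cl ((n + 1) * (p.2 : ℝ))) (cl_mem _)
      show dist (J (H.1 p, cl ((n + 1) * (p.2 : ℝ)))) (H.1 p) < ε
      linarith
    · intro p hp
      show J (H.1 p, cl ((n + 1) * (p.2 : ℝ))) ∈ Aᶜ
      have hp' : (1 : ℝ) / (n + 1) ≤ (p.2 : ℝ) := hp
      have : cl ((n + 1) * (p.2 : ℝ)) = 1 := by
        apply cl_of_ge
        have hn : (0 : ℝ) < n + 1 := by positivity
        rw [div_le_iff₀ hn] at hp'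
        linarith
      rw [this, J1]
      exact gA _
  have hdense := dense_iInter_of_isOpen hO hD
  let pr : S := ⟨⟨fun p => p.1, continuous_fst⟩, fun x => rfl⟩
  obtain ⟨H, hH⟩ := hdense.nonempty_iff.2 ⟨pr⟩
  refine ⟨fun p => H.1 (p.1, projIcc 0 1 zero_le_one p.2), ?_, ?_, ?_⟩
  · refine H.1.continuous.comp (continuous_fst.prodMk (continuous_projIcc.comp continuous_snd))
  · intro y
    show H.1 (y, projIcc 0 1 zero_le_one 0) = y
    rw [projIcc_left]
    exact H.2 y
  · intro y t ht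
    have hτ : 0 < ((projIcc 0 1 zero_le_one t : unitInterval) : ℝ) := by
      rw [coe_projIcc]
      exact lt_max_of_lt_right (lt_min one_pos ht)
    obtain ⟨n, hn⟩ := exists_nat_one_div_lt hτ
    have hHn : H ∈ O n := mem_iInter.1 hH n
    exact hHn (x := (y, projIcc 0 1 zero_le_one t)) hn.le

/-! ### compact ANRs in the Hilbert cube -/

/-- The Hilbert cube. -/
abbrev Q := ℕ → unitInterval

/-- coordinatewise convex combination in the Hilbert cube -/
noncomputable def cc (s : ℝ) (x y : Q) : Q :=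
  fun n => projIcc 0 1 zero_le_one ((1 - s) * (x n : ℝ) + s * (y n : ℝ))

theorem cc_zero (x y : Q) : cc 0 x y = x := by
  funext n
  unfold cc
  simp

theorem cc_one (x y : Q) : cc 1 x y = y := by
  funext n
  unfold cc
  simp

theorem cc_self (s : ℝ) (x : Q) : cc s x x = x := by
  funext n
  unfold cc
  have : (1 - s) * (x n : ℝ) + s * (x n : ℝ) = x n := by ring
  rw [this]
  exact projIcc_val _ _

theorem cc_continuous {T : Type*} [TopologicalSpace T] {s : T → ℝ} {x y : T → Q}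
    (hs : Continuous s) (hx : Continuous x) (hy : Continuous y) :
    Continuous (fun t => cc (s t) (x t) (y t)) := by
  unfold cc
  refine continuous_pi (fun n => continuous_projIcc.comp ?_)
  have hxn : Continuous (fun t => (x t n : ℝ)) :=
    continuous_subtype_val.comp ((continuous_apply n).comp hx)
  have hyn : Continuous (fun t => (y t n : ℝ)) :=
    continuous_subtype_val.comp ((continuous_apply n).comp hy)
  fun_prop

section ANR

variable {Y : Type*} [MetricSpace Y] [CompactSpace Y] (e : Y → Q) (he : Continuous e)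
  (U : Set Q) (hU : IsOpen U) (heU : ∀ y, e y ∈ U) (R : Q → Y) (hR : ContinuousOn R U)
  (hRe : ∀ y, R (e y) = y)

include he hU heU hR hRe in
/-- local contraction at a point `c` -/
theorem exists_local (c : Y) :
    ∃ k : Y × ℝ → Y, Continuous k ∧ (∀ x, k (x, 0) = x) ∧ (∀ v ∈ Icc (0 : ℝ) 1, k (c, v) = c) ∧
      ∃ W : Set Y, IsOpen W ∧ c ∈ W ∧ ∀ x ∈ W, k (x, 1) = c := by
  have hN : ∀ᶠ x in 𝓝 c, ∀ v ∈ Icc (0 : ℝ) 1, cc v (e x) (e c) ∈ U := by
    refine (isCompact_Icc).eventually_forall_of_forall_eventually ?_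
    intro v _
    have hc : Continuous (fun z : Y × ℝ => cc z.2 (e z.1) (e c)) :=
      cc_continuous continuous_snd (he.comp continuous_fst) continuous_const
    have hm : cc v (e c) (e c) ∈ U := by rw [cc_self]; exact heU c
    exact hc.continuousAt.eventually (hU.mem_nhds hm)
  obtain ⟨N, hNsub, hNopen, hcN⟩ := _root_.eventually_nhds_iff.1 hN
  obtain ⟨χ, χc, χI, χN, O, hO, hcO, hχO⟩ := exists_cutoff ({c} : Set Y) isClosed_singleton
    (singleton_nonempty c) N hNopen (singleton_subset_iff.2 hcN)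
  have hmem : ∀ p : Y × ℝ, cc (cl p.2 * χ p.1) (e p.1) (e c) ∈ U := by
    rintro ⟨x, v⟩
    by_cases hx : χ x = 0
    · simp only [hx, mul_zero, cc_zero]; exact heU x
    · apply hNsub x (χN x hx)
      exact ⟨mul_nonneg (cl_nonneg _) (χI x).1, mul_le_one₀ (cl_le _) (χI x).1 (χI x).2⟩
  have hcont : Continuous (fun p : Y × ℝ => cc (cl p.2 * χ p.1) (e p.1) (e c)) :=
    cc_continuous ((cl_cont.comp continuous_snd).mul (χc.comp continuous_fst))
      (he.comp continuous_fst) continuous_const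
  refine ⟨fun p => R (cc (cl p.2 * χ p.1) (e p.1) (e c)), hR.comp_continuous hcont hmem,
    ?_, ?_, O, hO, hcO rfl, ?_⟩
  · intro x
    have : cl 0 = 0 := cl_of_le le_rfl
    simp only [this, zero_mul, cc_zero, hRe]
  · intro v _
    simp only [cc_self, hRe]
  · intro x hx
    have : cl 1 = 1 := cl_of_ge le_rfl
    simp only [this, hχO x hx, one_mul, cc_one, hRe]

include he hU heU hR hRe in
theorem exists_LC : ∀ ε > 0, ∃ δ > 0, ∀ g : Y → Y, Continuous g → (∀ y, dist (g y) y < δ) →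
      ∃ J : Y × ℝ → Y, Continuous J ∧ (∀ y, J (y, 0) = y) ∧ (∀ y, J (y, 1) = g y) ∧
        ∀ y, ∀ s ∈ Icc (0 : ℝ) 1, dist (J (y, s)) y < ε := by
  intro ε hε
  have hG : ∀ y : Y, ∀ᶠ q in 𝓝 ((y, y) : Y × Y), ∀ s ∈ Icc (0 : ℝ) 1,
      cc s (e q.1) (e q.2) ∈ U ∧ dist (R (cc s (e q.1) (e q.2))) q.1 < ε := by
    intro y
    refine (isCompact_Icc).eventually_forall_of_forall_eventually ?_
    intro v _
    have hc : Continuous (fun z : (Y × Y) × ℝ => cc z.2 (e z.1.1) (e z.1.2)) :=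
      cc_continuous continuous_snd (he.comp (by fun_prop)) (he.comp (by fun_prop))
    have hm : cc v (e y) (e y) ∈ U := by rw [cc_self]; exact heU y
    have ev1 := (hc.continuousAt (x := ((y, y), v))).eventually (hU.mem_nhds hm)
    have hRc : ContinuousAt (fun z : (Y × Y) × ℝ => R (cc z.2 (e z.1.1) (e z.1.2))) ((y, y), v) :=
      ContinuousAt.comp (g := R) (hR.continuousAt (hU.mem_nhds hm)) hc.continuousAt
    have hdc : ContinuousAt (fun z : (Y × Y) × ℝ =>
        dist (R (cc z.2 (e z.1.1) (e z.1.2))) z.1.1) ((y, y), v) :=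
      hRc.dist (continuous_fst.comp continuous_fst).continuousAt
    have hval : dist (R (cc v (e y) (e y))) y < ε := by rw [cc_self, hRe, dist_self]; exact hε
    have ev2 := hdc.eventually (gt_mem_nhds hval)
    filter_upwards [ev1, ev2] with z h1 h2 using ⟨h1, h2⟩
  let O : Set (Y × Y) := interior {q | ∀ s ∈ Icc (0 : ℝ) 1,
      cc s (e q.1) (e q.2) ∈ U ∧ dist (R (cc s (e q.1) (e q.2))) q.1 < ε}
  obtain ⟨δ, δpos, hδ⟩ := exists_eps (fun q : Y × Y => dist q.1 q.2) (by fun_prop)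
    (fun q => dist_nonneg) O isOpen_interior (by
      rintro ⟨y, y'⟩ hq
      have : y = y' := dist_eq_zero.1 hq
      subst this
      exact mem_interior_iff_mem_nhds.2 (hG y))
  refine ⟨δ, δpos, fun g gc gd => ?_⟩
  have key : ∀ y, ∀ s ∈ Icc (0 : ℝ) 1,
      cc s (e y) (e (g y)) ∈ U ∧ dist (R (cc s (e y) (e (g y)))) y < ε := by
    intro y
    have : (y, g y) ∈ O := hδ (y, g y) (by
      show dist y (g y) ≤ δ
      rw [dist_comm]; exact (gd y).le)
    exact interior_subset this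
  refine ⟨fun p => R (cc (cl p.2) (e p.1) (e (g p.1))), ?_, ?_, ?_, ?_⟩
  · refine hR.comp_continuous ?_ (fun p => (key p.1 _ (cl_mem _)).1)
    exact cc_continuous (cl_cont.comp continuous_snd) (he.comp continuous_fst)
      (he.comp (gc.comp continuous_fst))
  · intro y
    have : cl 0 = 0 := cl_of_le le_rfl
    simp only [this, cc_zero, hRe]
  · intro y
    have : cl 1 = 1 := cl_of_ge le_rfl
    simp only [this, cc_one, hRe]
  · intro y s _
    exact (key y _ (cl_mem _)).2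

include he hU heU hR hRe in
/-- extension of a contraction of `A` in `Y` -/
theorem exists_contr (A : Set Y) (hA : IsClosed A) (hne : A.Nonempty) (b : Y)
    (G : Y × unitInterval → Y) (hG : ContinuousOn G (A ×ˢ univ)) (G0 : ∀ a ∈ A, G (a, 0) = a)
    (G1 : ∀ a ∈ A, G (a, 1) = b) :
    ∃ C : Y × ℝ → Y, Continuous C ∧ (∀ x, C (x, 0) = x) ∧
      ∃ O : Set Y, IsOpen O ∧ A ⊆ O ∧ ∀ x ∈ O, C (x, 1) = b := by
  classical
  let Ψ : Y × unitInterval → Q := fun p => if p.2 = 0 then e p.1 else e (G p)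
  let S1 : Set (Y × unitInterval) := {p | p.2 = 0}
  let S2 : Set (Y × unitInterval) := A ×ˢ univ
  have hS1 : IsClosed S1 := isClosed_eq continuous_snd continuous_const
  have hS2 : IsClosed S2 := hA.prod isClosed_univ
  have c1 : ContinuousOn Ψ S1 := by
    have : ContinuousOn (fun p : Y × unitInterval => e p.1) S1 :=
      (he.comp continuous_fst).continuousOn
    refine this.congr (fun p hp => if_pos hp)
  have c2 : ContinuousOn Ψ S2 := by
    have : ContinuousOn (fun p : Y × unitInterval => e (G p)) S2 := he.comp_continuousOn hG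
    refine this.congr (fun p hp => ?_)
    by_cases h0 : p.2 = 0
    · have : Ψ p = e p.1 := if_pos h0
      rw [this]
      have : p = (p.1, 0) := by rw [← h0]
      show e p.1 = e (G p)
      rw [this, G0 p.1 hp.1]
    · exact if_neg h0
  have c12 : ContinuousOn Ψ (S1 ∪ S2) := c1.union_of_isClosed c2 hS1 hS2
  obtain ⟨g, hg⟩ := ContinuousMap.exists_restrict_eq (hS1.union hS2)
    (⟨(S1 ∪ S2).domRestrict Ψ, c12.domRestrict⟩ : C((S1 ∪ S2 : Set (Y × unitInterval)), Q))
  have hgΨ : ∀ p ∈ S1 ∪ S2, g p = Ψ p := fun p hp => by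
    have := DFunLike.congr_fun hg ⟨p, hp⟩
    exact this
  have g0 : ∀ x, g (x, 0) = e x := fun x => by
    rw [hgΨ (x, 0) (Or.inl rfl)]; exact if_pos rfl
  have gA : ∀ a ∈ A, ∀ w, g (a, w) = e (G (a, w)) := fun a ha w => by
    rw [hgΨ (a, w) (Or.inr ⟨ha, mem_univ _⟩)]
    by_cases h0 : w = 0
    · subst h0
      rw [G0 a ha]; exact if_pos rfl
    · exact if_neg h0
  let N1 : Set Y := (Prod.fst '' {p : Y × unitInterval | g p ∉ U})ᶜ
  have hN1 : IsOpen N1 := by
    have hcl : IsClosed {p : Y × unitInterval | g p ∉ U} :=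
      hU.isClosed_compl.preimage g.continuous
    exact ((hcl.isCompact.image continuous_fst).isClosed).isOpen_compl
  have hN1' : ∀ x ∈ N1, ∀ w, g (x, w) ∈ U := fun x hx w => by
    by_contra hw
    exact hx ⟨(x, w), hw, rfl⟩
  have hAN1 : A ⊆ N1 := by
    rintro a ha ⟨⟨a', w⟩, hw, haa⟩
    simp only at haa
    subst haa
    apply hw
    rw [gA a' ha w]
    exact heU _
  let N2 : Set Y := (Prod.fst '' {p : Y × unitInterval | cc p.2 (g (p.1, 1)) (e b) ∉ U})ᶜ
  have hN2 : IsOpen N2 := by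
    have hc : Continuous (fun p : Y × unitInterval => cc p.2 (g (p.1, 1)) (e b)) :=
      cc_continuous (by fun_prop) (g.continuous.comp (by fun_prop)) continuous_const
    have hcl : IsClosed {p : Y × unitInterval | cc p.2 (g (p.1, 1)) (e b) ∉ U} :=
      hU.isClosed_compl.preimage hc
    exact ((hcl.isCompact.image continuous_fst).isClosed).isOpen_compl
  have hN2' : ∀ x ∈ N2, ∀ w ∈ Icc (0 : ℝ) 1, cc w (g (x, 1)) (e b) ∈ U := fun x hx w hw => by
    by_contra hw'
    exact hx ⟨(x, ⟨w, hw⟩), hw', rfl⟩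
  have hAN2 : A ⊆ N2 := by
    rintro a ha ⟨⟨a', w⟩, hw, haa⟩
    simp only at haa
    subst haa
    apply hw
    rw [gA a' ha 1, G1 a' ha, cc_self]
    exact heU _
  obtain ⟨χ1, χ1c, χ1I, χ1N, O1, hO1, hAO1, hχ1⟩ := exists_cutoff A hA hne N1 hN1 hAN1
  obtain ⟨χ2, χ2c, χ2I, χ2N, O2, hO2, hAO2, hχ2⟩ := exists_cutoff A hA hne (N2 ∩ O1)
    (hN2.inter hO1) (subset_inter hAN2 hAO1)
  have mI : ∀ p : Y × ℝ, cl (2 * p.2) * χ1 p.1 ∈ Icc (0 : ℝ) 1 := fun p =>
    ⟨mul_nonneg (cl_nonneg _) (χ1I _).1, mul_le_one₀ (cl_le _) (χ1I _).1 (χ1I _).2⟩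
  let φ : Y × ℝ → Q := fun p =>
    cc (cl (2 * p.2 - 1) * χ2 p.1) (g (p.1, ⟨cl (2 * p.2) * χ1 p.1, mI p⟩)) (e b)
  have φc : Continuous φ := by
    refine cc_continuous ?_ (g.continuous.comp (continuous_fst.prodMk ?_)) continuous_const
    · exact (cl_cont.comp (by fun_prop)).mul (χ2c.comp continuous_fst)
    · refine Continuous.subtype_mk ?_ _
      exact (cl_cont.comp (by fun_prop)).mul (χ1c.comp continuous_fst)
  have φU : ∀ p, φ p ∈ U := by
    rintro ⟨x, w⟩
    by_cases h2 : χ2 x = 0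
    · have : φ (x, w) = g (x, ⟨cl (2 * w) * χ1 x, mI (x, w)⟩) := by
        show cc (cl (2 * w - 1) * χ2 x) _ _ = _
        rw [h2, mul_zero, cc_zero]
      rw [this]
      by_cases h1 : χ1 x = 0
      · have e0 : (⟨cl (2 * w) * χ1 x, mI (x, w)⟩ : unitInterval) = 0 := by
          apply Subtype.ext
          show cl (2 * w) * χ1 x = 0
          rw [h1, mul_zero]
        rw [e0, g0]; exact heU x
      · exact hN1' x (χ1N x h1) _
    · have hx := χ2N x h2
      have h1 : χ1 x = 1 := hχ1 x hx.2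
      rcases le_or_gt (2 * w - 1) 0 with hw | hw
      · have : φ (x, w) = g (x, ⟨cl (2 * w) * χ1 x, mI (x, w)⟩) := by
          show cc (cl (2 * w - 1) * χ2 x) _ _ = _
          rw [cl_of_le hw, zero_mul, cc_zero]
        rw [this]
        exact hN1' x (χ1N x (by rw [h1]; exact one_ne_zero)) _
      · have e1 : (⟨cl (2 * w) * χ1 x, mI (x, w)⟩ : unitInterval) = 1 := by
          apply Subtype.ext
          show cl (2 * w) * χ1 x = 1
          rw [h1, cl_of_ge (by linarith), one_mul]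
        show cc (cl (2 * w - 1) * χ2 x) (g (x, ⟨cl (2 * w) * χ1 x, mI (x, w)⟩)) (e b) ∈ U
        rw [e1]
        exact hN2' x hx.1 _ ⟨mul_nonneg (cl_nonneg _) (χ2I x).1,
          mul_le_one₀ (cl_le _) (χ2I x).1 (χ2I x).2⟩
  refine ⟨fun p => R (φ p), hR.comp_continuous φc φU, ?_, O2, hO2, hAO2, ?_⟩
  · intro x
    have e0 : (⟨cl (2 * (0 : ℝ)) * χ1 x, mI (x, 0)⟩ : unitInterval) = 0 := by
      apply Subtype.ext
      show cl (2 * (0 : ℝ)) * χ1 x = 0
      rw [cl_of_le (by norm_num), zero_mul]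
    show R (cc (cl (2 * (0 : ℝ) - 1) * χ2 x) (g (x, ⟨cl (2 * (0 : ℝ)) * χ1 x, mI (x, 0)⟩)) (e b)) = x
    rw [e0, cl_of_le (by norm_num), zero_mul, cc_zero, g0, hRe]
  · intro x hx
    show R (cc (cl (2 * (1 : ℝ) - 1) * χ2 x) _ (e b)) = b
    rw [hχ2 x hx, cl_of_ge (by norm_num), one_mul, cc_one, hRe]

include he hU heU hR hRe in
/-- The fixed point theorem for a compact metric space `Y` that is a neighbourhood retract of the
Hilbert cube. -/
theorem main_Y (A : Set Y) (hA : IsClosed A) (hne : A.Nonempty)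
    (HZ : ∀ δ > 0, ∃ g : Y → Y, Continuous g ∧ (∀ y, dist (g y) y < δ) ∧ ∀ y, g y ∉ A)
    (b : Y) (G : Y × unitInterval → Y) (hG : ContinuousOn G (A ×ˢ univ))
    (G0 : ∀ a ∈ A, G (a, 0) = a) (G1 : ∀ a ∈ A, G (a, 1) = b) :
    ∃ f : Y → Y, Continuous f ∧ ∀ x, f x = x ↔ x ∈ A := by
  obtain ⟨c, hc⟩ := hne
  obtain ⟨h, hh, h0, h1⟩ := exists_zhom A hA (exists_LC e he U hU heU R hR hRe) HZ
  obtain ⟨C, hC, C0, O, hO, hAO, C1⟩ :=
    exists_contr e he U hU heU R hR hRe A hA ⟨c, hc⟩ b G hG G0 G1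
  obtain ⟨k, hk, k0, kc, W, hW, hcW, k1⟩ := exists_local e he U hU heU R hR hRe c
  exact core A hA c hc h hh h0 h1 C hC C0 b O hO hAO C1 k hk k0 kc W hW hcW k1

end ANR

end Pool.Helper63.ZFix
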