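import Mathlib

set_option autoImplicit false

/-!
# The Prékopa–Leindler and Brunn–Minkowski inequalities

`PLp μ t`: the Prékopa–Leindler inequality with parameter `t` for the measure `μ` on a real vector
space.  It is proved for `ℝ`, products, `Fin n → ℝ` and `EuclideanSpace ℝ (Fin n)`.
-/

open MeasureTheory ENNReal Set Filter Topology
open scoped Pointwise

namespace Pool.Agent.helper63.PL

/-- Prékopa–Leindler inequality with parameter `t`. -/
def PLp {E : Type*} [AddCommGroup E] [Module ℝ E] [MeasurableSpace E] (μ : Measure E)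
    (t : ℝ) : Prop :=
  ∀ f g h : E → ℝ≥0∞, Measurable f → Measurable g → Measurable h →
    (∀ x y, f x ^ (1 - t) * g y ^ t ≤ h ((1 - t) • x + t • y)) →
    (∫⁻ x, f x ∂μ) ^ (1 - t) * (∫⁻ x, g x ∂μ) ^ t ≤ ∫⁻ x, h x ∂μ

/-- one-dimensional Brunn–Minkowski for compact sets -/
theorem bm1_compact {K L : Set ℝ} (hK : IsCompact K) (hL : IsCompact L) (hKn : K.Nonempty)
    (hLn : L.Nonempty) {C : Set ℝ} (hC : ∀ x ∈ K, ∀ y ∈ L, x + y ∈ C) :
    volume K + volume L ≤ volume C := by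
  obtain ⟨a, haK, ha⟩ := hK.exists_isGreatest hKn
  obtain ⟨b, hbL, hb⟩ := hL.exists_isLeast hLn
  have h1 : volume ((fun x => x + b) '' K) = volume K := by
    rw [Set.image_add_right, measure_preimage_add_right]
  have h2 : volume ((fun x => a + x) '' L) = volume L := by
    rw [Set.image_add_left, measure_preimage_add]
  have hm : MeasurableSet ((fun x => a + x) '' L) :=
    (hL.image (continuous_const.add continuous_id)).measurableSet
  have hd : AEDisjoint volume ((fun x => x + b) '' K) ((fun x => a + x) '' L) := by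
    refine measure_mono_null (t := {a + b}) ?_ (by simp)
    rintro z ⟨⟨x, hx, rfl⟩, ⟨y, hy, hxy⟩⟩
    have e1 := ha hx
    have e2 := hb hy
    simp only at hxy
    rw [mem_singleton_iff]
    simp only
    linarith
  rw [← h1, ← h2, ← measure_union₀ hm.nullMeasurableSet hd]
  apply measure_mono
  rintro z (⟨x, hx, rfl⟩ | ⟨y, hy, rfl⟩)
  · exact hC x hx b hbL
  · exact hC a haK y hy

/-- one-dimensional Brunn–Minkowski for measurable sets -/
theorem bm1 {A B : Set ℝ} (hA : MeasurableSet A) (hB : MeasurableSet B) (hAn : A.Nonempty)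
    (hBn : B.Nonempty) {C : Set ℝ} (hC : ∀ x ∈ A, ∀ y ∈ B, x + y ∈ C) :
    volume A + volume B ≤ volume C := by
  rcases eq_or_ne (volume C) ∞ with hCt | hCt
  · rw [hCt]; exact le_top
  obtain ⟨a, ha⟩ := hAn
  obtain ⟨b, hb⟩ := hBn
  have hAt : volume A ≠ ∞ := by
    have h1 : volume ((fun x => x + b) '' A) = volume A := by
      rw [Set.image_add_right, measure_preimage_add_right]
    rw [← h1]
    refine ne_top_of_le_ne_top hCt (measure_mono ?_)
    rintro z ⟨x, hx, rfl⟩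
    exact hC x hx b hb
  have hBt : volume B ≠ ∞ := by
    have h1 : volume ((fun x => a + x) '' B) = volume B := by
      rw [Set.image_add_left, measure_preimage_add]
    rw [← h1]
    refine ne_top_of_le_ne_top hCt (measure_mono ?_)
    rintro z ⟨x, hx, rfl⟩
    exact hC a ha x hx
  refine ENNReal.le_of_forall_pos_le_add fun ε hε _ => ?_
  have hε2 : ((ε / 2 : NNReal) : ℝ≥0∞) ≠ 0 := by
    simp [hε.ne']
  obtain ⟨K, hKA, hK, hK1⟩ := hA.exists_isCompact_lt_add hAt hε2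
  obtain ⟨L, hLB, hL, hL1⟩ := hB.exists_isCompact_lt_add hBt hε2
  have hK' : IsCompact (insert a K) := hK.insert a
  have hL' : IsCompact (insert b L) := hL.insert b
  have hKA' : insert a K ⊆ A := insert_subset ha hKA
  have hLB' : insert b L ⊆ B := insert_subset hb hLB
  have h1 := bm1_compact hK' hL' (insert_nonempty _ _) (insert_nonempty _ _) (C := C)
    (fun x hx y hy => hC x (hKA' hx) y (hLB' hy))
  have h2 : volume K ≤ volume (insert a K) := measure_mono (subset_insert _ _)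
  have h3 : volume L ≤ volume (insert b L) := measure_mono (subset_insert _ _)
  calc volume A + volume B ≤ (volume K + (ε / 2 : NNReal)) + (volume L + (ε / 2 : NNReal)) :=
        add_le_add hK1.le hL1.le
    _ = (volume K + volume L) + ((ε / 2 : NNReal) + (ε / 2 : NNReal) : ℝ≥0∞) := by ring
    _ = (volume K + volume L) + ε := by
        congr 1
        rw [← ENNReal.coe_add, add_halves]
    _ ≤ volume C + ε := by gcongr; exact (add_le_add h2 h3).trans h1

/-- scaled one-dimensional Brunn–Minkowski -/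
theorem bm1_smul {t : ℝ} (ht0 : 0 < t) (ht1 : t < 1) {A B : Set ℝ} (hA : MeasurableSet A)
    (hB : MeasurableSet B) (hAn : A.Nonempty) (hBn : B.Nonempty) {C : Set ℝ}
    (hC : ∀ x ∈ A, ∀ y ∈ B, (1 - t) * x + t * y ∈ C) :
    ENNReal.ofReal (1 - t) * volume A + ENNReal.ofReal t * volume B ≤ volume C := by
  have h1t : 0 < 1 - t := by linarith
  have e1 : volume ((1 - t) • A) = ENNReal.ofReal (1 - t) * volume A := by
    rw [Measure.addHaar_smul_of_nonneg _ h1t.le]; simp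
  have e2 : volume (t • B) = ENNReal.ofReal t * volume B := by
    rw [Measure.addHaar_smul_of_nonneg _ ht0.le]; simp
  rw [← e1, ← e2]
  refine bm1 (hA.const_smul₀ _) (hB.const_smul₀ _) (hAn.smul_set) (hBn.smul_set) ?_
  rintro _ ⟨x, hx, rfl⟩ _ ⟨y, hy, rfl⟩
  exact hC x hx y hy

/-- layer-cake formula for `ℝ≥0∞`-valued functions -/
theorem layer {α : Type*} [MeasurableSpace α] (μ : Measure α) [SFinite μ] {f : α → ℝ≥0∞}
    (hf : Measurable f) :
    ∫⁻ x, f x ∂μ = ∫⁻ s in Ioi (0 : ℝ), μ {x | ENNReal.ofReal s < f x} := by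
  have hm : MeasurableSet {p : ℝ × α | ENNReal.ofReal p.1 < f p.2} :=
    measurableSet_lt (by fun_prop) (by fun_prop)
  have h1 : ∀ x, f x = ∫⁻ s in Ioi (0 : ℝ), indicator {p : ℝ × α | ENNReal.ofReal p.1 < f p.2}
      (fun _ => (1 : ℝ≥0∞)) (s, x) := by
    intro x
    have h2 : ∀ s : ℝ, indicator {p : ℝ × α | ENNReal.ofReal p.1 < f p.2}
        (fun _ => (1 : ℝ≥0∞)) (s, x) = indicator {s : ℝ | ENNReal.ofReal s < f x} 1 s := by
      intro s
      simp [indicator]
    simp only [h2]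
    rw [lintegral_indicator_one (measurableSet_lt (by fun_prop) (by fun_prop)),
      Measure.restrict_apply (measurableSet_lt (by fun_prop) (by fun_prop))]
    rcases eq_or_ne (f x) ∞ with hx | hx
    · simp [hx, ENNReal.ofReal_lt_top]
    · have h3 : {s : ℝ | ENNReal.ofReal s < f x} ∩ Ioi 0 = Ioo 0 (f x).toReal := by
        ext s
        simp only [mem_inter_iff, mem_ofPred_eq, mem_Ioi, mem_Ioo]
        constructor
        · rintro ⟨ha, hb⟩
          exact ⟨hb, (ENNReal.ofReal_lt_iff_lt_toReal hb.le hx).1 ha⟩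
        · rintro ⟨ha, hb⟩
          exact ⟨(ENNReal.ofReal_lt_iff_lt_toReal ha.le hx).2 hb, ha⟩
      rw [h3, Real.volume_Ioo, sub_zero, ENNReal.ofReal_toReal hx]
  have hm1 : Measurable (indicator {p : ℝ × α | ENNReal.ofReal p.1 < f p.2}
      (fun _ => (1 : ℝ≥0∞))) := measurable_const.indicator hm
  calc ∫⁻ x, f x ∂μ = ∫⁻ x, (∫⁻ s in Ioi (0 : ℝ),
        indicator {p : ℝ × α | ENNReal.ofReal p.1 < f p.2} (fun _ => (1 : ℝ≥0∞)) (s, x)) ∂μ := by
        exact lintegral_congr h1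
    _ = ∫⁻ s in Ioi (0 : ℝ), (∫⁻ x,
        indicator {p : ℝ × α | ENNReal.ofReal p.1 < f p.2} (fun _ => (1 : ℝ≥0∞)) (s, x) ∂μ) := by
        rw [lintegral_lintegral_swap]
        exact (hm1.comp measurable_swap).aemeasurable
    _ = _ := by
        refine lintegral_congr fun s => ?_
        have h2 : ∀ x : α, indicator {p : ℝ × α | ENNReal.ofReal p.1 < f p.2}
            (fun _ => (1 : ℝ≥0∞)) (s, x) = indicator {x | ENNReal.ofReal s < f x} 1 x := by
          intro x
          simp [indicator]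
        simp only [h2]
        rw [lintegral_indicator_one (measurableSet_lt (by fun_prop) (by fun_prop))]

/-- weighted arithmetic-geometric mean inequality in `ℝ≥0∞` -/
theorem amgm {t : ℝ} (ht0 : 0 < t) (ht1 : t < 1) (a b : ℝ≥0∞) :
    a ^ (1 - t) * b ^ t ≤ ENNReal.ofReal (1 - t) * a + ENNReal.ofReal t * b := by
  have h1t : 0 < 1 - t := by linarith
  rcases eq_or_ne a ∞ with ha | ha
  · rw [ha, ENNReal.mul_top (by simpa using h1t)]
    simp
  rcases eq_or_ne b ∞ with hb | hb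
  · rw [hb, ENNReal.mul_top (by simpa using ht0)]
    simp
  lift a to NNReal using ha
  lift b to NNReal using hb
  have h := NNReal.geom_mean_le_arith_mean2_weighted (Real.toNNReal (1 - t)) (Real.toNNReal t) a b
    (by rw [← Real.toNNReal_add h1t.le ht0.le]; simp)
  rw [Real.coe_toNNReal _ h1t.le, Real.coe_toNNReal _ ht0.le] at h
  rw [← ENNReal.coe_rpow_of_nonneg _ h1t.le, ← ENNReal.coe_rpow_of_nonneg _ ht0.le]
  unfold ENNReal.ofReal
  exact_mod_cast h

/-- Prékopa–Leindler on the line, functions with supremum one -/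
theorem pl1_aux {t : ℝ} (ht0 : 0 < t) (ht1 : t < 1) {f g h : ℝ → ℝ≥0∞} (hf : Measurable f)
    (hg : Measurable g) (hh : Measurable h)
    (H : ∀ x y, f x ^ (1 - t) * g y ^ t ≤ h ((1 - t) • x + t • y)) (sf : ⨆ x, f x = 1)
    (sg : ⨆ x, g x = 1) :
    (∫⁻ x, f x) ^ (1 - t) * (∫⁻ x, g x) ^ t ≤ ∫⁻ x, h x := by
  have h1t : 0 < 1 - t := by linarith
  have key : ∀ s ∈ Ioo (0 : ℝ) 1, ENNReal.ofReal (1 - t) * volume {x | ENNReal.ofReal s < f x} +
      ENNReal.ofReal t * volume {x | ENNReal.ofReal s < g x} ≤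
      volume {x | ENNReal.ofReal s < h x} := by
    intro s hs
    have hs1 : ENNReal.ofReal s < 1 := by rw [ENNReal.ofReal_lt_one]; exact hs.2
    have nf : {x | ENNReal.ofReal s < f x}.Nonempty := by
      rw [← sf, lt_iSup_iff] at hs1
      exact hs1
    have ng : {x | ENNReal.ofReal s < g x}.Nonempty := by
      rw [← sg, lt_iSup_iff] at hs1
      exact hs1
    refine bm1_smul ht0 ht1 (measurableSet_lt measurable_const hf)
      (measurableSet_lt measurable_const hg) nf ng ?_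
    intro x hx y hy
    refine lt_of_lt_of_le ?_ (H x y)
    have hs0 : ENNReal.ofReal s ≠ 0 := by simpa using hs.1
    have hst : ENNReal.ofReal s ≠ ∞ := ENNReal.ofReal_ne_top
    calc ENNReal.ofReal s = ENNReal.ofReal s ^ (1 - t) * ENNReal.ofReal s ^ t := by
          rw [← ENNReal.rpow_add _ _ hs0 hst, sub_add_cancel, ENNReal.rpow_one]
      _ < f x ^ (1 - t) * g y ^ t :=
          ENNReal.mul_lt_mul (ENNReal.rpow_lt_rpow hx h1t) (ENNReal.rpow_lt_rpow hy ht0)
  have hcut : ∀ {u : ℝ → ℝ≥0∞}, Measurable u → (⨆ x, u x = 1) →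
      ∫⁻ x, u x = ∫⁻ s in Ioo (0 : ℝ) 1, volume {x | ENNReal.ofReal s < u x} := by
    intro u hu su
    have hd : Disjoint (Ioo (0 : ℝ) 1) (Ici 1) := by
      rw [Set.disjoint_left]
      intro x hx hx'
      exact absurd hx.2 (not_lt.2 hx')
    rw [layer volume hu, ← Ioo_union_Ici_eq_Ioi (zero_lt_one' ℝ),
      lintegral_union measurableSet_Ici hd]
    conv_rhs => rw [← add_zero (∫⁻ s in Ioo (0 : ℝ) 1, volume {x | ENNReal.ofReal s < u x})]
    congr 1
    rw [setLIntegral_congr_fun (g := fun _ => 0) measurableSet_Ici, lintegral_zero]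
    intro s hs
    rw [mem_Ici] at hs
    have : {x | ENNReal.ofReal s < u x} = ∅ := by
      ext x
      simp only [mem_ofPred_eq, mem_empty_iff_false, iff_false, not_lt]
      calc u x ≤ ⨆ x, u x := le_iSup u x
        _ = 1 := su
        _ ≤ ENNReal.ofReal s := by rwa [ENNReal.one_le_ofReal]
    simp only [this, measure_empty]
  have hmf : Measurable fun s : ℝ => volume {x | ENNReal.ofReal s < f x} :=
    Antitone.measurable fun a b hab => measure_mono fun x hx =>
      lt_of_le_of_lt (ENNReal.ofReal_le_ofReal hab) hx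
  have hmg : Measurable fun s : ℝ => volume {x | ENNReal.ofReal s < g x} :=
    Antitone.measurable fun a b hab => measure_mono fun x hx =>
      lt_of_le_of_lt (ENNReal.ofReal_le_ofReal hab) hx
  calc (∫⁻ x, f x) ^ (1 - t) * (∫⁻ x, g x) ^ t
      ≤ ENNReal.ofReal (1 - t) * (∫⁻ x, f x) + ENNReal.ofReal t * (∫⁻ x, g x) :=
        amgm ht0 ht1 _ _
    _ = ∫⁻ s in Ioo (0 : ℝ) 1, (ENNReal.ofReal (1 - t) * volume {x | ENNReal.ofReal s < f x} +
      ENNReal.ofReal t * volume {x | ENNReal.ofReal s < g x}) := by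
        rw [hcut hf sf, hcut hg sg, lintegral_add_left (hmf.const_mul _),
          lintegral_const_mul _ hmf, lintegral_const_mul _ hmg]
    _ ≤ ∫⁻ s in Ioo (0 : ℝ) 1, volume {x | ENNReal.ofReal s < h x} :=
        setLIntegral_mono' measurableSet_Ioo key
    _ ≤ ∫⁻ s in Ioi (0 : ℝ), volume {x | ENNReal.ofReal s < h x} :=
        lintegral_mono_set Ioo_subset_Ioi_self
    _ = ∫⁻ x, h x := (layer volume hh).symm

/-- Prékopa–Leindler on the line, bounded functions -/
theorem pl1_bdd {t : ℝ} (ht0 : 0 < t) (ht1 : t < 1) {f g h : ℝ → ℝ≥0∞} (hf : Measurable f)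
    (hg : Measurable g) (hh : Measurable h)
    (H : ∀ x y, f x ^ (1 - t) * g y ^ t ≤ h ((1 - t) • x + t • y)) (sf : ⨆ x, f x ≠ ∞)
    (sg : ⨆ x, g x ≠ ∞) :
    (∫⁻ x, f x) ^ (1 - t) * (∫⁻ x, g x) ^ t ≤ ∫⁻ x, h x := by
  have h1t : 0 < 1 - t := by linarith
  rcases eq_or_ne (⨆ x, f x) 0 with sf0 | sf0
  · have : ∀ x, f x = 0 := by simpa using sf0
    simp [this, h1t]
  rcases eq_or_ne (⨆ x, g x) 0 with sg0 | sg0
  · have : ∀ x, g x = 0 := by simpa using sg0
    simp [this, ht0]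
  set a := (⨆ x, f x)⁻¹ with ha
  set b := (⨆ x, g x)⁻¹ with hb
  have ha0 : a ≠ 0 := by rw [ha]; simpa using sf
  have hat : a ≠ ∞ := by rw [ha]; simpa using sf0
  have hb0 : b ≠ 0 := by rw [hb]; simpa using sg
  have hbt : b ≠ ∞ := by rw [hb]; simpa using sg0
  have e1 : ⨆ x, a * f x = 1 := by
    rw [← ENNReal.mul_iSup, ha, ENNReal.inv_mul_cancel sf0 sf]
  have e2 : ⨆ x, b * g x = 1 := by
    rw [← ENNReal.mul_iSup, hb, ENNReal.inv_mul_cancel sg0 sg]
  have hc0 : a ^ (1 - t) * b ^ t ≠ 0 := by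
    refine mul_ne_zero ?_ ?_
    · rw [Ne, ENNReal.rpow_eq_zero_iff]
      push Not
      exact ⟨fun h => absurd h ha0, fun h => absurd h hat⟩
    · rw [Ne, ENNReal.rpow_eq_zero_iff]
      push Not
      exact ⟨fun h => absurd h hb0, fun h => absurd h hbt⟩
  have hct : a ^ (1 - t) * b ^ t ≠ ∞ :=
    ENNReal.mul_ne_top (ENNReal.rpow_ne_top_of_nonneg h1t.le hat)
      (ENNReal.rpow_ne_top_of_nonneg ht0.le hbt)
  have main := pl1_aux ht0 ht1 (f := fun x => a * f x) (g := fun x => b * g x)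
    (h := fun x => a ^ (1 - t) * b ^ t * h x) (hf.const_mul _) (hg.const_mul _) (hh.const_mul _)
    (fun x y => by
      rw [ENNReal.mul_rpow_of_nonneg _ _ h1t.le, ENNReal.mul_rpow_of_nonneg _ _ ht0.le]
      calc a ^ (1 - t) * f x ^ (1 - t) * (b ^ t * g y ^ t)
          = a ^ (1 - t) * b ^ t * (f x ^ (1 - t) * g y ^ t) := by ring
        _ ≤ _ := by gcongr; exact H x y) e1 e2
  rw [lintegral_const_mul _ hf, lintegral_const_mul _ hg, lintegral_const_mul _ hh,
    ENNReal.mul_rpow_of_nonneg _ _ h1t.le, ENNReal.mul_rpow_of_nonneg _ _ ht0.le,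
    show a ^ (1 - t) * (∫⁻ x, f x) ^ (1 - t) * (b ^ t * (∫⁻ x, g x) ^ t) =
      a ^ (1 - t) * b ^ t * ((∫⁻ x, f x) ^ (1 - t) * (∫⁻ x, g x) ^ t) by ring,
    ENNReal.mul_le_mul_iff_right hc0 hct] at main
  exact main

/-- truncation -/
theorem lintegral_trunc {α : Type*} [MeasurableSpace α] (μ : Measure α) {f : α → ℝ≥0∞}
    (hf : Measurable f) :
    Tendsto (fun n : ℕ => ∫⁻ x, min (f x) n ∂μ) atTop (𝓝 (∫⁻ x, f x ∂μ)) := by
  apply lintegral_tendsto_of_tendsto_of_monotone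
  · intro n
    exact (hf.min measurable_const).aemeasurable
  · refine Eventually.of_forall fun x m n hmn => ?_
    exact min_le_min_left _ (by exact_mod_cast hmn)
  · refine Eventually.of_forall fun x => ?_
    have h1 : Tendsto (fun n : ℕ => min (f x) (n : ℝ≥0∞)) atTop (𝓝 (min (f x) ∞)) :=
      tendsto_const_nhds.min ENNReal.tendsto_nat_nhds_top
    simpa using h1

/-- **Prékopa–Leindler on the line** -/
theorem pl1 {t : ℝ} (ht0 : 0 < t) (ht1 : t < 1) : PLp (volume : Measure ℝ) t := by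
  intro f g h hf hg hh H
  have h1t : 0 < 1 - t := by linarith
  rcases eq_or_ne (∫⁻ x, f x) 0 with f0 | f0
  · rw [f0, ENNReal.zero_rpow_of_pos h1t, zero_mul]
    exact bot_le
  rcases eq_or_ne (∫⁻ x, g x) 0 with g0 | g0
  · rw [g0, ENNReal.zero_rpow_of_pos ht0, mul_zero]
    exact bot_le
  have hlim : Tendsto (fun n : ℕ => (∫⁻ x, min (f x) n) ^ (1 - t) * (∫⁻ x, min (g x) n) ^ t)
      atTop (𝓝 ((∫⁻ x, f x) ^ (1 - t) * (∫⁻ x, g x) ^ t)) := by
    refine ENNReal.Tendsto.mul ?_ (Or.inl ?_) ?_ (Or.inl ?_)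
    · exact (ENNReal.continuous_rpow_const.tendsto _).comp (lintegral_trunc _ hf)
    · rw [Ne, ENNReal.rpow_eq_zero_iff]
      push Not
      exact ⟨fun h => absurd h f0, fun _ => h1t.le⟩
    · exact (ENNReal.continuous_rpow_const.tendsto _).comp (lintegral_trunc _ hg)
    · rw [Ne, ENNReal.rpow_eq_zero_iff]
      push Not
      exact ⟨fun h => absurd h g0, fun _ => ht0.le⟩
  refine le_of_tendsto' hlim fun n => ?_
  refine pl1_bdd ht0 ht1 (hf.min measurable_const) (hg.min measurable_const) hh ?_ ?_ ?_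
  · intro x y
    refine le_trans ?_ (H x y)
    gcongr
    · exact min_le_left _ _
    · exact min_le_left _ _
  · exact ne_top_of_le_ne_top (ENNReal.natCast_ne_top n) (iSup_le fun x => min_le_right _ _)
  · exact ne_top_of_le_ne_top (ENNReal.natCast_ne_top n) (iSup_le fun x => min_le_right _ _)

/-- the Prékopa–Leindler inequality for products -/
theorem PLp.prod {E F : Type*} [AddCommGroup E] [Module ℝ E] [MeasurableSpace E] [AddCommGroup F]
    [Module ℝ F] [MeasurableSpace F] {μ : Measure E} {ν : Measure F} [SFinite μ] [SFinite ν] {t : ℝ}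
    (hμ : PLp μ t) (hν : PLp ν t) : PLp (μ.prod ν) t := by
  intro f g h hf hg hh H
  rw [lintegral_prod _ hf.aemeasurable, lintegral_prod _ hg.aemeasurable,
    lintegral_prod _ hh.aemeasurable]
  refine hμ _ _ _ hf.lintegral_prod_right' hg.lintegral_prod_right' hh.lintegral_prod_right' ?_
  intro x x'
  refine hν _ _ _ (hf.comp measurable_prodMk_left) (hg.comp measurable_prodMk_left)
    (hh.comp measurable_prodMk_left) ?_
  intro y y'
  exact H (x, y) (x', y')

/-- transfer along a measure preserving affine equivalence -/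
theorem PLp.transfer {E F : Type*} [AddCommGroup E] [Module ℝ E] [MeasurableSpace E]
    [AddCommGroup F] [Module ℝ F] [MeasurableSpace F] {μ : Measure E} {ν : Measure F} {t : ℝ}
    (hμ : PLp μ t) (e : E ≃ᵐ F) (he : MeasurePreserving e μ ν)
    (hl : ∀ x y, e ((1 - t) • x + t • y) = (1 - t) • e x + t • e y) : PLp ν t := by
  intro f g h hf hg hh H
  rw [← he.lintegral_comp hf, ← he.lintegral_comp hg, ← he.lintegral_comp hh]
  refine hμ _ _ _ (hf.comp e.measurable) (hg.comp e.measurable) (hh.comp e.measurable) ?_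
  intro x y
  rw [hl]
  exact H _ _

/-- **Prékopa–Leindler** in `Fin n → ℝ` -/
theorem pl_pi {t : ℝ} (ht0 : 0 < t) (ht1 : t < 1) (n : ℕ) :
    PLp (volume : Measure (Fin n → ℝ)) t := by
  induction n with
  | zero =>
    intro f g h hf hg hh H
    have e : ∀ u : (Fin 0 → ℝ) → ℝ≥0∞, Measurable u → ∫⁻ x, u x = u 0 := by
      intro u hu
      rw [Measure.volume_pi_eq_dirac (0 : Fin 0 → ℝ), lintegral_dirac' _ hu]
    rw [e f hf, e g hg, e h hh]
    have := H 0 0
    simpa using this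
  | succ n ih =>
    refine PLp.transfer (E := ℝ × (Fin n → ℝ)) ((pl1 ht0 ht1).prod ih)
      (MeasurableEquiv.piFinSuccAbove (fun _ => ℝ) 0).symm
      ((volume_preserving_piFinSuccAbove (fun _ => ℝ) 0).symm _) ?_
    intro x y
    ext i
    refine Fin.cases ?_ (fun j => ?_) i
    · simp [MeasurableEquiv.piFinSuccAbove]
    · simp [MeasurableEquiv.piFinSuccAbove]

/-- **Prékopa–Leindler** in `EuclideanSpace ℝ (Fin n)` -/
theorem pl_euclid {t : ℝ} (ht0 : 0 < t) (ht1 : t < 1) (n : ℕ) :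
    PLp (volume : Measure (EuclideanSpace ℝ (Fin n))) t := by
  refine PLp.transfer (pl_pi ht0 ht1 n) (MeasurableEquiv.toLp 2 (Fin n → ℝ))
    (PiLp.volume_preserving_toLp (Fin n)) ?_
  intro x y
  rfl

/-- Prékopa–Leindler in the plane -/
theorem pl2 {t : ℝ} (ht0 : 0 < t) (ht1 : t < 1) : PLp (volume : Measure (ℝ × ℝ)) t :=
  (pl1 ht0 ht1).prod (pl1 ht0 ht1)

/-- Prékopa–Leindler in space -/
theorem pl3 {t : ℝ} (ht0 : 0 < t) (ht1 : t < 1) : PLp (volume : Measure (ℝ × ℝ × ℝ)) t :=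
  (pl1 ht0 ht1).prod (pl2 ht0 ht1)

/-- **Brunn–Minkowski**, multiplicative form -/
theorem PLp.bm0 {E : Type*} [AddCommGroup E] [Module ℝ E] [MeasurableSpace E] {μ : Measure E}
    {t : ℝ} (hμ : PLp μ t) (ht0 : 0 < t) (ht1 : t < 1) {A B C : Set E} (hA : MeasurableSet A)
    (hB : MeasurableSet B) (hC : MeasurableSet C)
    (H : ∀ x ∈ A, ∀ y ∈ B, (1 - t) • x + t • y ∈ C) : μ A ^ (1 - t) * μ B ^ t ≤ μ C := by
  have h1t : 0 < 1 - t := by linarith
  have h := hμ (A.indicator 1) (B.indicator 1) (C.indicator 1) (measurable_one.indicator hA)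
    (measurable_one.indicator hB) (measurable_one.indicator hC) (fun x y => by
      by_cases hx : x ∈ A
      · by_cases hy : y ∈ B
        · simp [hx, hy, H x hx y hy]
        · simp [hy, ht0]
      · simp [hx, h1t])
  rwa [lintegral_indicator_one hA, lintegral_indicator_one hB, lintegral_indicator_one hC] at h

/-- **Brunn–Minkowski** -/
theorem bm {E : Type*} [NormedAddCommGroup E] [NormedSpace ℝ E] [MeasurableSpace E] [BorelSpace E]
    [FiniteDimensional ℝ E] (μ : Measure E) [μ.IsAddHaarMeasure]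
    (hμ : ∀ t : ℝ, 0 < t → t < 1 → PLp μ t) (n : ℕ) (hn : Module.finrank ℝ E = n) (hn0 : n ≠ 0)
    {A B C : Set E} (hA : MeasurableSet A) (hB : MeasurableSet B) (hC : MeasurableSet C)
    (hAn : A.Nonempty) (hBn : B.Nonempty) (H : ∀ x ∈ A, ∀ y ∈ B, x + y ∈ C) :
    μ A ^ ((n : ℝ)⁻¹) + μ B ^ ((n : ℝ)⁻¹) ≤ μ C ^ ((n : ℝ)⁻¹) := by
  have hn1 : 0 < (n : ℝ)⁻¹ := by
    have : 0 < n := Nat.pos_of_ne_zero hn0
    positivity
  obtain ⟨x0, hx0⟩ := hAn
  obtain ⟨y0, hy0⟩ := hBn
  have hBC : μ B ≤ μ C := by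
    have h1 : μ ((fun x => x0 + x) '' B) = μ B := by
      rw [Set.image_add_left, measure_preimage_add]
    rw [← h1]
    refine measure_mono ?_
    rintro z ⟨x, hx, rfl⟩
    exact H x0 hx0 x hx
  have hAC : μ A ≤ μ C := by
    have h1 : μ ((fun x => x + y0) '' A) = μ A := by
      rw [Set.image_add_right, measure_preimage_add_right]
    rw [← h1]
    refine measure_mono ?_
    rintro z ⟨x, hx, rfl⟩
    exact H x hx y0 hy0
  rcases eq_or_ne (μ C) ∞ with hCt | hCt
  · rw [hCt, ENNReal.top_rpow_of_pos hn1]; exact le_top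
  rcases eq_or_ne (μ A) 0 with hA0 | hA0
  · rw [hA0, ENNReal.zero_rpow_of_pos hn1, zero_add]
    exact ENNReal.rpow_le_rpow hBC hn1.le
  rcases eq_or_ne (μ B) 0 with hB0 | hB0
  · rw [hB0, ENNReal.zero_rpow_of_pos hn1, add_zero]
    exact ENNReal.rpow_le_rpow hAC hn1.le
  have hAt : μ A ≠ ∞ := ne_top_of_le_ne_top hCt hAC
  have hBt : μ B ≠ ∞ := ne_top_of_le_ne_top hCt hBC
  -- real numbers `a`, `b`
  set a : ℝ := (μ A).toReal ^ ((n : ℝ)⁻¹) with ha
  set b : ℝ := (μ B).toReal ^ ((n : ℝ)⁻¹) with hb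
  have ha0 : 0 < a := Real.rpow_pos_of_pos (ENNReal.toReal_pos hA0 hAt) _
  have hb0 : 0 < b := Real.rpow_pos_of_pos (ENNReal.toReal_pos hB0 hBt) _
  have han : ENNReal.ofReal (a ^ n) = μ A := by
    rw [ha, Real.rpow_inv_natCast_pow ENNReal.toReal_nonneg hn0, ENNReal.ofReal_toReal hAt]
  have hbn : ENNReal.ofReal (b ^ n) = μ B := by
    rw [hb, Real.rpow_inv_natCast_pow ENNReal.toReal_nonneg hn0, ENNReal.ofReal_toReal hBt]
  have hab : 0 < a + b := by positivity
  have e1 : μ (a⁻¹ • A) = 1 := by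
    rw [Measure.addHaar_smul_of_nonneg _ (inv_nonneg.2 ha0.le), hn, ← han,
      ← ENNReal.ofReal_mul (by positivity), ← mul_pow, inv_mul_cancel₀ ha0.ne', one_pow,
      ENNReal.ofReal_one]
  have e2 : μ (b⁻¹ • B) = 1 := by
    rw [Measure.addHaar_smul_of_nonneg _ (inv_nonneg.2 hb0.le), hn, ← hbn,
      ← ENNReal.ofReal_mul (by positivity), ← mul_pow, inv_mul_cancel₀ hb0.ne', one_pow,
      ENNReal.ofReal_one]
  have e3 : μ ((a + b)⁻¹ • C) = ENNReal.ofReal ((a + b)⁻¹ ^ n) * μ C := by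
    rw [Measure.addHaar_smul_of_nonneg _ (inv_nonneg.2 hab.le), hn]
  have t0 : 0 < b / (a + b) := by positivity
  have t1 : b / (a + b) < 1 := by rw [div_lt_one hab]; linarith
  have key := (hμ _ t0 t1).bm0 t0 t1 (A := a⁻¹ • A) (B := b⁻¹ • B) (C := (a + b)⁻¹ • C)
    (hA.const_smul₀ _) (hB.const_smul₀ _) (hC.const_smul₀ _) (by
      rintro _ ⟨x, hx, rfl⟩ _ ⟨y, hy, rfl⟩
      refine ⟨x + y, H x hx y hy, ?_⟩
      simp only [smul_smul]
      rw [smul_add]
      congr 2
      · field_simp; ring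
      · field_simp)
  rw [e1, e2, ENNReal.one_rpow, ENNReal.one_rpow, one_mul, e3] at key
  have h2 : ENNReal.ofReal ((a + b) ^ n) ≤ μ C := by
    calc ENNReal.ofReal ((a + b) ^ n) = ENNReal.ofReal ((a + b) ^ n) * 1 := by rw [mul_one]
      _ ≤ ENNReal.ofReal ((a + b) ^ n) * (ENNReal.ofReal ((a + b)⁻¹ ^ n) * μ C) := by
        gcongr
      _ = μ C := by
        rw [← mul_assoc, ← ENNReal.ofReal_mul (by positivity), ← mul_pow,
          mul_inv_cancel₀ hab.ne', one_pow, ENNReal.ofReal_one, one_mul]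
  have e4 : ∀ c : ℝ, 0 < c → ENNReal.ofReal (c ^ n) ^ ((n : ℝ)⁻¹) = ENNReal.ofReal c := by
    intro c hc
    rw [ENNReal.ofReal_rpow_of_pos (by positivity), Real.pow_rpow_inv_natCast hc.le hn0]
  rw [← han, ← hbn, e4 a ha0, e4 b hb0, ← ENNReal.ofReal_add ha0.le hb0.le, ← e4 _ hab]
  exact ENNReal.rpow_le_rpow h2 hn1.le

/-- Brunn–Minkowski in `EuclideanSpace ℝ (Fin n)` -/
theorem bm_euclid {n : ℕ} (hn0 : n ≠ 0) {A B C : Set (EuclideanSpace ℝ (Fin n))}
    (hA : MeasurableSet A) (hB : MeasurableSet B) (hC : MeasurableSet C) (hAn : A.Nonempty)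
    (hBn : B.Nonempty) (H : ∀ x ∈ A, ∀ y ∈ B, x + y ∈ C) :
    volume A ^ ((n : ℝ)⁻¹) + volume B ^ ((n : ℝ)⁻¹) ≤ volume C ^ ((n : ℝ)⁻¹) :=
  bm volume (fun _ h0 h1 => pl_euclid h0 h1 n) n (by simp) hn0 hA hB hC hAn hBn H

/-- Brunn–Minkowski in `Fin n → ℝ` -/
theorem bm_pi {n : ℕ} (hn0 : n ≠ 0) {A B C : Set (Fin n → ℝ)}
    (hA : MeasurableSet A) (hB : MeasurableSet B) (hC : MeasurableSet C) (hAn : A.Nonempty)
    (hBn : B.Nonempty) (H : ∀ x ∈ A, ∀ y ∈ B, x + y ∈ C) :
    volume A ^ ((n : ℝ)⁻¹) + volume B ^ ((n : ℝ)⁻¹) ≤ volume C ^ ((n : ℝ)⁻¹) :=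
  bm volume (fun _ h0 h1 => pl_pi h0 h1 n) n (by simp) hn0 hA hB hC hAn hBn H

/-- Brunn–Minkowski in the plane -/
theorem bm_plane {A B C : Set (ℝ × ℝ)} (hA : MeasurableSet A) (hB : MeasurableSet B)
    (hC : MeasurableSet C) (hAn : A.Nonempty) (hBn : B.Nonempty) (hCt : volume C ≠ ∞)
    (H : ∀ x ∈ A, ∀ y ∈ B, x + y ∈ C) :
    √(volume A).toReal + √(volume B).toReal ≤ √(volume C).toReal := by
  have h := bm (volume : Measure (ℝ × ℝ)) (fun t h0 h1 => pl2 h0 h1) 2 (by simp) two_ne_zero hA hB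
    hC hAn hBn H
  have hc : volume C ^ (((2 : ℕ) : ℝ)⁻¹) ≠ ∞ := ENNReal.rpow_ne_top_of_nonneg (by positivity) hCt
  have h1 := ENNReal.toReal_mono hc h
  have hA' : volume A ^ (((2 : ℕ) : ℝ)⁻¹) ≠ ∞ :=
    ne_top_of_le_ne_top hc (le_trans le_self_add h)
  have hB' : volume B ^ (((2 : ℕ) : ℝ)⁻¹) ≠ ∞ :=
    ne_top_of_le_ne_top hc (le_trans le_add_self h)
  rw [ENNReal.toReal_add hA' hB', ← ENNReal.toReal_rpow, ← ENNReal.toReal_rpow,
    ← ENNReal.toReal_rpow] at h1
  simpa [Real.sqrt_eq_rpow] using h1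

/-- Brunn–Minkowski in the plane, convex combinations -/
theorem bm_plane_conv {t : ℝ} (ht0 : 0 ≤ t) (ht1 : t ≤ 1) {A B C : Set (ℝ × ℝ)}
    (hA : MeasurableSet A) (hB : MeasurableSet B) (hC : MeasurableSet C) (hAn : A.Nonempty)
    (hBn : B.Nonempty) (hCt : volume C ≠ ∞) (H : ∀ x ∈ A, ∀ y ∈ B, (1 - t) • x + t • y ∈ C) :
    (1 - t) * √(volume A).toReal + t * √(volume B).toReal ≤ √(volume C).toReal := by
  have e : ∀ (c : ℝ), 0 ≤ c → ∀ S : Set (ℝ × ℝ), √(volume (c • S)).toReal =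
      c * √(volume S).toReal := by
    intro c hc S
    rw [Measure.addHaar_smul_of_nonneg _ hc, ENNReal.toReal_mul,
      ENNReal.toReal_ofReal (by positivity)]
    have : Module.finrank ℝ (ℝ × ℝ) = 2 := by simp
    rw [this, Real.sqrt_mul (by positivity), Real.sqrt_sq hc]
  rw [← e _ (by linarith), ← e _ ht0]
  refine bm_plane (hA.const_smul₀ _) (hB.const_smul₀ _) hC (hAn.smul_set) (hBn.smul_set) hCt ?_
  rintro _ ⟨x, hx, rfl⟩ _ ⟨y, hy, rfl⟩
  exact H x hx y hy

end Pool.Agent.helper63.PL
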