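import Mathlib

set_option autoImplicit false

/-!
# Inverse power series of quadratic local polynomials
-/

namespace Pool.Agent.helper63.Eul

open Polynomial PowerSeries

variable {S : Type*} [CommRing S]

/-- geometric series -/
noncomputable def geom (α : S) : PowerSeries S := PowerSeries.mk fun k => α ^ k

lemma geom_coeff (α : S) (k : ℕ) : PowerSeries.coeff k (geom α) = α ^ k := by
  simp [geom]

lemma geom_mul (α : S) : geom α * (1 - PowerSeries.C α * PowerSeries.X) = 1 := by
  ext k
  rw [mul_sub, mul_one, map_sub, geom_coeff]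
  cases k with
  | zero => simp
  | succ k =>
    have : geom α * (PowerSeries.C α * PowerSeries.X) = (geom α * PowerSeries.C α) * PowerSeries.X := by
      ring
    rw [this, PowerSeries.coeff_succ_mul_X, PowerSeries.coeff_mul_C, geom_coeff,
      PowerSeries.coeff_one, if_neg (Nat.succ_ne_zero k)]
    ring

/-- uniqueness of inverses -/
lemma invOfUnit_eq {P F : PowerSeries S} (h : F * P = 1) (hP : PowerSeries.constantCoeff P = 1) :
    PowerSeries.invOfUnit P 1 = F := by
  have h1 : P * PowerSeries.invOfUnit P 1 = 1 :=
    PowerSeries.mul_invOfUnit P 1 (by simpa using hP)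
  calc PowerSeries.invOfUnit P 1 = (F * P) * PowerSeries.invOfUnit P 1 := by rw [h, one_mul]
    _ = F * (P * PowerSeries.invOfUnit P 1) := by ring
    _ = F := by rw [h1, mul_one]

lemma map_invOfUnit {T : Type*} [CommRing T] (φ : S →+* T) {P : PowerSeries S}
    (hP : PowerSeries.constantCoeff P = 1) :
    PowerSeries.map φ (PowerSeries.invOfUnit P 1) = PowerSeries.invOfUnit (PowerSeries.map φ P) 1 := by
  symm
  apply invOfUnit_eq
  · rw [← map_mul, mul_comm, PowerSeries.mul_invOfUnit P 1 (by simpa using hP), map_one]
  · rw [← PowerSeries.coeff_zero_eq_constantCoeff_apply, PowerSeries.coeff_map,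
      PowerSeries.coeff_zero_eq_constantCoeff_apply, hP, map_one]

lemma coe_quadratic (a q : ℤ) :
    (((1 - Polynomial.C a * Polynomial.X + Polynomial.C q * Polynomial.X ^ 2 : ℤ[X])) :
      PowerSeries ℤ) = 1 - PowerSeries.C a * PowerSeries.X + PowerSeries.C q * PowerSeries.X ^ 2 := by
  rw [Polynomial.coe_add, Polynomial.coe_sub, Polynomial.coe_mul, Polynomial.coe_mul,
    Polynomial.coe_C, Polynomial.coe_C, Polynomial.coe_X, Polynomial.coe_pow, Polynomial.coe_X,
    Polynomial.coe_one]

/-- The inverse of `1 - a T + q T²` over `ℤ`, in a ring where it factors as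
`(1 - α T) (1 - β T)`. -/
theorem map_inv_quadratic (a q : ℤ) {α β : S} (h1 : α + β = a) (h2 : α * β = q) :
    PowerSeries.map (Int.castRingHom S)
      (PowerSeries.invOfUnit (((1 - Polynomial.C a * Polynomial.X
        + Polynomial.C q * Polynomial.X ^ 2 : ℤ[X])) : PowerSeries ℤ) 1) = geom α * geom β := by
  rw [coe_quadratic, map_invOfUnit _ (by simp)]
  apply invOfUnit_eq
  · have e : PowerSeries.map (Int.castRingHom S) (1 - PowerSeries.C a * PowerSeries.X
        + PowerSeries.C q * PowerSeries.X ^ 2 : PowerSeries ℤ)
        = (1 - PowerSeries.C α * PowerSeries.X) * (1 - PowerSeries.C β * PowerSeries.X) := by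
      have ha : PowerSeries.C (a : S) = PowerSeries.C α + PowerSeries.C β := by
        rw [← map_add, h1]
      have hq : PowerSeries.C (q : S) = PowerSeries.C α * PowerSeries.C β := by
        rw [← map_mul, h2]
      have ca : PowerSeries.map (Int.castRingHom S) (PowerSeries.C a) = PowerSeries.C (a : S) := by
        rw [PowerSeries.map_C]
        rfl
      have cq : PowerSeries.map (Int.castRingHom S) (PowerSeries.C q) = PowerSeries.C (q : S) := by
        rw [PowerSeries.map_C]
        rfl
      rw [map_add, map_sub, map_mul, map_mul, map_pow, map_one, PowerSeries.map_X, ca, cq, ha, hq]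
      ring
    rw [e]
    calc geom α * geom β * ((1 - PowerSeries.C α * PowerSeries.X)
          * (1 - PowerSeries.C β * PowerSeries.X))
        = (geom α * (1 - PowerSeries.C α * PowerSeries.X))
          * (geom β * (1 - PowerSeries.C β * PowerSeries.X)) := by ring
      _ = 1 := by rw [geom_mul, geom_mul, one_mul]
  · simp

/-- coefficients of the inverse of `1 - a T + q T²` -/
theorem coeff_inv_quadratic (a q : ℤ) {α β : S} (h1 : α + β = a) (h2 : α * β = q) (k : ℕ) :
    ((PowerSeries.coeff k (PowerSeries.invOfUnit (((1 - Polynomial.C a * Polynomial.X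
        + Polynomial.C q * Polynomial.X ^ 2 : ℤ[X])) : PowerSeries ℤ) 1) : ℤ) : S)
      = ∑ ij ∈ Finset.HasAntidiagonal.antidiagonal k, α ^ ij.1 * β ^ ij.2 := by
  have h := congrArg (PowerSeries.coeff k) (map_inv_quadratic a q h1 h2)
  rw [PowerSeries.coeff_map, PowerSeries.coeff_mul] at h
  simp only [geom_coeff] at h
  exact h

/-- The inverse of `1 + q T²`, in a ring: coefficients `(-q)^(k/2)` for even `k`. -/
theorem map_inv_inert (q : ℤ) (k : ℕ) :
    PowerSeries.coeff k (PowerSeries.invOfUnit (((1 - Polynomial.C 0 * Polynomial.X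
        + Polynomial.C q * Polynomial.X ^ 2 : ℤ[X])) : PowerSeries ℤ) 1)
      = if Even k then (-q) ^ (k / 2) else 0 := by
  rw [coe_quadratic]
  have h : PowerSeries.invOfUnit (1 - PowerSeries.C 0 * PowerSeries.X
        + PowerSeries.C q * PowerSeries.X ^ 2 : PowerSeries ℤ) 1
      = PowerSeries.mk fun k => if Even k then (-q) ^ (k / 2) else 0 := by
    apply invOfUnit_eq
    · ext n
      have e : (1 - PowerSeries.C 0 * PowerSeries.X
        + PowerSeries.C q * PowerSeries.X ^ 2 : PowerSeries ℤ)
        = 1 + PowerSeries.C q * PowerSeries.X ^ 2 := by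
        rw [map_zero, zero_mul, sub_zero]
      rw [e, mul_add, mul_one, map_add, PowerSeries.coeff_mk]
      have e2 : (PowerSeries.mk fun k => if Even k then (-q) ^ (k / 2) else 0)
          * (PowerSeries.C q * PowerSeries.X ^ 2)
          = ((PowerSeries.mk fun k => if Even k then (-q) ^ (k / 2) else 0)
            * PowerSeries.C q) * PowerSeries.X ^ 2 := by ring
      rw [e2]
      rcases n with _ | _ | n
      · simp [PowerSeries.coeff_mul_X_pow']
      · simp [PowerSeries.coeff_mul_X_pow', PowerSeries.coeff_one]
      · rw [show n + 1 + 1 = n + 2 from rfl, PowerSeries.coeff_mul_X_pow _ 2 n,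
          PowerSeries.coeff_mul_C, PowerSeries.coeff_mk, PowerSeries.coeff_one,
          if_neg (show ¬ (n + 2 = 0) by omega)]
        have h3 : Even (n + 2) ↔ Even n := by
          constructor
          · rintro ⟨m, hm⟩; exact ⟨m - 1, by omega⟩
          · rintro ⟨m, hm⟩; exact ⟨m + 1, by omega⟩
        have h4 : (n + 2) / 2 = n / 2 + 1 := by omega
        simp only [h3, h4]
        split_ifs
        · ring
        · simp
    · simp
  rw [h, PowerSeries.coeff_mk]

end Pool.Agent.helper63.Eul
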