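import Mathlib
import Pool.Agent.helper95.Main
import Pool.Agent.helper95.ClassNo
import Pool.Agent.helper95.RamSqrt

/-!
# Finiteness of the points of `y² + y = x³ + b` over `ℚ(√-7)`

for `4 b = β³ - 1`, through the curve `Y² = X³ + 16` over `K(√β, √β̄)` and the theorem of helper95.
-/

namespace Pool.Agent.helper63.Rank

section Step


open NumberField Polynomial IntermediateField

/-- adjoining a root of `y² - y = c₀` to a number field -/
theorem exists_step {F : Type} [Field F] [NumberField F] (c₀ : 𝓞 F) :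
    ∃ (L : Type) (_ : Field L) (_ : NumberField L) (_ : Algebra F L) (y : 𝓞 L),
      y ^ 2 - y = algebraMap (𝓞 F) (𝓞 L) c₀ ∧
      (Module.finrank F L = 1 ∨ Module.finrank F L = 2) ∧ Algebra.adjoin F {(y : L)} = ⊤ := by
  let Ω := AlgebraicClosure F
  let g : (𝓞 F)[X] := X ^ 2 - X - C c₀
  have hgm : g.Monic := by simp only [g]; monicity!
  have hgd : g.natDegree = 2 := by simp only [g]; compute_degree!
  obtain ⟨y₀, hy₀⟩ := IsAlgClosed.exists_aeval_eq_zero Ω (g.map (algebraMap (𝓞 F) F)) (by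
    rw [hgm.degree_map, degree_eq_natDegree hgm.ne_zero, hgd]; decide)
  have hgmF : (g.map (algebraMap (𝓞 F) F)).Monic := hgm.map _
  have hint : IsIntegral F y₀ := ⟨_, hgmF, by rw [← aeval_def]; exact hy₀⟩
  have hfd : FiniteDimensional F F⟮y₀⟯ := adjoin.finiteDimensional hint
  have hnf : NumberField F⟮y₀⟯ := NumberField.of_module_finite F F⟮y₀⟯
  have hy₁ : y₀ ^ 2 - y₀ = algebraMap F Ω c₀ := by
    have := hy₀
    simp only [g, Polynomial.map_sub, Polynomial.map_pow, map_X, map_C, map_sub, map_pow, aeval_X, aeval_C] at this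
    exact sub_eq_zero.mp this
  have hyL : (AdjoinSimple.gen F y₀) ^ 2 - AdjoinSimple.gen F y₀ = algebraMap F F⟮y₀⟯ c₀ := by
    apply Subtype.ext
    push_cast
    rw [AdjoinSimple.coe_gen]
    exact hy₁
  have hintL : IsIntegral ℤ (AdjoinSimple.gen F y₀) := by
    have h1 : IsIntegral (𝓞 F) (AdjoinSimple.gen F y₀) := by
      refine ⟨g, hgm, ?_⟩
      rw [← aeval_def]
      simp only [g, map_sub, map_pow, aeval_X, aeval_C]
      rw [hyL, sub_eq_zero]
      rfl
    have hst : IsScalarTower ℤ (𝓞 F) F⟮y₀⟯ := IsScalarTower.of_algebraMap_eq (fun n => by simp)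
    exact isIntegral_trans _ h1
  refine ⟨F⟮y₀⟯, inferInstance, hnf, inferInstance, ⟨AdjoinSimple.gen F y₀, hintL⟩, ?_, ?_, ?_⟩
  · apply RingOfIntegers.ext
    push_cast
    exact hyL
  · have h1 : Module.finrank F F⟮y₀⟯ = (minpoly F y₀).natDegree := adjoin.finrank hint
    have h2 : (minpoly F y₀).natDegree ≤ 2 := by
      have := natDegree_le_of_dvd (minpoly.dvd F y₀ hy₀) hgmF.ne_zero
      rwa [hgm.natDegree_map, hgd] at this
    have h3 : 0 < (minpoly F y₀).natDegree := minpoly.natDegree_pos hint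
    omega
  · have := (adjoin.powerBasis hint).adjoin_gen_eq_top
    rwa [adjoin.powerBasis_gen] at this

end Step

section Twist


open NumberField Polynomial WeierstrassCurve Pool.Agent.helper95
open scoped Classical

/-- the twisting map -/
theorem finite_of_twist {K L : Type*} [Field K] [Field L] [CharZero L] [Algebra K L] (β b : K) (r : L)
    (hβ : β ≠ 0) (hr : r ^ 2 = algebraMap K L β) (h4 : 4 * b = β ^ 3 - 1)
    (hfin : Finite (EC 0 0 1 L).toAffine.Point) :
    Finite ((⟨0, 0, 1, 0, b⟩ : WeierstrassCurve K).toAffine.Point) := by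
  have hβL : algebraMap K L β ≠ 0 := by
    rwa [Ne, map_eq_zero]
  have hr0 : r ≠ 0 := by
    rintro rfl
    apply hβL
    rw [← hr]; ring
  have hell : (EC 0 0 1 L).IsElliptic := EC_elliptic (by decide) L
  have h4L : 4 * algebraMap K L b = (algebraMap K L β) ^ 3 - 1 := by
    have := congrArg (algebraMap K L) h4
    simpa only [map_mul, map_sub, map_pow, map_one, map_ofNat] using this
  have key : ∀ x y : K, (⟨0, 0, 1, 0, b⟩ : WeierstrassCurve K).toAffine.Nonsingular x y →
      (EC 0 0 1 L).toAffine.Nonsingular (4 * algebraMap K L x / algebraMap K L β)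
        (4 * (2 * algebraMap K L y + 1) / (algebraMap K L β * r)) := by
    intro x y h
    rw [← WeierstrassCurve.Affine.equation_iff_nonsingular]
    have h1 := h.1
    rw [WeierstrassCurve.Affine.equation_iff] at h1 ⊢
    simp only [EC] at h1 ⊢
    have h2 := congrArg (algebraMap K L) h1
    simp only [map_add, map_mul, map_pow, map_one, map_zero] at h2
    rw [← hr] at h4L ⊢
    field_simp
    push_cast
    linear_combination 64 * h2 + 16 * h4L
  let f : (⟨0, 0, 1, 0, b⟩ : WeierstrassCurve K).toAffine.Point → (EC 0 0 1 L).toAffine.Point :=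
    fun P => match P with
      | .zero => .zero
      | .some x y h => .some _ _ (key x y h)
  apply Finite.of_injective f
  intro P Q hPQ
  rcases P with _ | ⟨x, y, h⟩ <;> rcases Q with _ | ⟨x', y', h'⟩
  · rfl
  · exact absurd hPQ (by simp [f])
  · exact absurd hPQ (by simp [f])
  · simp only [f, WeierstrassCurve.Affine.Point.some.injEq] at hPQ
    obtain ⟨h1, h2⟩ := hPQ
    have h3 : algebraMap K L x = algebraMap K L x' := by
      field_simp at h1
      exact h1
    have h5 : algebraMap K L y = algebraMap K L y' := by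
      field_simp at h2
      linear_combination h2 / 2
    have h6 := (algebraMap K L).injective h3
    have h7 := (algebraMap K L).injective h5
    subst h6 h7
    rfl

end Twist

section Cubic


open NumberField Polynomial WeierstrassCurve Pool.Agent.helper95
open scoped Classical

/-- the pure cubic field of the cube root of two -/
theorem exists_cubic : ∃ (A : Type) (_ : Field A) (_ : NumberField A) (z : A),
    z ^ 3 + 2 = 0 ∧ Module.finrank ℚ A = 3 := by
  have hirr : Irreducible (gQ 0 0 1) := gQ_irreducible (by decide)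
  have hfact : Fact (Irreducible (gQ 0 0 1)) := ⟨hirr⟩
  have hne : gQ 0 0 1 ≠ 0 := hirr.ne_zero
  let A := AdjoinRoot (gQ 0 0 1)
  have hfd : FiniteDimensional ℚ A := (AdjoinRoot.powerBasis hne).finite
  have hnf : NumberField A := { }
  refine ⟨A, inferInstance, hnf, AdjoinRoot.root _, ?_, ?_⟩
  · have h1 : aeval (AdjoinRoot.root (gQ 0 0 1)) (gQ 0 0 1) = 0 := by
      rw [aeval_def]
      exact AdjoinRoot.eval₂_root _
    rw [aeval_gQ] at h1
    linear_combination h1
  · rw [(AdjoinRoot.powerBasis hne).finrank, AdjoinRoot.powerBasis_dim, gQ_natDegree]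

theorem finite_L {L : Type} [Field L] [NumberField L] [IsGalois ℚ L] {n : ℕ}
    (hn : Module.finrank ℚ L = 2 ^ n)
    (hram : ∀ l : ℕ, l.Prime → (l : ℤ) ∣ discr L → l ≠ 2 ∧ ∀ x : ℤ, ¬ (l : ℤ) ∣ x ^ 3 + 2) :
    Finite (EC 0 0 1 L).toAffine.Point := by
  obtain ⟨A, iF, iN, z, hz0, hA⟩ := exists_cubic
  have hz : z ^ 3 + 2 * (0 : ℤ) * z ^ 2 + 4 * (0 : ℤ) * z + 2 * (1 : ℤ) = 0 := by
    push_cast; linear_combination hz0
  have hD : discD 0 0 1 = 27 := by decide
  have hc : Odd (1 : ℤ) := by decide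
  have hcl : Odd (classNumber A) := by
    rw [class_one (Or.inl rfl) hz hA (by rw [hD]; decide) (by rw [hD])]
    decide
  obtain ⟨ε, hε⟩ := exists_unit_pm hc hz hA (x := -1) (y := 1) (Or.inr rfl) (Or.inl rfl) (by norm_num)
  obtain ⟨q, hqm, hq⟩ := Ideal.exists_le_maximal (Ideal.span {(2 : 𝓞 A)}) (by
    rw [Ne, Ideal.span_singleton_eq_top]
    intro hu
    have := (NumberField.isUnit_iff_norm (K := A) (x := (2 : 𝓞 A))).mp hu
    rw [RingOfIntegers.coe_norm] at this
    have e : ((2 : 𝓞 A) : A) = algebraMap ℚ A 2 := by rw [map_ofNat]; exact map_ofNat _ 2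
    rw [e, Algebra.norm_algebraMap, hA] at this
    norm_num at this)
  have h2q : (2 : 𝓞 A) ∈ q := hq (Ideal.mem_span_singleton_self _)
  refine (main hc hz hA hcl ?_ ?_ hn (L := L) (K := L) ?_).1
  · intro u hu hu2
    exact unit_cond' hc hz hA (by rw [hD]; decide) q hqm.isPrime h2q ε (hε q hqm.isPrime h2q) u hu
      (hu2 q hqm.isPrime h2q)
  · intro l hl hl2
    by_cases hl3 : l = 3
    · left
      subst hl3
      -- totally ramified
      have hint := root_integral hz
      let θ : 𝓞 A := -⟨z, hint⟩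
      have hθ : θ ^ 3 = 2 := by
        apply RingOfIntegers.ext
        push_cast
        change (-z) ^ 3 = 2
        linear_combination -hz0
      refine mono_of_cube hl hA (θ + 1) (1 + θ + θ ^ 2) ?_ ?_
      · push_cast
        linear_combination hθ
      · intro P hP _ hw
        apply hP.ne_top
        rw [Ideal.eq_top_iff_one]
        have e : (1 : 𝓞 A) = (θ - 1) * (1 + θ + θ ^ 2) := by linear_combination -hθ
        rw [e]
        exact P.mul_mem_left _ hw
    · right; left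
      rw [hD]
      intro h
      have h1 : l ^ 2 ∣ 27 := by exact_mod_cast h
      have h3 : l ∣ 3 ^ 3 := (dvd_pow_self l two_ne_zero).trans (by simpa using h1)
      exact hl3 ((Nat.prime_dvd_prime_iff_eq hl Nat.prime_three).mp (hl.dvd_of_dvd_pow h3))
  · intro l hl hlL
    obtain ⟨h2, h3⟩ := hram l hl hlL
    refine ⟨h2, mono_of_noroot hl hz hA ?_⟩
    intro x hx
    apply h3 x
    simpa using hx

end Cubic

section Tower


open NumberField Polynomial

section Quad

variable {K : Type} [Field K] [NumberField K]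

theorem quad_repr (hK : Module.finrank ℚ K = 2) (s : K) (hs : s ^ 2 = -7) (k : K) :
    ∃ p q : ℚ, k = algebraMap ℚ K p + algebraMap ℚ K q * s := by
  have hli : LinearIndependent ℚ ![(1 : K), s] := by
    rw [LinearIndependent.pair_iff]
    intro p q hpq
    rw [Algebra.smul_def, Algebra.smul_def, mul_one] at hpq
    have h1 : (algebraMap ℚ K p) ^ 2 = -7 * (algebraMap ℚ K q) ^ 2 := by
      linear_combination (algebraMap ℚ K p - algebraMap ℚ K q * s) * hpq + (algebraMap ℚ K q) ^ 2 * hs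
    have h2 : algebraMap ℚ K (p ^ 2) = algebraMap ℚ K (-7 * q ^ 2) := by
      rw [map_pow, h1, map_mul, map_pow, map_neg, map_ofNat]
    have h3 : p ^ 2 = -7 * q ^ 2 := (algebraMap ℚ K).injective h2
    constructor <;> nlinarith [sq_nonneg p, sq_nonneg q]
  let B := basisOfLinearIndependentOfCardEqFinrank hli (by rw [hK]; rfl)
  have h1 := B.sum_repr k
  rw [Fin.sum_univ_two] at h1
  have h2 : ∀ i, B i = ![(1 : K), s] i := fun i => by
    simp [B]
  rw [h2 0, h2 1] at h1
  simp only [Matrix.cons_val_zero, Matrix.cons_val_one, Algebra.smul_def, mul_one] at h1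
  exact ⟨_, _, h1.symm⟩

theorem exists_conj (hK : Module.finrank ℚ K = 2) (s : K) (hs : s ^ 2 = -7) :
    ∃ σ : K ≃ₐ[ℚ] K, σ s = -s := by
  have hq : Algebra.IsQuadraticExtension ℚ K := { finrank_eq_two' := hK }
  have hcard : Nat.card (K ≃ₐ[ℚ] K) = 2 := by
    rw [IsGalois.card_aut_eq_finrank, hK]
  have hnt : Nontrivial (K ≃ₐ[ℚ] K) := by
    rw [← Finite.one_lt_card_iff_nontrivial, hcard]; norm_num
  obtain ⟨σ, hσ⟩ := exists_ne (1 : K ≃ₐ[ℚ] K)
  refine ⟨σ, ?_⟩
  have h1 : (σ s) ^ 2 = s ^ 2 := by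
    rw [← map_pow, hs, map_neg, map_ofNat]
  rcases sq_eq_sq_iff_eq_or_eq_neg.mp h1 with h | h
  · exfalso
    apply hσ
    ext k
    obtain ⟨p, q, rfl⟩ := quad_repr hK s hs k
    rw [map_add, map_mul, AlgEquiv.commutes, AlgEquiv.commutes, h]
    rfl
  · exact h

end Quad

theorem exists_prime_of_dvd_norm {K : Type} [Field K] [NumberField K] (γ : 𝓞 K) (l : ℕ) (hl : l.Prime)
    (h : l ∣ (Algebra.norm ℤ γ).natAbs) :
    ∃ P : Ideal (𝓞 K), P.IsPrime ∧ P ≠ ⊥ ∧ γ ∈ P ∧ (l : 𝓞 K) ∈ P := by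
  rw [← Ideal.absNorm_span_singleton] at h
  obtain ⟨P, hP, h1, h2⟩ := Ideal.exists_isMaximal_dvd_of_dvd_absNorm' hl _ h
  have hl2 : (l : 𝓞 K) ∈ P := by
    have : (l : ℤ) ∈ P.under ℤ := by rw [h1]; exact Ideal.mem_span_singleton_self _
    have h3 := Ideal.mem_comap.mp this
    simpa using h3
  refine ⟨P, hP.isPrime, ?_, ?_, hl2⟩
  · rintro rfl
    rw [Ideal.mem_bot] at hl2
    exact hl.ne_zero (by exact_mod_cast hl2)
  · exact (Ideal.dvd_span_singleton.mp h2)

/-- normality of the tower -/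
theorem normal_tower {K L₁ L : Type} [Field K] [NumberField K] [Field L₁] [NumberField L₁]
    [Field L] [NumberField L] [Algebra K L₁] [Algebra L₁ L] [Algebra K L] [IsScalarTower K L₁ L]
    (hK : Module.finrank ℚ K = 2) (s : K) (hs : s ^ 2 = -7) (σ : K ≃ₐ[ℚ] K) (hσ : σ s = -s) (c : K)
    (y₁ : L₁) (y₂ : L) (hy₁ : y₁ ^ 2 - y₁ = algebraMap K L₁ c)
    (hy₂ : y₂ ^ 2 - y₂ = algebraMap K L (σ c))
    (h₁ : Algebra.adjoin K {y₁} = ⊤) (h₂ : Algebra.adjoin L₁ {y₂} = ⊤) : Normal ℚ L := by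
  obtain ⟨p, q, hc⟩ := quad_repr hK s hs c
  have hc' : σ c = algebraMap ℚ K p - algebraMap ℚ K q * s := by
    rw [hc, map_add, map_mul, AlgEquiv.commutes, AlgEquiv.commutes, hσ]; ring
  let f : ℚ[X] := (X ^ 2 + C 7) * ((X ^ 2 - X) ^ 2 - C (2 * p) * (X ^ 2 - X) + C (p ^ 2 + 7 * q ^ 2))
  let sL : L := algebraMap K L s
  have hsL : sL ^ 2 = -7 := by
    simp only [sL]; rw [← map_pow, hs, map_neg, map_ofNat]
  let y₁' : L := algebraMap L₁ L y₁
  have hy₁' : y₁' ^ 2 - y₁' = algebraMap ℚ L p + algebraMap ℚ L q * sL := by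
    simp only [y₁', sL]
    rw [← map_pow, ← map_sub, hy₁, ← IsScalarTower.algebraMap_apply, hc, map_add, map_mul]
    congr 1 <;> simp
  have hy₂' : y₂ ^ 2 - y₂ = algebraMap ℚ L p - algebraMap ℚ L q * sL := by
    simp only [sL]
    rw [hy₂, hc', map_sub, map_mul]
    congr 1 <;> simp
  have hf : f.map (algebraMap ℚ L) = ((X - C sL) * (X + C sL)) *
      (((X - C y₁') * (X - C (1 - y₁'))) * ((X - C y₂) * (X - C (1 - y₂)))) := by
    have e1 : (X ^ 2 + C 7 : ℚ[X]).map (algebraMap ℚ L) = (X - C sL) * (X + C sL) := by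
      have : (C (algebraMap ℚ L 7) : L[X]) = - C (sL) ^ 2 := by
        rw [← C_pow, hsL, map_ofNat, ← C_neg, neg_neg]
      rw [Polynomial.map_add, Polynomial.map_pow, map_X, map_C, this]; ring
    have e2 : ((X - C y₁') * (X - C (1 - y₁')) : L[X]) = X ^ 2 - X - C (algebraMap ℚ L p + algebraMap ℚ L q * sL) := by
      rw [← hy₁']; simp only [C_sub, C_pow, C_1]; ring
    have e3 : ((X - C y₂) * (X - C (1 - y₂)) : L[X]) = X ^ 2 - X - C (algebraMap ℚ L p - algebraMap ℚ L q * sL) := by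
      rw [← hy₂']; simp only [C_sub, C_pow, C_1]; ring
    simp only [f]
    rw [Polynomial.map_mul, e1, e2, e3]
    congr 1
    simp only [Polynomial.map_add, Polynomial.map_sub, Polynomial.map_mul, Polynomial.map_pow, map_X, map_C]
    have e4 : (C (algebraMap ℚ L (p ^ 2 + 7 * q ^ 2)) : L[X]) =
        C (algebraMap ℚ L p) ^ 2 - C (algebraMap ℚ L q) ^ 2 * C sL ^ 2 := by
      simp only [← C_pow, hsL, ← C_mul, ← C_sub]
      congr 1
      simp only [map_add, map_mul, map_pow, map_ofNat]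
      ring
    rw [e4]
    simp only [map_mul, map_ofNat, C_add, C_sub]
    ring
  have hfne : f.map (algebraMap ℚ L) ≠ 0 := by
    rw [hf]
    refine mul_ne_zero (mul_ne_zero (X_sub_C_ne_zero _) (X_add_C_ne_zero _))
      (mul_ne_zero (mul_ne_zero (X_sub_C_ne_zero _) (X_sub_C_ne_zero _))
        (mul_ne_zero (X_sub_C_ne_zero _) (X_sub_C_ne_zero _)))
  have hf0 : f ≠ 0 := by
    intro h; rw [h, Polynomial.map_zero] at hfne; exact hfne rfl
  have hsplit : (f.map (algebraMap ℚ L)).Splits := by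
    rw [hf]
    exact ((Splits.X_sub_C _).mul (Splits.X_add_C _)).mul
      (((Splits.X_sub_C _).mul (Splits.X_sub_C _)).mul ((Splits.X_sub_C _).mul (Splits.X_sub_C _)))
  have hroot : ∀ x : L, (f.map (algebraMap ℚ L)).eval x = 0 → x ∈ f.rootSet L := by
    intro x hx
    rw [mem_rootSet]
    refine ⟨hf0, ?_⟩
    rw [aeval_def, ← eval_map]
    exact hx
  have hadj : Algebra.adjoin ℚ (f.rootSet L) = ⊤ := by
    rw [eq_top_iff]
    intro x _
    have hs' : sL ∈ Algebra.adjoin ℚ (f.rootSet L) := Algebra.subset_adjoin (hroot _ (by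
      rw [hf]; simp))
    have hy1' : y₁' ∈ Algebra.adjoin ℚ (f.rootSet L) := Algebra.subset_adjoin (hroot _ (by
      rw [hf]; simp))
    have hy2' : y₂ ∈ Algebra.adjoin ℚ (f.rootSet L) := Algebra.subset_adjoin (hroot _ (by
      rw [hf]; simp))
    have hKS : ∀ k : K, algebraMap K L k ∈ Algebra.adjoin ℚ (f.rootSet L) := by
      intro k
      obtain ⟨p, q, rfl⟩ := quad_repr hK s hs k
      rw [map_add, map_mul]
      refine add_mem ?_ (mul_mem ?_ hs')
      · have : algebraMap K L (algebraMap ℚ K p) = algebraMap ℚ L p := by simp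
        rw [this]; exact Subalgebra.algebraMap_mem _ _
      · have : algebraMap K L (algebraMap ℚ K q) = algebraMap ℚ L q := by simp
        rw [this]; exact Subalgebra.algebraMap_mem _ _
    have hLS : ∀ k : L₁, algebraMap L₁ L k ∈ Algebra.adjoin ℚ (f.rootSet L) := by
      intro k
      have hk : k ∈ Algebra.adjoin K {y₁} := by rw [h₁]; trivial
      induction hk using Algebra.adjoin_induction with
      | mem x hx => rw [Set.mem_singleton_iff.mp hx]; exact hy1'
      | algebraMap r => rw [← IsScalarTower.algebraMap_apply]; exact hKS r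
      | add x y _ _ hx hy => rw [map_add]; exact add_mem hx hy
      | mul x y _ _ hx hy => rw [map_mul]; exact mul_mem hx hy
    have hx : x ∈ Algebra.adjoin L₁ {y₂} := by rw [h₂]; trivial
    induction hx using Algebra.adjoin_induction with
    | mem x hx => rw [Set.mem_singleton_iff.mp hx]; exact hy2'
    | algebraMap r => exact hLS r
    | add x y _ _ hx hy => exact add_mem (hx trivial) (hy trivial)
    | mul x y _ _ hx hy => exact mul_mem (hx trivial) (hy trivial)
  have hsf : IsSplittingField ℚ L f := ⟨hsplit, hadj⟩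
  exact Normal.of_isSplittingField f

end Tower

section Main

open NumberField Polynomial WeierstrassCurve Pool.Agent.helper95

/-- the discriminant of `ℚ(√-7)` -/
theorem discr_seven {K : Type} [Field K] [NumberField K] (hK : Module.finrank ℚ K = 2) (s : K)
    (hs : s ^ 2 = -7) (l : ℕ) (hl : l.Prime) (h : (l : ℤ) ∣ discr K) : l = 7 := by
  let y₀ : K := (1 + s) / 2
  have hy₀ : y₀ ^ 2 - y₀ = -2 := by
    simp only [y₀]; field_simp; linear_combination hs
  have hint : IsIntegral ℤ y₀ := by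
    refine ⟨X ^ 2 - X + C 2, by monicity!, ?_⟩
    simp only [eval₂_add, eval₂_sub, eval₂_pow, eval₂_X, eval₂_C]
    rw [hy₀]; simp
  let y : 𝓞 K := ⟨y₀, hint⟩
  have hy : y ^ 2 - y = algebraMap (𝓞 ℚ) (𝓞 K) (-2) := by
    rw [map_neg, map_ofNat]
    apply RingOfIntegers.ext
    push_cast
    exact hy₀
  have htop : Algebra.adjoin ℚ {(y : K)} = ⊤ := by
    rw [eq_top_iff]
    intro x _
    obtain ⟨p, q, rfl⟩ := quad_repr hK s hs x
    have hs' : s = 2 * y₀ - 1 := by simp only [y₀]; ring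
    have hyS : y₀ ∈ Algebra.adjoin ℚ {(y : K)} := Algebra.subset_adjoin (Set.mem_singleton _)
    have hsS : s ∈ Algebra.adjoin ℚ {(y : K)} := by
      rw [hs']
      have h2S : (2 : K) ∈ Algebra.adjoin ℚ {(y : K)} := by
        have := natCast_mem (Algebra.adjoin ℚ {(y : K)}) 2
        exact_mod_cast this
      exact sub_mem (mul_mem h2S hyS) (one_mem _)
    exact add_mem (Subalgebra.algebraMap_mem _ _) (mul_mem (Subalgebra.algebraMap_mem _ _) hsS)
  rcases prime_dvd_discr_of_sqrt y (-2) hy htop l hl h with h1 | h1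
  · exfalso
    rw [Rat.numberField_discr] at h1
    exact hl.one_lt.ne' (by exact_mod_cast Int.natAbs_dvd_natAbs.mpr h1 |> Nat.dvd_one.mp)
  · have h2 : Algebra.norm ℤ (1 + 4 * (-2) : 𝓞 ℚ) = -7 := by
      have e : (1 + 4 * (-2) : 𝓞 ℚ) = algebraMap ℤ (𝓞 ℚ) (-7) := by
        rw [eq_intCast]; push_cast; norm_num
      have := Algebra.norm_algebraMap (R := ℤ) (S := 𝓞 ℚ) (-7)
      rw [RingOfIntegers.rank, Module.finrank_self, pow_one] at this
      rw [e, this]
    rw [h2] at h1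
    exact (Nat.prime_dvd_prime_iff_eq hl (by norm_num)).mp (by simpa using h1)

theorem rank_side' (K : Type) [Field K] [NumberField K] (hK : Module.finrank ℚ K = 2) (s : K)
    (hs : s ^ 2 = -7) (β b : 𝓞 K) (h4 : 4 * b = β ^ 3 - 1) (h1 : (4 : 𝓞 K) ∣ β - 1) (h0 : β ≠ 0)
    (hgood : ∀ l : ℕ, l.Prime → (l : ℤ) ∣ Algebra.norm ℤ β → l ≠ 2 ∧ ∀ x : ℤ, ¬ (l : ℤ) ∣ x ^ 3 + 2) :
    Finite ((⟨0, 0, 1, 0, (b : K)⟩ : WeierstrassCurve K).toAffine.Point) := by
  obtain ⟨c, hc⟩ := h1
  have hβc : β = 1 + 4 * c := by linear_combination hc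
  obtain ⟨σ, hσ⟩ := exists_conj hK s hs
  let σ' : 𝓞 K ≃+* 𝓞 K := RingOfIntegers.mapRingEquiv σ
  have hσ' : ∀ x : 𝓞 K, ((σ' x : 𝓞 K) : K) = σ (x : K) := fun x => rfl
  obtain ⟨L₁, iF₁, iN₁, iA₁, y₁, hy₁, hd₁, ht₁⟩ := exists_step c
  obtain ⟨L, iF, iN, iA, y₂, hy₂, hd₂, ht₂⟩ := exists_step (algebraMap (𝓞 K) (𝓞 L₁) (σ' c))
  let iKL : Algebra K L := ((algebraMap L₁ L).comp (algebraMap K L₁)).toAlgebra
  have : IsScalarTower K L₁ L := IsScalarTower.of_algebraMap_eq (fun x => rfl)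
  have hy₁' : (y₁ : L₁) ^ 2 - (y₁ : L₁) = algebraMap K L₁ (c : K) := by
    have := congrArg (fun x : 𝓞 L₁ => (x : L₁)) hy₁
    push_cast at this
    exact this
  have hy₂' : (y₂ : L) ^ 2 - (y₂ : L) = algebraMap K L (σ (c : K)) := by
    have := congrArg (fun x : 𝓞 L => (x : L)) hy₂
    push_cast at this
    exact this
  have hnormal : Normal ℚ L := normal_tower hK s hs σ hσ (c : K) (y₁ : L₁) (y₂ : L) hy₁' hy₂' ht₁ ht₂
  have hgal : IsGalois ℚ L := { }
  have hdeg : ∃ n, Module.finrank ℚ L = 2 ^ n := by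
    have e1 : Module.finrank ℚ L₁ = 2 * Module.finrank K L₁ := by
      rw [← Module.finrank_mul_finrank ℚ K L₁, hK]
    have e2 : Module.finrank ℚ L = 2 * Module.finrank K L₁ * Module.finrank L₁ L := by
      rw [← Module.finrank_mul_finrank ℚ L₁ L, e1]
    rcases hd₁ with h | h <;> rcases hd₂ with h' | h' <;> rw [h, h'] at e2
    · exact ⟨1, e2⟩
    · exact ⟨2, e2⟩
    · exact ⟨2, e2⟩
    · exact ⟨3, e2⟩
  obtain ⟨n, hn⟩ := hdeg
  have hram : ∀ l : ℕ, l.Prime → (l : ℤ) ∣ discr L → l ≠ 2 ∧ ∀ x : ℤ, ¬ (l : ℤ) ∣ x ^ 3 + 2 := by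
    intro l hl hlL
    rcases prime_dvd_discr_of_sqrt y₂ _ hy₂ ht₂ l hl hlL with h | h
    · rcases prime_dvd_discr_of_sqrt y₁ _ hy₁ ht₁ l hl h with h' | h'
      · have := discr_seven hK s hs l hl h'
        subst this
        refine ⟨by norm_num, ?_⟩
        intro x hx
        have h7 : ((x ^ 3 + 2 : ℤ) : ZMod 7) = 0 := (ZMod.intCast_zmod_eq_zero_iff_dvd _ 7).mpr hx
        push_cast at h7
        revert h7
        generalize (x : ZMod 7) = z
        revert z
        decide
      · rw [← hβc] at h'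
        exact hgood l hl (Int.natCast_dvd.mpr h')
    · have e : (1 + 4 * algebraMap (𝓞 K) (𝓞 L₁) (σ' c)) = algebraMap (𝓞 K) (𝓞 L₁) (σ' β) := by
        rw [hβc]; simp only [map_add, map_mul, map_one, map_ofNat]
      rw [e] at h
      have e2 : (Algebra.norm ℤ (algebraMap (𝓞 K) (𝓞 L₁) (σ' β))) =
          (Algebra.norm ℤ (σ' β)) ^ (Module.finrank K L₁) := by
        have h11 : ((Algebra.norm ℤ (algebraMap (𝓞 K) (𝓞 L₁) (σ' β)) : ℤ) : ℚ) =
            (((Algebra.norm ℤ (σ' β)) ^ (Module.finrank K L₁) : ℤ) : ℚ) := by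
          rw [Algebra.coe_norm_int, Int.cast_pow, Algebra.coe_norm_int]
          have h12 : ((algebraMap (𝓞 K) (𝓞 L₁) (σ' β) : 𝓞 L₁) : L₁) =
              algebraMap K L₁ (((σ' β : 𝓞 K)) : K) := rfl
          rw [h12, ← Algebra.norm_norm (R := ℚ) (S := K), Algebra.norm_algebraMap, map_pow]
        exact_mod_cast h11
      rw [e2, Int.natAbs_pow] at h
      have e3 : Algebra.norm ℤ (σ' β) = Algebra.norm ℤ β := by
        have h13 : ((Algebra.norm ℤ (σ' β) : ℤ) : ℚ) = ((Algebra.norm ℤ β : ℤ) : ℚ) := by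
          rw [Algebra.coe_norm_int, Algebra.coe_norm_int, hσ']
          exact (Algebra.norm_eq_of_algEquiv σ (β : K))
        exact_mod_cast h13
      rw [e3] at h
      exact hgood l hl (Int.natCast_dvd.mpr (hl.dvd_of_dvd_pow h))
  have hfin := finite_L hn hram
  refine finite_of_twist (L := L) (β : K) (b : K) (algebraMap L₁ L (2 * (y₁ : L₁) - 1)) ?_ ?_ ?_ hfin
  · intro h
    apply h0
    apply RingOfIntegers.ext
    rw [h]; rfl
  · rw [← map_pow, IsScalarTower.algebraMap_apply K L₁ L]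
    congr 1
    have : ((β : 𝓞 K) : K) = 1 + 4 * (c : K) := by rw [hβc]; push_cast; rfl
    rw [this, map_add, map_mul, map_one, map_ofNat, ← hy₁']
    ring
  · have := congrArg (fun x : 𝓞 K => (x : K)) h4
    push_cast at this
    exact this

/-- version with a condition on the primes dividing the norm of `β` -/
theorem rank_side_norm (K : Type) [Field K] [NumberField K] (hK : Module.finrank ℚ K = 2) (s : K)
    (hs : s ^ 2 = -7) (β b : 𝓞 K) (h4 : 4 * b = β ^ 3 - 1) (h1 : (4 : 𝓞 K) ∣ β - 1) (h0 : β ≠ 0)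
    (hcub : ∀ p : ℕ, p.Prime → (p : ℤ) ∣ Algebra.norm ℤ β → ∀ x : ZMod p, x ^ 3 ≠ 2) :
    Finite ((⟨0, 0, 1, 0, (b : K)⟩ : WeierstrassCurve K).toAffine.Point) := by
  refine rank_side' K hK s hs β b h4 h1 h0 ?_
  intro l hl hlβ
  refine ⟨?_, ?_⟩
  · rintro rfl
    exact hcub 2 hl hlβ 0 (by decide)
  · intro x hx
    apply hcub l hl hlβ (-(x : ZMod l))
    have h7 : ((x ^ 3 + 2 : ℤ) : ZMod l) = 0 := (ZMod.intCast_zmod_eq_zero_iff_dvd _ l).mpr hx
    push_cast at h7
    linear_combination -h7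

/-- version with a condition on the prime ideals containing `β` -/
theorem rank_side (K : Type) [Field K] [NumberField K] (hK : Module.finrank ℚ K = 2) (s : K)
    (hs : s ^ 2 = -7) (β b : 𝓞 K) (h4 : 4 * b = β ^ 3 - 1) (h1 : (4 : 𝓞 K) ∣ β - 1) (h0 : β ≠ 0)
    (hcub : ∀ P : Ideal (𝓞 K), P.IsPrime → P ≠ ⊥ → β ∈ P → ∀ x : 𝓞 K, x ^ 3 - 2 ∉ P) :
    Finite ((⟨0, 0, 1, 0, (b : K)⟩ : WeierstrassCurve K).toAffine.Point) := by
  refine rank_side' K hK s hs β b h4 h1 h0 ?_
  intro l hl hlβ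
  obtain ⟨P, hP, hP0, hβP, hlP⟩ := exists_prime_of_dvd_norm β l hl (Int.natCast_dvd.mp hlβ)
  refine ⟨?_, ?_⟩
  · rintro rfl
    apply hcub P hP hP0 hβP 0
    have : ((0 : 𝓞 K) ^ 3 - 2) = -((2 : ℕ) : 𝓞 K) := by push_cast; ring
    rw [this]
    exact P.neg_mem hlP
  · rintro x ⟨m, hm⟩
    apply hcub P hP hP0 hβP (-(x : 𝓞 K))
    have : ((-(x : 𝓞 K)) ^ 3 - 2) = -(((l : ℕ) : 𝓞 K) * (m : 𝓞 K)) := by
      have : ((x : 𝓞 K) ^ 3 + 2) = (l : 𝓞 K) * (m : 𝓞 K) := by
        exact_mod_cast congrArg (Int.cast (R := 𝓞 K)) hm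
      linear_combination -this
    rw [this]
    exact P.neg_mem (P.mul_mem_right _ hlP)

end Main

end Pool.Agent.helper63.Rank
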