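import Pool.Agent.helper65.Tor.Num

set_option autoImplicit false
set_option maxSynthPendingDepth 3

/-!
Pullback lemma: the curvature numerator is a tensor (`PullStatement`).
-/

open Matrix

namespace Pool.Agent.helper63.TorPull

section general

variable {E : Type*} [NormedAddCommGroup E] [NormedSpace ℝ E]

/-- lowered Christoffel symbols of a bilinear-form valued map -/
noncomputable def Gm (G : E → E →L[ℝ] E →L[ℝ] ℝ) (x a b w : E) : ℝ :=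
  (fderiv ℝ G x a b w + fderiv ℝ G x b a w - fderiv ℝ G x w a b) / 2

lemma fderiv_apply2 {G : E → E →L[ℝ] E →L[ℝ] ℝ} {x : E} (hG : DifferentiableAt ℝ G x)
    (a b w : E) : fderiv ℝ (fun y => G y a b) x w = fderiv ℝ G x w a b := by
  have h1 := (hG.hasFDerivAt.clm_apply (hasFDerivAt_const a x)).clm_apply (hasFDerivAt_const b x)
  rw [h1.fderiv]
  simp

lemma fderiv2_apply {G : E → E →L[ℝ] E →L[ℝ] ℝ} (hG : ContDiff ℝ 2 G) (x : E)
    (a b v w : E) :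
    fderiv ℝ (fun y => fderiv ℝ (fun z => G z a b) y v) x w
      = fderiv ℝ (fderiv ℝ G) x w v a b := by
  have hd : Differentiable ℝ G := hG.differentiable (by norm_num)
  have hd2 : Differentiable ℝ (fderiv ℝ G) :=
    (hG.fderiv_right (m := 1) (by norm_num)).differentiable (by norm_num)
  have h0 : (fun y => fderiv ℝ (fun z => G z a b) y v) = fun y => fderiv ℝ G y v a b := by
    funext y
    exact fderiv_apply2 (hd y) a b v
  rw [h0]
  have h1 := (((hd2 x).hasFDerivAt.clm_apply (hasFDerivAt_const v x)).clm_apply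
      (hasFDerivAt_const a x)).clm_apply (hasFDerivAt_const b x)
  rw [h1.fderiv]
  simp

section
variable {G : E → E →L[ℝ] E →L[ℝ] ℝ} {Φ : E → E}

lemma hasF_GΦ (hG : ContDiff ℝ 2 G) (hΦ : ContDiff ℝ 3 Φ) (z : E) :
    HasFDerivAt (fun y => G (Φ y)) ((fderiv ℝ G (Φ z)).comp (fderiv ℝ Φ z)) z :=
  (((hG.differentiable (by norm_num)) (Φ z)).hasFDerivAt).comp z
    ((hΦ.differentiable (by norm_num)) z).hasFDerivAt

lemma hasF_A (hΦ : ContDiff ℝ 3 Φ) (z a : E) :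
    HasFDerivAt (fun y => fderiv ℝ Φ y a) ((fderiv ℝ (fderiv ℝ Φ) z).flip a) z := by
  have hd : Differentiable ℝ (fderiv ℝ Φ) :=
    (hΦ.fderiv_right (m := 2) (by norm_num)).differentiable (by norm_num)
  have h := (hd z).hasFDerivAt.clm_apply (hasFDerivAt_const a z)
  refine h.congr_fderiv ?_
  ext w
  simp

lemma hasF_S (hΦ : ContDiff ℝ 3 Φ) (z v a : E) :
    HasFDerivAt (fun y => fderiv ℝ (fderiv ℝ Φ) y v a)
      (((fderiv ℝ (fderiv ℝ (fderiv ℝ Φ)) z).flip v).flip a) z := by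
  have hd : Differentiable ℝ (fderiv ℝ (fderiv ℝ Φ)) :=
    ((hΦ.fderiv_right (m := 2) (by norm_num)).fderiv_right (m := 1) (by norm_num)).differentiable
      (by norm_num)
  have h := ((hd z).hasFDerivAt.clm_apply (hasFDerivAt_const v z)).clm_apply
    (hasFDerivAt_const a z)
  refine h.congr_fderiv ?_
  ext w
  simp

lemma D1F (hG : ContDiff ℝ 2 G) (hΦ : ContDiff ℝ 3 Φ) (z a b w : E) :
    fderiv ℝ (fun y => G (Φ y) (fderiv ℝ Φ y a) (fderiv ℝ Φ y b)) z w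
      = fderiv ℝ G (Φ z) (fderiv ℝ Φ z w) (fderiv ℝ Φ z a) (fderiv ℝ Φ z b)
        + G (Φ z) (fderiv ℝ (fderiv ℝ Φ) z w a) (fderiv ℝ Φ z b)
        + G (Φ z) (fderiv ℝ Φ z a) (fderiv ℝ (fderiv ℝ Φ) z w b) := by
  have h := ((hasF_GΦ hG hΦ z).clm_apply (hasF_A hΦ z a)).clm_apply (hasF_A hΦ z b)
  rw [h.fderiv]
  simp
  ring

lemma D2F (hG : ContDiff ℝ 2 G) (hΦ : ContDiff ℝ 3 Φ) (z a b v w : E) :
    fderiv ℝ (fun x => fderiv ℝ (fun y => G (Φ y) (fderiv ℝ Φ y a) (fderiv ℝ Φ y b)) x v) z w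
      = fderiv ℝ (fderiv ℝ G) (Φ z) (fderiv ℝ Φ z w) (fderiv ℝ Φ z v) (fderiv ℝ Φ z a)
            (fderiv ℝ Φ z b)
        + fderiv ℝ G (Φ z) (fderiv ℝ (fderiv ℝ Φ) z w v) (fderiv ℝ Φ z a) (fderiv ℝ Φ z b)
        + fderiv ℝ G (Φ z) (fderiv ℝ Φ z v) (fderiv ℝ (fderiv ℝ Φ) z w a) (fderiv ℝ Φ z b)
        + fderiv ℝ G (Φ z) (fderiv ℝ Φ z v) (fderiv ℝ Φ z a) (fderiv ℝ (fderiv ℝ Φ) z w b)
        + (fderiv ℝ G (Φ z) (fderiv ℝ Φ z w) (fderiv ℝ (fderiv ℝ Φ) z v a) (fderiv ℝ Φ z b)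
          + G (Φ z) (fderiv ℝ (fderiv ℝ (fderiv ℝ Φ)) z w v a) (fderiv ℝ Φ z b)
          + G (Φ z) (fderiv ℝ (fderiv ℝ Φ) z v a) (fderiv ℝ (fderiv ℝ Φ) z w b))
        + (fderiv ℝ G (Φ z) (fderiv ℝ Φ z w) (fderiv ℝ Φ z a) (fderiv ℝ (fderiv ℝ Φ) z v b)
          + G (Φ z) (fderiv ℝ (fderiv ℝ Φ) z w a) (fderiv ℝ (fderiv ℝ Φ) z v b)
          + G (Φ z) (fderiv ℝ Φ z a) (fderiv ℝ (fderiv ℝ (fderiv ℝ Φ)) z w v b)) := by
  have h0 : (fun x => fderiv ℝ (fun y => G (Φ y) (fderiv ℝ Φ y a) (fderiv ℝ Φ y b)) x v)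
      = fun x => fderiv ℝ G (Φ x) (fderiv ℝ Φ x v) (fderiv ℝ Φ x a) (fderiv ℝ Φ x b)
        + G (Φ x) (fderiv ℝ (fderiv ℝ Φ) x v a) (fderiv ℝ Φ x b)
        + G (Φ x) (fderiv ℝ Φ x a) (fderiv ℝ (fderiv ℝ Φ) x v b) := by
    funext x
    exact D1F hG hΦ x a b v
  rw [h0]
  have hG1 : HasFDerivAt (fun y => fderiv ℝ G (Φ y))
      ((fderiv ℝ (fderiv ℝ G) (Φ z)).comp (fderiv ℝ Φ z)) z :=
    ((((hG.fderiv_right (m := 1) (by norm_num)).differentiable (by norm_num))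
      (Φ z)).hasFDerivAt).comp z ((hΦ.differentiable (by norm_num)) z).hasFDerivAt
  have h1 := ((hG1.clm_apply (hasF_A hΦ z v)).clm_apply (hasF_A hΦ z a)).clm_apply
    (hasF_A hΦ z b)
  have h2 := ((hasF_GΦ hG hΦ z).clm_apply (hasF_S hΦ z v a)).clm_apply (hasF_A hΦ z b)
  have h3 := ((hasF_GΦ hG hΦ z).clm_apply (hasF_A hΦ z a)).clm_apply (hasF_S hΦ z v b)
  have h := (h1.add h2).add h3
  have e := h.fderiv
  have e2 : fderiv ℝ (fun x => fderiv ℝ G (Φ x) (fderiv ℝ Φ x v) (fderiv ℝ Φ x a) (fderiv ℝ Φ x b)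
        + G (Φ x) (fderiv ℝ (fderiv ℝ Φ) x v a) (fderiv ℝ Φ x b)
        + G (Φ x) (fderiv ℝ Φ x a) (fderiv ℝ (fderiv ℝ Φ) x v b)) z = _ := e
  rw [e2]
  simp
  ring

end

end general

open Pool.Agent.helper65.Tor

/-- the standard basis vectors -/
noncomputable abbrev bv (i : Fin 4) : E4 := Pi.single i (1 : ℝ)

/-- the metric as a map into continuous bilinear forms -/
noncomputable def GG (g : Met) (x : E4) : E4 →L[ℝ] E4 →L[ℝ] ℝ :=
  ∑ i, ∑ j, g i j x • ((ContinuousLinearMap.proj (R := ℝ) (φ := fun _ : Fin 4 => ℝ) i).smulRight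
    (ContinuousLinearMap.proj (R := ℝ) (φ := fun _ : Fin 4 => ℝ) j))

lemma GG_apply (g : Met) (x a b : E4) :
    GG g x a b = ∑ i, ∑ j, g i j x * (a i * b j) := by
  simp [GG]

lemma GG_basis (g : Met) (x : E4) (i j : Fin 4) : GG g x (bv i) (bv j) = g i j x := by
  rw [GG_apply]
  rw [Finset.sum_eq_single i, Finset.sum_eq_single j]
  · simp [bv]
  · intro b _ hb
    simp [bv, hb]
  · simp
  · intro b _ hb
    simp [bv, Pi.single_apply, hb]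
  · simp

lemma GG_contDiff {g : Met} {n : WithTop ℕ∞} (hg : ∀ i j, ContDiff ℝ n (g i j)) :
    ContDiff ℝ n (GG g) := by
  unfold GG
  refine ContDiff.sum fun i _ => ContDiff.sum fun j _ => ?_
  exact ContDiff.smul (hg i j) contDiff_const

lemma expand1 {F : Type*} [AddCommGroup F] [Module ℝ F] [TopologicalSpace F]
    (L : E4 →L[ℝ] F) (u : E4) : L u = ∑ i, u i • L (bv i) := by
  conv_lhs => rw [pi_eq_sum_univ' u]
  rw [map_sum]
  refine Finset.sum_congr rfl fun i _ => ?_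
  rw [map_smul]
  

lemma Gam_eq {g : Met} (hg : ∀ i j, ContDiff ℝ 2 (g i j)) (a k l : Fin 4) (x : E4) :
    Gam g a k l x = Gm (GG g) x (bv k) (bv l) (bv a) := by
  have hd : DifferentiableAt ℝ (GG g) x := ((GG_contDiff hg).differentiable (by norm_num)) x
  have key : ∀ i j : Fin 4, ∀ w : E4, fderiv ℝ (g i j) x w = fderiv ℝ (GG g) x w (bv i) (bv j) := by
    intro i j w
    rw [← fderiv_apply2 hd]
    congr 1
    congr 1
    funext y
    exact (GG_basis g y i j).symm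
  unfold Gam Gm
  rw [key, key, key]

lemma sec_eq {g : Met} (hg : ∀ i j, ContDiff ℝ 2 (g i j)) (i j k l : Fin 4) (x : E4) :
    fderiv ℝ (fun y => fderiv ℝ (g i j) y (Pi.single k 1)) x (Pi.single l 1)
      = fderiv ℝ (fderiv ℝ (GG g)) x (bv l) (bv k) (bv i) (bv j) := by
  rw [← fderiv2_apply (GG_contDiff hg)]
  congr 2
  funext y
  congr 1
  congr 1
  funext z
  exact (GG_basis g z i j).symm

lemma expandLin {L : E4 → ℝ} (hL : IsLinearMap ℝ L) (u : E4) :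
    L u = ∑ i, L (bv i) * u i := by
  have h := congrArg (hL.mk' L) (pi_eq_sum_univ' u)
  rw [map_sum] at h
  simp only [map_smul, IsLinearMap.mk'_apply, smul_eq_mul] at h
  rw [h]
  exact Finset.sum_congr rfl fun i _ => mul_comm _ _

lemma contr {X : E4 → E4 → E4 → E4 → ℝ}
    (h1 : ∀ q r s, IsLinearMap ℝ (fun p => X p q r s))
    (h2 : ∀ p r s, IsLinearMap ℝ (fun q => X p q r s))
    (h3 : ∀ p q s, IsLinearMap ℝ (fun r => X p q r s))
    (h4 : ∀ p q r, IsLinearMap ℝ (fun s => X p q r s)) (p q r s : E4) :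
    X p q r s = ∑ i, ∑ k, ∑ l, ∑ m, X (bv i) (bv k) (bv l) (bv m) * p i * q k * r l * s m := by
  rw [expandLin (h1 q r s) p]
  refine Finset.sum_congr rfl fun i _ => ?_
  rw [expandLin (h2 (bv i) r s) q, Finset.sum_mul]
  refine Finset.sum_congr rfl fun k _ => ?_
  rw [expandLin (h3 (bv i) (bv k) s) r, Finset.sum_mul, Finset.sum_mul]
  refine Finset.sum_congr rfl fun l _ => ?_
  rw [expandLin (h4 (bv i) (bv k) (bv l)) s, Finset.sum_mul, Finset.sum_mul, Finset.sum_mul]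
  refine Finset.sum_congr rfl fun m _ => ?_
  ring

/-- the coordinate free form of the contraction -/
noncomputable def XX (G : E4 → E4 →L[ℝ] E4 →L[ℝ] ℝ) (W : Matrix (Fin 4) (Fin 4) ℝ) (x : E4)
    (p q r s : E4) : ℝ :=
  (fderiv ℝ (fderiv ℝ G) x r q p s + fderiv ℝ (fderiv ℝ G) x s p q r
    - fderiv ℝ (fderiv ℝ G) x s q p r - fderiv ℝ (fderiv ℝ G) x r p q s) / 2
  + ∑ a, ∑ b, W a b * (Gm G x q r (bv a) * Gm G x p s (bv b)
      - Gm G x q s (bv a) * Gm G x p r (bv b))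

lemma Gm_add_left (G : E4 → E4 →L[ℝ] E4 →L[ℝ] ℝ) (x a a' b w : E4) :
    Gm G x (a + a') b w = Gm G x a b w + Gm G x a' b w := by
  simp [Gm]; ring

lemma Gm_smul_left (G : E4 → E4 →L[ℝ] E4 →L[ℝ] ℝ) (x a b w : E4) (c : ℝ) :
    Gm G x (c • a) b w = c * Gm G x a b w := by
  simp [Gm]; ring

lemma Gm_add_right (G : E4 → E4 →L[ℝ] E4 →L[ℝ] ℝ) (x a b b' w : E4) :
    Gm G x a (b + b') w = Gm G x a b w + Gm G x a b' w := by
  simp [Gm]; ring

lemma Gm_smul_right (G : E4 → E4 →L[ℝ] E4 →L[ℝ] ℝ) (x a b w : E4) (c : ℝ) :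
    Gm G x a (c • b) w = c * Gm G x a b w := by
  simp [Gm]; ring

lemma sum2_add (W : Matrix (Fin 4) (Fin 4) ℝ) (A B : Fin 4 → Fin 4 → ℝ) :
    ∑ a, ∑ b, W a b * (A a b + B a b) = ∑ a, ∑ b, W a b * A a b + ∑ a, ∑ b, W a b * B a b := by
  simp only [mul_add, Finset.sum_add_distrib]

lemma sum2_smul (W : Matrix (Fin 4) (Fin 4) ℝ) (c : ℝ) (A : Fin 4 → Fin 4 → ℝ) :
    ∑ a, ∑ b, W a b * (c * A a b) = c * ∑ a, ∑ b, W a b * A a b := by
  simp only [Finset.mul_sum]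
  exact Finset.sum_congr rfl fun a _ => Finset.sum_congr rfl fun b _ => by ring

lemma XX_lin1 (G : E4 → E4 →L[ℝ] E4 →L[ℝ] ℝ) (W : Matrix (Fin 4) (Fin 4) ℝ) (x q r s : E4) :
    IsLinearMap ℝ (fun p => XX G W x p q r s) := by
  constructor
  · intro p p'
    have : ∀ a b : Fin 4, (Gm G x q r (bv a) * Gm G x (p + p') s (bv b)
        - Gm G x q s (bv a) * Gm G x (p + p') r (bv b))
        = (Gm G x q r (bv a) * Gm G x p s (bv b) - Gm G x q s (bv a) * Gm G x p r (bv b))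
        + (Gm G x q r (bv a) * Gm G x p' s (bv b) - Gm G x q s (bv a) * Gm G x p' r (bv b)) := by
      intro a b
      rw [Gm_add_left, Gm_add_left]; ring
    simp only [XX, this, sum2_add, map_add, _root_.add_apply]
    ring
  · intro c p
    have : ∀ a b : Fin 4, (Gm G x q r (bv a) * Gm G x (c • p) s (bv b)
        - Gm G x q s (bv a) * Gm G x (c • p) r (bv b))
        = c * (Gm G x q r (bv a) * Gm G x p s (bv b) - Gm G x q s (bv a) * Gm G x p r (bv b)) := by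
      intro a b
      rw [Gm_smul_left, Gm_smul_left]; ring
    simp only [XX, this, sum2_smul, map_smul, _root_.smul_apply, smul_eq_mul]
    ring

lemma XX_lin2 (G : E4 → E4 →L[ℝ] E4 →L[ℝ] ℝ) (W : Matrix (Fin 4) (Fin 4) ℝ) (x p r s : E4) :
    IsLinearMap ℝ (fun q => XX G W x p q r s) := by
  constructor
  · intro q q'
    have : ∀ a b : Fin 4, (Gm G x (q + q') r (bv a) * Gm G x p s (bv b)
        - Gm G x (q + q') s (bv a) * Gm G x p r (bv b))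
        = (Gm G x q r (bv a) * Gm G x p s (bv b) - Gm G x q s (bv a) * Gm G x p r (bv b))
        + (Gm G x q' r (bv a) * Gm G x p s (bv b) - Gm G x q' s (bv a) * Gm G x p r (bv b)) := by
      intro a b
      rw [Gm_add_left, Gm_add_left]; ring
    simp only [XX, this, sum2_add, map_add, _root_.add_apply]
    ring
  · intro c q
    have : ∀ a b : Fin 4, (Gm G x (c • q) r (bv a) * Gm G x p s (bv b)
        - Gm G x (c • q) s (bv a) * Gm G x p r (bv b))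
        = c * (Gm G x q r (bv a) * Gm G x p s (bv b) - Gm G x q s (bv a) * Gm G x p r (bv b)) := by
      intro a b
      rw [Gm_smul_left, Gm_smul_left]; ring
    simp only [XX, this, sum2_smul, map_smul, _root_.smul_apply, smul_eq_mul]
    ring

lemma XX_lin3 (G : E4 → E4 →L[ℝ] E4 →L[ℝ] ℝ) (W : Matrix (Fin 4) (Fin 4) ℝ) (x p q s : E4) :
    IsLinearMap ℝ (fun r => XX G W x p q r s) := by
  constructor
  · intro r r'
    have : ∀ a b : Fin 4, (Gm G x q (r + r') (bv a) * Gm G x p s (bv b)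
        - Gm G x q s (bv a) * Gm G x p (r + r') (bv b))
        = (Gm G x q r (bv a) * Gm G x p s (bv b) - Gm G x q s (bv a) * Gm G x p r (bv b))
        + (Gm G x q r' (bv a) * Gm G x p s (bv b) - Gm G x q s (bv a) * Gm G x p r' (bv b)) := by
      intro a b
      rw [Gm_add_right, Gm_add_right]; ring
    simp only [XX, this, sum2_add, map_add, _root_.add_apply]
    ring
  · intro c r
    have : ∀ a b : Fin 4, (Gm G x q (c • r) (bv a) * Gm G x p s (bv b)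
        - Gm G x q s (bv a) * Gm G x p (c • r) (bv b))
        = c * (Gm G x q r (bv a) * Gm G x p s (bv b) - Gm G x q s (bv a) * Gm G x p r (bv b)) := by
      intro a b
      rw [Gm_smul_right, Gm_smul_right]; ring
    simp only [XX, this, sum2_smul, map_smul, _root_.smul_apply, smul_eq_mul]
    ring

lemma XX_lin4 (G : E4 → E4 →L[ℝ] E4 →L[ℝ] ℝ) (W : Matrix (Fin 4) (Fin 4) ℝ) (x p q r : E4) :
    IsLinearMap ℝ (fun s => XX G W x p q r s) := by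
  constructor
  · intro s s'
    have : ∀ a b : Fin 4, (Gm G x q r (bv a) * Gm G x p (s + s') (bv b)
        - Gm G x q (s + s') (bv a) * Gm G x p r (bv b))
        = (Gm G x q r (bv a) * Gm G x p s (bv b) - Gm G x q s (bv a) * Gm G x p r (bv b))
        + (Gm G x q r (bv a) * Gm G x p s' (bv b) - Gm G x q s' (bv a) * Gm G x p r (bv b)) := by
      intro a b
      rw [Gm_add_right, Gm_add_right]; ring
    simp only [XX, this, sum2_add, map_add, _root_.add_apply]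
    ring
  · intro c s
    have : ∀ a b : Fin 4, (Gm G x q r (bv a) * Gm G x p (c • s) (bv b)
        - Gm G x q (c • s) (bv a) * Gm G x p r (bv b))
        = c * (Gm G x q r (bv a) * Gm G x p s (bv b) - Gm G x q s (bv a) * Gm G x p r (bv b)) := by
      intro a b
      rw [Gm_smul_right, Gm_smul_right]; ring
    simp only [XX, this, sum2_smul, map_smul, _root_.smul_apply, smul_eq_mul]
    ring

lemma Num_eq {g : Met} (hg : ∀ i j, ContDiff ℝ 2 (g i j)) (x u v : E4) :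
    helper65.Tor.Num g x u v = XX (GG g) (Matrix.of fun p q => g p q x)⁻¹ x u v u v := by
  rw [contr (XX_lin1 _ _ _) (XX_lin2 _ _ _) (XX_lin3 _ _ _) (XX_lin4 _ _ _)]
  unfold helper65.Tor.Num
  refine Finset.sum_congr rfl fun i _ => Finset.sum_congr rfl fun k _ =>
    Finset.sum_congr rfl fun l _ => Finset.sum_congr rfl fun m _ => ?_
  congr 4
  unfold Riem XX
  rw [sec_eq hg, sec_eq hg, sec_eq hg, sec_eq hg]
  simp only [Gam_eq hg]

/-! ### symmetry -/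

lemma S_symm {Φ : E4 → E4} (hΦ : ContDiff ℝ 3 Φ) (z a b : E4) :
    fderiv ℝ (fderiv ℝ Φ) z a b = fderiv ℝ (fderiv ℝ Φ) z b a := by
  have h : IsSymmSndFDerivAt ℝ Φ z :=
    (hΦ.contDiffAt).isSymmSndFDerivAt (by simp [minSmoothness_of_isRCLikeNormedField]; norm_num)
  exact h.eq a b

lemma T_symm1 {Φ : E4 → E4} (hΦ : ContDiff ℝ 3 Φ) (z a b c : E4) :
    fderiv ℝ (fderiv ℝ (fderiv ℝ Φ)) z a b c = fderiv ℝ (fderiv ℝ (fderiv ℝ Φ)) z b a c := by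
  have h : IsSymmSndFDerivAt ℝ (fderiv ℝ Φ) z :=
    ((hΦ.fderiv_right (m := 2) (by norm_num)).contDiffAt).isSymmSndFDerivAt
      (by simp [minSmoothness_of_isRCLikeNormedField])
  exact congrArg (fun L => L c) (h.eq a b)

lemma T_symm2 {Φ : E4 → E4} (hΦ : ContDiff ℝ 3 Φ) (z a b c : E4) :
    fderiv ℝ (fderiv ℝ (fderiv ℝ Φ)) z a b c = fderiv ℝ (fderiv ℝ (fderiv ℝ Φ)) z a c b := by
  have h1 := hasF_S hΦ z b c
  have h2 := hasF_S hΦ z c b
  have h3 : (fun y => fderiv ℝ (fderiv ℝ Φ) y b c) = fun y => fderiv ℝ (fderiv ℝ Φ) y c b := by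
    funext y
    exact S_symm hΦ y b c
  rw [h3] at h1
  have h4 := congrArg (fun L => L a) (h1.unique h2)
  simpa using h4

lemma GG_symm {g : Met} (hs : ∀ i j x, g i j x = g j i x) (x a b : E4) :
    GG g x a b = GG g x b a := by
  rw [GG_apply, GG_apply, Finset.sum_comm]
  refine Finset.sum_congr rfl fun i _ => Finset.sum_congr rfl fun j _ => ?_
  rw [hs j i x]
  ring

lemma GG1_symm {g : Met} (hg : ∀ i j, ContDiff ℝ 2 (g i j)) (hs : ∀ i j x, g i j x = g j i x)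
    (x w a b : E4) : fderiv ℝ (GG g) x w a b = fderiv ℝ (GG g) x w b a := by
  have hd : DifferentiableAt ℝ (GG g) x := ((GG_contDiff hg).differentiable (by norm_num)) x
  rw [← fderiv_apply2 hd, ← fderiv_apply2 hd]
  congr 2
  funext y
  exact GG_symm hs y a b

/-! ### the pulled back metric -/

lemma expandCLM (L : E4 →L[ℝ] ℝ) (u : E4) : L u = ∑ i, L (bv i) * u i :=
  expandLin ⟨fun a b => map_add L a b, fun c a => map_smul L c a⟩ u

lemma bilin_expand (B : E4 →L[ℝ] E4 →L[ℝ] ℝ) (u v : E4) :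
    B u v = ∑ i, ∑ j, B (bv i) (bv j) * (u i * v j) := by
  have h : B u v = (B.flip v) u := rfl
  rw [h, expandCLM]
  refine Finset.sum_congr rfl fun i _ => ?_
  rw [ContinuousLinearMap.flip_apply, expandCLM, Finset.sum_mul]
  exact Finset.sum_congr rfl fun j _ => by ring

lemma pull_basis (g : Met) (Φ : E4 → E4) (z : E4) (i j : Fin 4) :
    pull g Φ i j z = GG g (Φ z) (fderiv ℝ Φ z (bv i)) (fderiv ℝ Φ z (bv j)) := by
  rw [GG_apply]
  unfold pull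
  exact Finset.sum_congr rfl fun p _ => Finset.sum_congr rfl fun q _ => by ring

lemma GG_pull (g : Met) (Φ : E4 → E4) (z a b : E4) :
    GG (pull g Φ) z a b = GG g (Φ z) (fderiv ℝ Φ z a) (fderiv ℝ Φ z b) := by
  have h1 := bilin_expand (((GG g (Φ z)).bilinearComp (fderiv ℝ Φ z) (fderiv ℝ Φ z))) a b
  simp only [ContinuousLinearMap.bilinearComp_apply] at h1
  rw [h1, GG_apply]
  exact Finset.sum_congr rfl fun i _ => Finset.sum_congr rfl fun j _ => by rw [pull_basis]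

lemma pull_contDiff {g : Met} {Φ : E4 → E4} (hg : ∀ i j, ContDiff ℝ 4 (g i j))
    (hΦ : ContDiff ℝ 4 Φ) (i j : Fin 4) : ContDiff ℝ 2 (pull g Φ i j) := by
  have h1 : ContDiff ℝ 2 (fderiv ℝ Φ) := hΦ.fderiv_right (by norm_num)
  unfold pull
  refine ContDiff.sum fun p _ => ContDiff.sum fun q _ => ?_
  have h2 : ∀ (k p : Fin 4), ContDiff ℝ 2 (fun z => fderiv ℝ Φ z (Pi.single k 1) p) := by
    intro k p
    exact (contDiff_apply ℝ ℝ p).comp (h1.clm_apply contDiff_const)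
  have h3 : ContDiff ℝ 2 (fun z => g p q (Φ z)) :=
    ((hg p q).of_le (by norm_num)).comp (hΦ.of_le (by norm_num))
  exact (h3.mul (h2 i p)).mul (h2 j q)

lemma D1' {g : Met} {Φ : E4 → E4} (hg : ∀ i j, ContDiff ℝ 4 (g i j)) (hΦ : ContDiff ℝ 4 Φ)
    (z a b w : E4) :
    fderiv ℝ (GG (pull g Φ)) z w a b
      = fderiv ℝ (GG g) (Φ z) (fderiv ℝ Φ z w) (fderiv ℝ Φ z a) (fderiv ℝ Φ z b)
        + GG g (Φ z) (fderiv ℝ (fderiv ℝ Φ) z w a) (fderiv ℝ Φ z b)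
        + GG g (Φ z) (fderiv ℝ Φ z a) (fderiv ℝ (fderiv ℝ Φ) z w b) := by
  have hd : DifferentiableAt ℝ (GG (pull g Φ)) z :=
    ((GG_contDiff (pull_contDiff hg hΦ)).differentiable (by norm_num)) z
  rw [← fderiv_apply2 hd, ← D1F (GG_contDiff fun i j => (hg i j).of_le (by norm_num))
    (hΦ.of_le (by norm_num))]
  congr 2
  funext y
  exact GG_pull g Φ y a b

lemma D2' {g : Met} {Φ : E4 → E4} (hg : ∀ i j, ContDiff ℝ 4 (g i j)) (hΦ : ContDiff ℝ 4 Φ)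
    (z a b v w : E4) :
    fderiv ℝ (fderiv ℝ (GG (pull g Φ))) z w v a b
      = fderiv ℝ (fun x => fderiv ℝ (fun y => GG g (Φ y) (fderiv ℝ Φ y a)
          (fderiv ℝ Φ y b)) x v) z w := by
  rw [← fderiv2_apply (GG_contDiff (pull_contDiff hg hΦ))]
  congr 2
  funext x
  congr 2
  funext y
  exact GG_pull g Φ y a b

/-! ### the inverse metric -/

lemma pair_pull (M A : Matrix (Fin 4) (Fin 4) ℝ) (hA : IsUnit A.det)
    (α β : Fin 4 → ℝ) :
    (Aᵀ *ᵥ α) ⬝ᵥ ((Aᵀ * M * A)⁻¹ *ᵥ (Aᵀ *ᵥ β)) = α ⬝ᵥ (M⁻¹ *ᵥ β) := by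
  have hAT : IsUnit Aᵀ.det := by rwa [Matrix.det_transpose]
  rw [Matrix.mul_inv_rev, Matrix.mul_inv_rev, Matrix.mulVec_mulVec, Matrix.mul_assoc,
    Matrix.mul_assoc, Matrix.nonsing_inv_mul _ hAT, Matrix.mul_one, ← Matrix.mulVec_mulVec,
    Matrix.mulVec_transpose, ← Matrix.dotProduct_mulVec, Matrix.mulVec_mulVec,
    Matrix.mul_nonsing_inv _ hA, Matrix.one_mulVec]

lemma pair_add (M : Matrix (Fin 4) (Fin 4) ℝ) (hM : IsUnit M.det) (hs : Mᵀ = M)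
    (α β s t : Fin 4 → ℝ) :
    (α + M *ᵥ s) ⬝ᵥ (M⁻¹ *ᵥ (β + M *ᵥ t))
      = α ⬝ᵥ (M⁻¹ *ᵥ β) + α ⬝ᵥ t + s ⬝ᵥ β + s ⬝ᵥ (M *ᵥ t) := by
  have h1 : M⁻¹ *ᵥ (M *ᵥ t) = t := by
    rw [Matrix.mulVec_mulVec, Matrix.nonsing_inv_mul _ hM, Matrix.one_mulVec]
  have h2 : ∀ w : Fin 4 → ℝ, (M *ᵥ s) ⬝ᵥ w = s ⬝ᵥ (M *ᵥ w) := by
    intro w
    have h3 := Matrix.mulVec_transpose M s
    rw [hs] at h3
    rw [h3, ← Matrix.dotProduct_mulVec]
  rw [Matrix.mulVec_add, h1, add_dotProduct, dotProduct_add, dotProduct_add, h2, h2,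
    Matrix.mulVec_mulVec, Matrix.mul_nonsing_inv _ hM, Matrix.one_mulVec]
  ring

lemma sum_pair (W : Matrix (Fin 4) (Fin 4) ℝ) (α β : Fin 4 → ℝ) :
    ∑ a, ∑ b, W a b * (α a * β b) = α ⬝ᵥ (W *ᵥ β) := by
  simp only [dotProduct, mulVec, Finset.mul_sum]
  exact Finset.sum_congr rfl fun a _ => Finset.sum_congr rfl fun b _ => by ring

lemma Gm_lin (G : E4 → E4 →L[ℝ] E4 →L[ℝ] ℝ) (x a b : E4) :
    IsLinearMap ℝ (fun w => Gm G x a b w) := by
  constructor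
  · intro w w'
    simp only [Gm, map_add, _root_.add_apply]
    ring
  · intro c w
    simp only [Gm, map_smul, _root_.smul_apply, smul_eq_mul]
    ring

lemma Gm_symm {g : Met} (hg : ∀ i j, ContDiff ℝ 2 (g i j)) (hs : ∀ i j x, g i j x = g j i x)
    (x a b w : E4) : Gm (GG g) x a b w = Gm (GG g) x b a w := by
  unfold Gm
  rw [GG1_symm hg hs x w a b]
  ring

/-- the Christoffel symbols of the pulled back metric -/
lemma Gm_pull {g : Met} {Φ : E4 → E4} (hg : ∀ i j, ContDiff ℝ 4 (g i j))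
    (hs : ∀ i j x, g i j x = g j i x) (hΦ : ContDiff ℝ 4 Φ) (z a b w : E4) :
    Gm (GG (pull g Φ)) z a b w
      = Gm (GG g) (Φ z) (fderiv ℝ Φ z a) (fderiv ℝ Φ z b) (fderiv ℝ Φ z w)
        + GG g (Φ z) (fderiv ℝ (fderiv ℝ Φ) z a b) (fderiv ℝ Φ z w) := by
  have hΦ3 : ContDiff ℝ 3 Φ := hΦ.of_le (by norm_num)
  unfold Gm
  rw [D1' hg hΦ, D1' hg hΦ, D1' hg hΦ, S_symm hΦ3 z b a, S_symm hΦ3 z w a, S_symm hΦ3 z w b,
    GG_symm hs (Φ z) (fderiv ℝ Φ z b) (fderiv ℝ (fderiv ℝ Φ) z a w),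
    GG_symm hs (Φ z) (fderiv ℝ Φ z a) (fderiv ℝ (fderiv ℝ Φ) z b w)]
  ring

theorem pull_num : PullStatement := by
  intro g Φ z u v hg hs hΦ hdet hinj
  have hg2 : ∀ i j, ContDiff ℝ 2 (g i j) := fun i j => (hg i j).of_le (by norm_num)
  have hΦ3 : ContDiff ℝ 3 Φ := hΦ.of_le (by norm_num)
  rw [Num_eq (pull_contDiff hg hΦ), Num_eq hg2]
  -- matrices
  set M : Matrix (Fin 4) (Fin 4) ℝ := Matrix.of fun p q => g p q (Φ z) with hMdef
  set A : Matrix (Fin 4) (Fin 4) ℝ := Matrix.of fun p i => fderiv ℝ Φ z (bv i) p with hAdef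
  have hM : IsUnit M.det := isUnit_iff_ne_zero.2 hdet
  have hMs : Mᵀ = M := by
    ext p q
    simp [hMdef, hs p q]
  have hAv : ∀ w : E4, A *ᵥ w = fderiv ℝ Φ z w := by
    intro w
    rw [expand1 (fderiv ℝ Φ z) w]
    ext p
    simp only [mulVec, dotProduct, hAdef, Matrix.of_apply, Finset.sum_apply, Pi.smul_apply,
      smul_eq_mul]
    exact Finset.sum_congr rfl fun i _ => by ring
  have hA : IsUnit A.det := by
    rw [← Matrix.isUnit_iff_isUnit_det, ← Matrix.mulVec_injective_iff_isUnit]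
    intro w w' h
    have h' : A *ᵥ w = A *ᵥ w' := h
    rw [hAv, hAv] at h'
    exact hinj h'
  have hM' : (Matrix.of fun p q => pull g Φ p q z) = Aᵀ * M * A := by
    ext i j
    rw [Matrix.of_apply, Matrix.mul_apply]
    simp only [Matrix.mul_apply, Matrix.transpose_apply, hMdef, hAdef, Matrix.of_apply, pull,
      Finset.sum_mul]
    rw [Finset.sum_comm]
    exact Finset.sum_congr rfl fun p _ => Finset.sum_congr rfl fun q _ => by ring
  -- Christoffel covectors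
  set Γ : E4 → E4 → Fin 4 → ℝ := fun a b p =>
    Gm (GG g) (Φ z) (fderiv ℝ Φ z a) (fderiv ℝ Φ z b) (bv p) with hΓ
  have hMv : ∀ (s : E4) (p : Fin 4), (M *ᵥ s) p = GG g (Φ z) s (bv p) := by
    intro s p
    rw [GG_symm hs, expandCLM (GG g (Φ z) (bv p)) s]
    simp only [mulVec, dotProduct, hMdef, Matrix.of_apply, GG_basis]
  have hGm : ∀ (a b : E4) (k : Fin 4), Gm (GG (pull g Φ)) z a b (bv k)
      = (Aᵀ *ᵥ (Γ a b + M *ᵥ (fderiv ℝ (fderiv ℝ Φ) z a b))) k := by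
    intro a b k
    rw [Gm_pull hg hs hΦ, expandLin (Gm_lin (GG g) (Φ z) (fderiv ℝ Φ z a) (fderiv ℝ Φ z b))
      (fderiv ℝ Φ z (bv k)), expandCLM (GG g (Φ z) (fderiv ℝ (fderiv ℝ Φ) z a b))
      (fderiv ℝ Φ z (bv k)), ← Finset.sum_add_distrib]
    simp only [mulVec, dotProduct, Matrix.transpose_apply, hAdef, Matrix.of_apply]
    refine Finset.sum_congr rfl fun p _ => ?_
    have h := hMv (fderiv ℝ (fderiv ℝ Φ) z a b) p
    simp only [mulVec, dotProduct] at h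
    simp only [Pi.add_apply, hΓ, mulVec, dotProduct, h]
    ring
  have hΓs : ∀ a b s : E4, Γ a b ⬝ᵥ s
      = Gm (GG g) (Φ z) (fderiv ℝ Φ z a) (fderiv ℝ Φ z b) s := by
    intro a b s
    rw [expandLin (Gm_lin (GG g) (Φ z) (fderiv ℝ Φ z a) (fderiv ℝ Φ z b)) s]
    rfl
  have hsM : ∀ s t : E4, s ⬝ᵥ (M *ᵥ t) = GG g (Φ z) t s := by
    intro s t
    rw [expandCLM (GG g (Φ z) t) s]
    simp only [dotProduct, hMv]
    exact Finset.sum_congr rfl fun p _ => by ring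
  have hpair : ∀ a b c d : E4, ∑ k, ∑ l, ((Aᵀ * M * A)⁻¹) k l *
      (Gm (GG (pull g Φ)) z a b (bv k) * Gm (GG (pull g Φ)) z c d (bv l))
      = ∑ k, ∑ l, M⁻¹ k l * (Γ a b k * Γ c d l)
        + Gm (GG g) (Φ z) (fderiv ℝ Φ z a) (fderiv ℝ Φ z b) (fderiv ℝ (fderiv ℝ Φ) z c d)
        + Gm (GG g) (Φ z) (fderiv ℝ Φ z c) (fderiv ℝ Φ z d) (fderiv ℝ (fderiv ℝ Φ) z a b)
        + GG g (Φ z) (fderiv ℝ (fderiv ℝ Φ) z c d) (fderiv ℝ (fderiv ℝ Φ) z a b) := by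
    intro a b c d
    simp only [hGm]
    rw [sum_pair, pair_pull M A hA, pair_add M hM hMs, sum_pair,
      hΓs a b (fderiv ℝ (fderiv ℝ Φ) z c d), dotProduct_comm _ (Γ c d), hΓs c d, hsM]
  rw [hM']
  unfold XX
  have hsplit : ∀ (W : Matrix (Fin 4) (Fin 4) ℝ) (P Q R T : Fin 4 → ℝ),
      ∑ a, ∑ b, W a b * (P a * Q b - R a * T b)
        = ∑ a, ∑ b, W a b * (P a * Q b) - ∑ a, ∑ b, W a b * (R a * T b) := by
    intro W P Q R T
    simp only [mul_sub, Finset.sum_sub_distrib]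
  rw [hsplit _ (fun a => Gm (GG (pull g Φ)) z v u (bv a)) (fun b => Gm (GG (pull g Φ)) z u v (bv b))
      (fun a => Gm (GG (pull g Φ)) z v v (bv a)) (fun b => Gm (GG (pull g Φ)) z u u (bv b)),
    hsplit _ (fun a => Gm (GG g) (Φ z) (fderiv ℝ Φ z v) (fderiv ℝ Φ z u) (bv a))
      (fun b => Gm (GG g) (Φ z) (fderiv ℝ Φ z u) (fderiv ℝ Φ z v) (bv b))
      (fun a => Gm (GG g) (Φ z) (fderiv ℝ Φ z v) (fderiv ℝ Φ z v) (bv a))
      (fun b => Gm (GG g) (Φ z) (fderiv ℝ Φ z u) (fderiv ℝ Φ z u) (bv b)),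
    hpair v u u v, hpair v v u u]
  simp only [D2' hg hΦ, D2F (GG_contDiff hg2) hΦ3]
  rw [S_symm hΦ3 z v u, T_symm1 hΦ3 z v u v, T_symm2 hΦ3 z v v u, T_symm1 hΦ3 z v u v,
    T_symm1 hΦ3 z v u u, T_symm2 hΦ3 z u v u]
  have e1 := GG_symm hs (Φ z) (fderiv ℝ Φ z v) (fderiv ℝ (fderiv ℝ (fderiv ℝ Φ)) z u u v)
  have e2 := GG_symm hs (Φ z) (fderiv ℝ Φ z u) (fderiv ℝ (fderiv ℝ (fderiv ℝ Φ)) z u v v)
  have e3 := GG_symm hs (Φ z) (fderiv ℝ (fderiv ℝ Φ) z v v) (fderiv ℝ (fderiv ℝ Φ) z u u)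
  have d1 := GG1_symm hg2 hs (Φ z) (fderiv ℝ Φ z v) (fderiv ℝ Φ z v)
    (fderiv ℝ (fderiv ℝ Φ) z u u)
  have d2 := GG1_symm hg2 hs (Φ z) (fderiv ℝ Φ z u) (fderiv ℝ Φ z u)
    (fderiv ℝ (fderiv ℝ Φ) z v v)
  have d3 := GG1_symm hg2 hs (Φ z) (fderiv ℝ Φ z v) (fderiv ℝ Φ z u)
    (fderiv ℝ (fderiv ℝ Φ) z u v)
  have d4 := GG1_symm hg2 hs (Φ z) (fderiv ℝ Φ z u) (fderiv ℝ Φ z v)
    (fderiv ℝ (fderiv ℝ Φ) z u v)
  have d5 := GG1_symm hg2 hs (Φ z) (fderiv ℝ (fderiv ℝ Φ) z u v) (fderiv ℝ Φ z v)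
    (fderiv ℝ Φ z u)
  rw [e1, e2, e3]
  have g1 : Gm (GG g) (Φ z) (fderiv ℝ Φ z v) (fderiv ℝ Φ z u) (fderiv ℝ (fderiv ℝ Φ) z u v)
      = (fderiv ℝ (GG g) (Φ z) (fderiv ℝ Φ z v) (fderiv ℝ Φ z u) (fderiv ℝ (fderiv ℝ Φ) z u v)
        + fderiv ℝ (GG g) (Φ z) (fderiv ℝ Φ z u) (fderiv ℝ Φ z v) (fderiv ℝ (fderiv ℝ Φ) z u v)
        - fderiv ℝ (GG g) (Φ z) (fderiv ℝ (fderiv ℝ Φ) z u v) (fderiv ℝ Φ z v)
          (fderiv ℝ Φ z u)) / 2 := rfl
  have g2 : Gm (GG g) (Φ z) (fderiv ℝ Φ z u) (fderiv ℝ Φ z v) (fderiv ℝ (fderiv ℝ Φ) z u v)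
      = (fderiv ℝ (GG g) (Φ z) (fderiv ℝ Φ z u) (fderiv ℝ Φ z v) (fderiv ℝ (fderiv ℝ Φ) z u v)
        + fderiv ℝ (GG g) (Φ z) (fderiv ℝ Φ z v) (fderiv ℝ Φ z u) (fderiv ℝ (fderiv ℝ Φ) z u v)
        - fderiv ℝ (GG g) (Φ z) (fderiv ℝ (fderiv ℝ Φ) z u v) (fderiv ℝ Φ z u)
          (fderiv ℝ Φ z v)) / 2 := rfl
  have g3 : Gm (GG g) (Φ z) (fderiv ℝ Φ z v) (fderiv ℝ Φ z v) (fderiv ℝ (fderiv ℝ Φ) z u u)
      = (fderiv ℝ (GG g) (Φ z) (fderiv ℝ Φ z v) (fderiv ℝ Φ z v) (fderiv ℝ (fderiv ℝ Φ) z u u)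
        + fderiv ℝ (GG g) (Φ z) (fderiv ℝ Φ z v) (fderiv ℝ Φ z v) (fderiv ℝ (fderiv ℝ Φ) z u u)
        - fderiv ℝ (GG g) (Φ z) (fderiv ℝ (fderiv ℝ Φ) z u u) (fderiv ℝ Φ z v)
          (fderiv ℝ Φ z v)) / 2 := rfl
  have g4 : Gm (GG g) (Φ z) (fderiv ℝ Φ z u) (fderiv ℝ Φ z u) (fderiv ℝ (fderiv ℝ Φ) z v v)
      = (fderiv ℝ (GG g) (Φ z) (fderiv ℝ Φ z u) (fderiv ℝ Φ z u) (fderiv ℝ (fderiv ℝ Φ) z v v)
        + fderiv ℝ (GG g) (Φ z) (fderiv ℝ Φ z u) (fderiv ℝ Φ z u) (fderiv ℝ (fderiv ℝ Φ) z v v)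
        - fderiv ℝ (GG g) (Φ z) (fderiv ℝ (fderiv ℝ Φ) z v v) (fderiv ℝ Φ z u)
          (fderiv ℝ Φ z u)) / 2 := rfl
  rw [g1, g2, g3, g4, d1, d2, d3, d4, d5]
  simp only [hΓ]
  ring

end Pool.Agent.helper63.TorPull
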